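import Pool.Agent.H8.TX.Targets
import Pool.Agent.H8.TD.All

/-!
# Zariski dense orbits on threefolds: elementary lemmas
-/

set_option autoImplicit false

open MvPolynomial
open Pool.Agent.H12.ZD (pmap)
open Pool.Agent.H18.HIT Pool.Agent.H18.HX Pool.Agent.H18.VZ
open Pool.Agent.H8.ZA (HFam Const NA)
open Pool.Agent.H8.TD (lc dg Wsp Cop dh lc_single lc_map lc_iterate)

namespace Pool.Agent.H8.TX

/-! ## Heights -/

section size

variable {k : Type} [CommRing k] {n : ℕ}

theorem one_le_szn (v : AbsoluteValue k ℝ) (x : Fin n → k) : 1 ≤ szn v x :=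
  Finset.le_fold_max 1 |>.2 (Or.inl le_rfl)

theorem szn_pos (v : AbsoluteValue k ℝ) (x : Fin n → k) : 0 < szn v x :=
  lt_of_lt_of_le one_pos (one_le_szn v x)

theorem le_szn (v : AbsoluteValue k ℝ) (x : Fin n → k) (i : Fin n) : v (x i) ≤ szn v x :=
  Finset.le_fold_max _ |>.2 (Or.inr ⟨i, Finset.mem_univ i, le_rfl⟩)

theorem szn_le {v : AbsoluteValue k ℝ} {x : Fin n → k} {B : ℝ} (h1 : 1 ≤ B)
    (h : ∀ i, v (x i) ≤ B) : szn v x ≤ B :=
  Finset.fold_max_le _ |>.2 ⟨h1, fun i _ => h i⟩

end size

section height

variable {K : IntermediateField ℚ Qb} {n : ℕ}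

theorem szn_finite (F : HFam K) (x : Fin n → Qb) : {i | szn (F.abv i) x ≠ 1}.Finite := by
  have h1 : (⋃ j : Fin n, {i | x j ≠ 0 ∧ F.abv i (x j) ≠ 1}).Finite := by
    apply Set.finite_iUnion
    intro j
    by_cases hj : x j = 0
    · have h2 : {i | x j ≠ 0 ∧ F.abv i (x j) ≠ 1} = ∅ := by
        ext i
        simp [hj]
      rw [h2]
      exact Set.finite_empty
    · exact (F.finite (x j) hj).subset fun i hi => hi.2
  refine h1.subset fun i hi => ?_
  by_contra hcon
  apply hi
  apply le_antisymm _ (one_le_szn _ _)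
  apply szn_le le_rfl
  intro j
  by_cases hj : x j = 0
  · rw [hj, map_zero]
    exact zero_le_one
  · by_contra h3
    apply hcon
    rw [Set.mem_iUnion]
    exact ⟨j, hj, fun h4 => h3 h4.le⟩

theorem log_szn_finite (F : HFam K) (x : Fin n → Qb) :
    (Function.support fun i => Real.log (szn (F.abv i) x)).Finite := by
  refine (szn_finite F x).subset fun i hi => ?_
  intro h
  apply hi
  simp only
  rw [h, Real.log_one]

theorem hn_nonneg (F : HFam K) (x : Fin n → Qb) : 0 ≤ hn F x :=
  finsum_nonneg fun _ => Real.log_nonneg (one_le_szn _ _)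

theorem hn_mono {m : ℕ} (F : HFam K) {x : Fin n → Qb} {y : Fin m → Qb}
    (h : ∀ i, szn (F.abv i) x ≤ szn (F.abv i) y) : hn F x ≤ hn F y := by
  apply finsum_le_finsum'
  · exact log_szn_finite F x
  · exact log_szn_finite F y
  · intro i
    exact Real.log_le_log (szn_pos _ _) (h i)

theorem szn_one (v : AbsoluteValue Qb ℝ) (c : Qb) : szn v ![c] = max 1 (v c) := by
  apply le_antisymm
  · apply szn_le (le_max_left _ _)
    intro i
    fin_cases i
    exact le_max_right _ _
  · exact max_le (one_le_szn _ _) (le_szn v ![c] 0)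

/-- the height of a point is at most the sum of the heights of the coordinates -/
theorem hn_le_sum (F : HFam K) (x : Fin n → Qb) : hn F x ≤ ∑ j, hn F ![x j] := by
  have e0 : ∑ j, hn F ![x j] = ∑ᶠ i, ∑ j, Real.log (szn (F.abv i) ![x j]) := by
    rw [finsum_sum_comm]
    · rfl
    · intro j _
      exact log_szn_finite F _
  rw [e0]
  apply finsum_le_finsum'
  · exact log_szn_finite F x
  · refine (Set.finite_iUnion fun j : Fin n => log_szn_finite F ![x j]).subset fun i hi => ?_
    by_contra hcon
    apply hi
    apply Finset.sum_eq_zero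
    intro j _
    by_contra h1
    apply hcon
    rw [Set.mem_iUnion]
    exact ⟨j, h1⟩
  · intro i
    change Real.log (szn (F.abv i) x) ≤ ∑ j, Real.log (szn (F.abv i) ![x j])
    rw [← Real.log_prod fun j _ => (szn_pos _ _).ne']
    apply Real.log_le_log (szn_pos _ _)
    have h1 : ∀ s : Finset (Fin n), 1 ≤ ∏ j ∈ s, szn (F.abv i) ![x j] := by
      intro s
      induction s using Finset.induction_on with
      | empty => rw [Finset.prod_empty]
      | insert a s ha ih =>
        rw [Finset.prod_insert ha]
        exact one_le_mul_of_one_le_of_one_le (one_le_szn _ _) ih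
    apply szn_le (h1 _)
    intro j
    calc F.abv i (x j) ≤ szn (F.abv i) ![x j] := le_szn (F.abv i) ![x j] 0
      _ ≤ szn (F.abv i) ![x j] * ∏ j' ∈ Finset.univ.erase j, szn (F.abv i) ![x j'] :=
        le_mul_of_one_le_right (szn_pos _ _).le (h1 _)
      _ = _ := Finset.mul_prod_erase Finset.univ (fun j' => szn (F.abv i) ![x j'])
          (Finset.mem_univ j)

/-- the height of one coordinate -/
theorem hn_coord (F : HFam K) (x : Fin n → Qb) (j : Fin n) : hn F ![x j] ≤ hn F x := by
  apply hn_mono
  intro i
  rw [szn_one]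
  exact max_le (one_le_szn _ _) (le_szn _ _ j)

/-- the height of a linear combination -/
theorem hn_lc (F : HFam K) (s : Fin n → Qb) : ∃ c : ℝ, ∀ x : Fin n → Qb,
    hn F ![lc s x] ≤ hn F x + c := by
  classical
  -- the constants
  set C : F.ι → ℝ := fun i => (if i ∈ F.arch then ((n : ℝ) + 1) else 1) * szn (F.abv i) s with hC
  have hCpos : ∀ i, 1 ≤ C i := by
    intro i
    apply one_le_mul_of_one_le_of_one_le _ (one_le_szn _ _)
    split_ifs
    · have : (0 : ℝ) ≤ n := Nat.cast_nonneg n
      linarith
    · exact le_rfl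
  have hCfin : (Function.support fun i => Real.log (C i)).Finite := by
    refine ((F.arch.finite_toSet).union (szn_finite F s)).subset fun i hi => ?_
    by_contra hcon
    rw [Set.mem_union] at hcon
    push Not at hcon
    apply hi
    have h1 : i ∉ F.arch := fun h => hcon.1 (by exact_mod_cast h)
    have h2 : szn (F.abv i) s = 1 := by
      by_contra h
      exact hcon.2 h
    simp only [hC, if_neg h1, h2, mul_one, Real.log_one]
  refine ⟨∑ᶠ i, Real.log (C i), fun x => ?_⟩
  rw [hn, hn, ← finsum_add_distrib (log_szn_finite F x) hCfin]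
  apply finsum_le_finsum'
  · exact log_szn_finite F _
  · exact ((log_szn_finite F x).union hCfin).subset (Function.support_add _ _)
  · intro i
    change Real.log (szn (F.abv i) ![lc s x]) ≤
      Real.log (szn (F.abv i) x) + Real.log (C i)
    rw [← Real.log_mul (szn_pos _ _).ne' (by have := hCpos i; positivity)]
    apply Real.log_le_log (szn_pos _ _)
    rw [szn_one]
    have hx := one_le_szn (F.abv i) x
    have hs := one_le_szn (F.abv i) s
    apply max_le
    · exact one_le_mul_of_one_le_of_one_le hx (hCpos i)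
    · have h1 : ∀ j, F.abv i (s j • x j) ≤ szn (F.abv i) s * szn (F.abv i) x := by
        intro j
        rw [smul_eq_mul, map_mul]
        exact mul_le_mul (le_szn _ _ j) (le_szn _ _ j) ((F.abv i).nonneg _) (by linarith)
      have h0 : 0 ≤ szn (F.abv i) s * szn (F.abv i) x := by positivity
      by_cases hi : i ∈ F.arch
      · have h2 : F.abv i (lc s x) ≤ n * (szn (F.abv i) s * szn (F.abv i) x) := by
          rw [lc]
          calc F.abv i (∑ j, s j • x j) ≤ ∑ j, F.abv i (s j • x j) :=
                IsAbsoluteValue.abv_sum (F.abv i) _ _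
            _ ≤ ∑ _j : Fin n, szn (F.abv i) s * szn (F.abv i) x :=
                Finset.sum_le_sum fun j _ => h1 j
            _ = _ := by
                rw [Finset.sum_const, Finset.card_univ, Fintype.card_fin, nsmul_eq_mul]
        simp only [hC, if_pos hi]
        nlinarith
      · have h2 : F.abv i (lc s x) ≤ szn (F.abv i) s * szn (F.abv i) x := by
          rw [lc]
          have h3 : ∀ t : Finset (Fin n), F.abv i (∑ j ∈ t, s j • x j) ≤
              szn (F.abv i) s * szn (F.abv i) x := by
            intro t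
            induction t using Finset.induction_on with
            | empty =>
              rw [Finset.sum_empty, map_zero]
              exact h0
            | insert a t ha ih =>
              rw [Finset.sum_insert ha]
              exact (F.na i hi _ _).trans (max_le (h1 a) ih)
          exact h3 _
        simp only [hC, if_neg hi, one_mul]
        linarith [mul_comm (szn (F.abv i) s) (szn (F.abv i) x)]

end height

/-! ## Intersection numbers -/

section big

variable {k K : Type} [Field k] [Field K] [Algebra k K] {a b c : ℕ}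

theorem Bg.swap {α : Fin a → K} {β : Fin b → K} {γ : Fin c → K} {M : ℕ} (h : Bg k α β γ M) :
    Bg k β α γ M := by
  intro s s' s''
  rw [Set.insert_comm]
  exact h s' s s''

theorem Bg.rot {α : Fin a → K} {β : Fin b → K} {γ : Fin c → K} {M : ℕ} (h : Bg k α β γ M) :
    Bg k α γ β M := by
  intro s s' s''
  rw [Set.pair_comm]
  exact h s s'' s'

theorem exists_maxg {α : Fin a → K} {β : Fin b → K} {γ : Fin c → K} {B : ℕ}
    (h : Bg k α β γ B) : ∃ M ≤ B, Bg k α β γ M ∧
      ∃ (s : Fin a → k) (s' : Fin b → k) (s'' : Fin c → k),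
        dg k {lc s α, lc s' β, lc s'' γ} = M := by
  classical
  set P : ℕ → Prop := fun n => ∃ (s : Fin a → k) (s' : Fin b → k) (s'' : Fin c → k),
    dg k {lc s α, lc s' β, lc s'' γ} = n with hP
  have h0 : P (dg k {lc (0 : Fin a → k) α, lc (0 : Fin b → k) β, lc (0 : Fin c → k) γ}) :=
    ⟨0, 0, 0, rfl⟩
  refine ⟨Nat.findGreatest P B, Nat.findGreatest_le B, ?_, ?_⟩
  · intro s s' s''
    exact Nat.le_findGreatest (h s s' s'') ⟨s, s', s'', rfl⟩
  · exact Nat.findGreatest_spec (P := P) (h 0 0 0) h0

end big

end Pool.Agent.H8.TX
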