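import Pool.Agent.H8.TX.Core1

/-!
# Zariski dense orbits on threefolds: the core, part 3
-/

set_option autoImplicit false

open MvPolynomial
open Pool.Agent.H12.ZD (pmap)
open Pool.Agent.H18.HIT Pool.Agent.H18.HX Pool.Agent.H18.VZ
open Pool.Agent.H8.ZA (HFam Const NA)
open Pool.Agent.H8.TD (lc dg Wsp Cop dh lc_single lc_map lc_iterate)

namespace Pool.Agent.H8.TX

/-- a point with large growth of the heights -/
theorem pointX (hCJX : T_CJX) (hHTX : T_HTX) (hSTX : T_STX)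
    {r d e m k E D : ℕ} {P b b₁ θ : Po 5 Qb} {F : Tup 5 Qb} (hP : Hyp P r)
    (hF : ∀ i, (F i).IsHomogeneous d) (hsl : Slf (Ideal.span {P}) F) (he : 1 ≤ e)
    {κ β : ℝ} {T : Finset (Po 5 Qb)} (hβ : 0 ≤ β) (hκe : 2 * (e : ℝ) ^ m < κ)
    (hβκ : 8 * β ≤ κ ^ 2) (hκa : 45 * r * κ ≤ D) (hb₁ : b₁ = ∏ p ∈ T, hmg p)
    (hrec : ∀ (K' : IntermediateField ℚ Qb) (F' : HFam K'), ∃ c₀ : ℝ,
        ∀ (μ : ℕ) (z : Fin μ → Fin 5 → Qb), (∀ j, eval (z j) P = 0) → (∀ j, z j 1 = 1) →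
          (∀ j, ∀ p ∈ T, eval (z j) p ≠ 0) → (∀ p ∈ T, ∏ j, eval (z j) p ∈ K') →
          κ * ∑ j, hn F' (af (pmap (it F m) (z j))) ≤
            ∑ j, hn F' (af (pmap (it F (m + m)) (z j))) + β * ∑ j, hn F' (z j) + μ * c₀)
    {s : Fin 5 → Qb} {l : ℕ} {Cf : ℕ → Po 4 Qb} {B : Po 4 Qb}
    (hN : Npd P r (sF F m s) (it F m 1) D l Cf B) {α : Fin 4 → Qb} {ϖ : Qb} (hϖ : ϖ ≠ 0)
    {g : Po 4 Qb} (hg : g ≠ 0)
    (hcol : ∀ g : Po 4 Qb, g ≠ 0 →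
      ∃ y : Fin 4 → ℤ, eval (fun i => α i + ϖ * (y i : Qb)) g ≠ 0 ∧
      ∀ c' : Po 4 Qb, c' ≠ 0 → ∃ b' : Fin 4 → ℤ, eval (cZ b') c' ≠ 0 ∧
      ∀ (s : Finset Qb) (M₀ : ℕ), ∃ (t : ℤ) (x : Fin 5 → Qb), (M₀ : ℤ) < |t| ∧
        (∀ i : Fin 4, x i.succ = α i + ϖ * ((y i + t * b' i : ℤ) : Qb)) ∧ eval x P = 0 ∧
        (∀ n : ℕ, eval ((pmap F)^[n] x) (b * X 1 * b₁) ≠ 0) ∧ eval x (up g) ≠ 0 ∧
        (van (it F k) x).IsPrime ∧ Tot P (it F k) E θ (van (it F k) x) ∧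
        ∀ x' : Fin 5 → Qb, eval x' P = 0 → (∀ i : Fin 4, x' i.succ = x i.succ) →
          ∃ σ : Qb ≃+* Qb, (∀ a ∈ s, σ a = a) ∧ ∀ i, σ (x i) = x' i) :
    ∃ (x : Fin 5 → Qb) (K₀ K₁ : IntermediateField ℚ Qb) (F' : HFam K₀)
      (σ : Fin r → (Qb ≃+* Qb)), eval x P = 0 ∧ (∀ n : ℕ, eval ((pmap F)^[n] x) b ≠ 0) ∧
      (∀ n, (pmap F)^[n] x 1 ≠ 0) ∧ eval x (up g) ≠ 0 ∧ (van (it F k) x).IsPrime ∧
      Tot P (it F k) E θ (van (it F k) x) ∧ Cj K₀ K₁ σ ∧ (∀ n i, (pmap F)^[n] x i ∈ K₁) ∧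
      0 < hs F' σ (af ((pmap F)^[m * 0] x)) ∧
      ∀ j, hs F' σ (af ((pmap F)^[m * 0] x)) ≤ hs F' σ (af ((pmap F)^[m * j] x)) ∧
        κ / 2 * hs F' σ (af ((pmap F)^[m * j] x)) ≤ hs F' σ (af ((pmap F)^[m * (j + 1)] x)) := by
  classical
  obtain ⟨y, hy, hyb⟩ := hcol (g * (B * (X 0 * Cf l))) (mul_ne_zero hg (mul_ne_zero hN.bne
    (mul_ne_zero (X_ne_zero 0) hN.top)))
  obtain ⟨w, hw⟩ : ∃ w : Fin 4 → Qb, w = fun i => α i + ϖ * (y i : Qb) := ⟨_, rfl⟩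
  rw [← hw, map_mul, map_mul, map_mul, eval_X] at hy
  have hw0 := left_ne_zero_of_mul (right_ne_zero_of_mul (right_ne_zero_of_mul hy))
  have hwn := right_ne_zero_of_mul (right_ne_zero_of_mul (right_ne_zero_of_mul hy))
  obtain ⟨cc, hcc, hdir⟩ := dirX hN hw0 hwn
  obtain ⟨b', hb', hbt⟩ := hyb cc hcc
  obtain ⟨v, hv⟩ : ∃ v : Fin 4 → Qb, v = fun i => ϖ * cZ b' i := ⟨_, rfl⟩
  obtain ⟨hv1, hv2, hv3, hv4⟩ := hdir (cZ b') hb' ϖ hϖ
  have hvi : ∀ i, v i = ϖ * cZ b' i := fun i => congrFun hv i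
  -- the number field
  obtain ⟨S, hS⟩ : ∃ S : Finset Qb, S = P.coeffs ∪ ((Finset.univ.biUnion fun i => (F i).coeffs) ∪
    ((T.biUnion fun p => p.coeffs) ∪ ((Cf l).coeffs ∪ (Finset.univ.image w ∪
      Finset.univ.image v)))) := ⟨_, rfl⟩
  have hSP : ∀ c ∈ P.coeffs, c ∈ S := fun c hc => by
    rw [hS]
    exact Finset.mem_union_left _ hc
  obtain ⟨K₀, hK₀⟩ : ∃ K₀, K₀ = IntermediateField.adjoin ℚ (S : Set Qb) := ⟨_, rfl⟩
  have hSK : ∀ c ∈ S, c ∈ K₀ := fun c hc => by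
    rw [hK₀]
    exact IntermediateField.subset_adjoin ℚ _ hc
  have hKfin : FiniteDimensional ℚ K₀ := by
    rw [hK₀]
    exact IntermediateField.finiteDimensional_adjoin fun x _ =>
      (Algebra.IsAlgebraic.isAlgebraic (R := ℚ) x).isIntegral
  have hKP : ∀ c ∈ P.coeffs, c ∈ K₀ := fun c hc => hSK c (hSP c hc)
  have hKF : ∀ i, ∀ c ∈ (F i).coeffs, c ∈ K₀ := fun i c hc => hSK c (by
    rw [hS]
    exact Finset.mem_union_right _ (Finset.mem_union_left _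
      (Finset.mem_biUnion.2 ⟨i, Finset.mem_univ i, hc⟩)))
  have hKT : ∀ p ∈ T, ∀ c ∈ p.coeffs, c ∈ K₀ := fun p hp c hc => hSK c (by
    rw [hS]
    exact Finset.mem_union_right _ (Finset.mem_union_right _ (Finset.mem_union_left _
      (Finset.mem_biUnion.2 ⟨p, hp, hc⟩))))
  have hKC : ∀ c ∈ (Cf l).coeffs, c ∈ K₀ := fun c hc => hSK c (by
    rw [hS]
    exact Finset.mem_union_right _ (Finset.mem_union_right _ (Finset.mem_union_right _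
      (Finset.mem_union_left _ hc))))
  have hKw : ∀ i, w i ∈ K₀ := fun i => hSK _ (by
    rw [hS]
    exact Finset.mem_union_right _ (Finset.mem_union_right _ (Finset.mem_union_right _
      (Finset.mem_union_right _ (Finset.mem_union_left _
        (Finset.mem_image_of_mem _ (Finset.mem_univ i)))))))
  have hKv : ∀ i, v i ∈ K₀ := fun i => hSK _ (by
    rw [hS]
    exact Finset.mem_union_right _ (Finset.mem_union_right _ (Finset.mem_union_right _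
      (Finset.mem_union_right _ (Finset.mem_union_right _
        (Finset.mem_image_of_mem _ (Finset.mem_univ i)))))))
  have hKl : ∀ (t : ℤ) (i : Fin 4), w i + (t : Qb) * v i ∈ K₀ := fun t i =>
    add_mem (hKw i) (mul_mem (intCast_mem K₀ t) (hKv i))
  obtain ⟨F'⟩ := Pool.Agent.H8.ZA.F.PFX K₀ hKfin
  obtain ⟨c₀, hc₀⟩ := hrec K₀ F'
  obtain ⟨cA, hcA⟩ := hSTX P (sF F m s) (it F m 1) r D l Cf B w v hN (by rw [hv]; exact hv3)
    (by rw [hv]; exact hv4) K₀ F' fun t =>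
    Pool.Agent.H8.TD.eval_mem (Cf l) _ hKC (hKl t)
  obtain ⟨cB, hcB⟩ := hHTX P r w v hP (by rw [hv]; exact hv1) (by rw [hv]; exact hv2) K₀ F'
    fun t => hKl t 0
  obtain ⟨cl, hcl⟩ := hn_lc F' s
  obtain ⟨Mb, hMb⟩ := exists_nat_gt (Real.exp (3 * (r * |cB|) + 2 * (|cA| + r * |cl|) +
    2 * |r * c₀| + 1))
  obtain ⟨t, x, htM, hxe, hxP, hxb, hxg, hVp, hVt, hgal⟩ := hbt S Mb
  have hxt : tl x = fun i => w i + (t : Qb) * v i := by
    funext i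
    rw [tl, hxe, hw, hvi, cZ]
    push_cast
    ring
  have hxt' : ∀ i : Fin 4, x i.succ = w i + (t : Qb) * v i := fun i => congrFun hxt i
  obtain ⟨u, σ, K₁, hu, hC, hxK, hσx⟩ := conjX hCJX (r := r) hP S hSP (x := x) (fun i => by
    rw [hxt', ← hK₀]
    exact hKl t i) hgal
  rw [← hK₀] at hC
  have hup : ∀ q : Po 4 Qb, eval x (up q) = eval (tl x) q := fun q => by
    rw [up, eval_rename]
    rfl
  have hx4 : eval x (up g) ≠ 0 ∧ eval (tl x) B ≠ 0 ∧ tl x 0 ≠ 0 := by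
    rw [hup, map_mul, map_mul, map_mul, eval_X] at hxg
    refine ⟨?_, left_ne_zero_of_mul (right_ne_zero_of_mul hxg),
      left_ne_zero_of_mul (right_ne_zero_of_mul (right_ne_zero_of_mul hxg))⟩
    rw [hup]
    exact left_ne_zero_of_mul hxg
  obtain ⟨hxg', hxB, hx0⟩ := hx4
  have hav : ∀ n, eval ((pmap F)^[n] x) b ≠ 0 ∧ (pmap F)^[n] x 1 ≠ 0 ∧
      ∀ p ∈ T, eval (af ((pmap F)^[n] x)) p ≠ 0 := by
    intro n
    have h1 := hxb n
    rw [map_mul, map_mul, eval_X, hb₁, map_prod] at h1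
    have h2 := right_ne_zero_of_mul (left_ne_zero_of_mul h1)
    refine ⟨left_ne_zero_of_mul (left_ne_zero_of_mul h1), h2, fun p hp => ?_⟩
    have h3 := Finset.prod_ne_zero_iff.1 (right_ne_zero_of_mul h1) p hp
    rw [eval_hmg p h2] at h3
    exact right_ne_zero_of_mul h3
  have ht0 : t ≠ 0 := by
    rintro rfl
    rw [abs_zero] at htM
    exact absurd htM (by have := Int.natCast_nonneg Mb; omega)
  obtain ⟨A, hA⟩ : ∃ A : ℝ, A = F'.arch.card * Real.log |(t : ℝ)| := ⟨_, rfl⟩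
  have hfirst := firstX F' hC hKF hu hσx (A := A) (cA := cA) (cB := cB) (cl := cl) (m := m)
    (a := D) (s := s) (fun u hu0 => by
      rw [hxt] at hu0 ⊢
      rw [hA]
      apply hcB t u ht0 _ hu0
      rw [← hxt' 0]
      exact hx0) (fun u hu0 => by
      rw [hxt] at hu0 ⊢
      rw [hA]
      apply hcA t ht0 _ u hu0
      rw [← hxt]
      exact hxB) hcl
  have hr : (1 : ℝ) ≤ r := by exact_mod_cast one_le_r hP
  have hstart := startX (h := fun j => hs F' σ (af ((pmap F)^[m * j] x))) (κ := κ) (β := β)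
    (c₀ := r * c₀) (A := A) (B := r * |cB|) (C := |cA| + r * |cl|) (a := D) (r := r) hr
    (by
      have h1 : (1 : ℝ) ≤ (e : ℝ) ^ m := one_le_pow₀ (by exact_mod_cast he)
      linarith) hβ hβκ hκa
    (fun j => recX hP hF hsl F' hc₀ hC hKF hKT hKP hxK hxP (fun n => (hav n).2.1)
      (fun n => (hav n).2.2) j)
    hfirst.1 hfirst.2 (by
      have h1 := abs_nonneg cA
      have h2 : 0 ≤ r * |cl| := mul_nonneg (by linarith) (abs_nonneg _)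
      linarith)
    (by
      have h1 : 3 * (r * |cB|) + 2 * (|cA| + r * |cl|) + 2 * |r * c₀| + 1 ≤
          Real.log |(t : ℝ)| := by
        have h2 : (Mb : ℝ) < |(t : ℝ)| := by exact_mod_cast htM
        rw [Real.le_log_iff_exp_le ((Nat.cast_nonneg Mb).trans_lt h2)]
        exact (hMb.trans h2).le
      have h3 : (1 : ℝ) ≤ F'.arch.card := by
        exact_mod_cast F'.arch_nonempty.card_pos
      have h4 : 0 ≤ Real.log |(t : ℝ)| := by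
        refine le_trans ?_ h1
        have h5 : (0 : ℝ) ≤ r := Nat.cast_nonneg r
        positivity
      have h5 : 1 * Real.log |(t : ℝ)| ≤ A := by
        rw [hA]
        exact mul_le_mul_of_nonneg_right h3 h4
      linarith)
  refine ⟨x, K₀, K₁, F', σ, hxP, fun n => (hav n).1, fun n => (hav n).2.1, hxg', hVp, hVt, hC,
    fun n i => orbit_mem5 F (fun i c hc => hC.le (hKF i c hc)) x hxK n i, hstart.1, hstart.2⟩

/-- **the core**: self-maps of three-dimensional hypersurfaces with few preimages and large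
growth -/
theorem coreX (hINX : T_INX) (hBZX : T_BZX) (hLDX : T_LDX) (hAMX : T_AMX)
    (hGRC : T_GRC) (hKNX : T_KNX) (hRNG : T_RNG) (hEXN : T_EXN) (hFLD : T_FLD) (hNPA : T_NPA)
    (hNPB : T_NPB) (hDGY : T_DGY) (hUPX : T_UPX) (hCOL : T_COL) (hCJX : T_CJX) (hHTX : T_HTX)
    (hSTX : T_STX) (hRLA : T_RLA) (hRLB : T_RLB) (hHRX : T_HRX)
    {r d e : ℕ} {P b : Po 5 Qb} {F : Tup 5 Qb} (hP : Hyp P r) (hrd : r ≤ d) (hd : 2 ≤ d)
    (hF : ∀ i, (F i).IsHomogeneous d) (hsl : Slf (Ideal.span {P}) F) (hNI : NIv P F) (he : 1 ≤ e)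
    (hU : Upv (Ideal.span {P}) F e) (c : ℝ) (hec : (e : ℝ) < c)
    (hgrow : ∀ N, ∃ n ≥ N, ∀ (H : Tup 5 Qb) (b : ℕ), (∀ i, (H i).IsHomogeneous b) →
      (∃ i, ¬ P ∣ H i) → (∀ i j, P ∣ it F n i * H j - it F n j * H i) → c ^ n ≤ (b : ℝ))
    (hb : ∃ m, b.IsHomogeneous m) (hPb : ¬ P ∣ b) :
    ∃ x : Fin 5 → Qb, eval x P = 0 ∧ (∀ n : ℕ, eval ((pmap F)^[n] x) b ≠ 0) ∧
      ∀ c : Po 5 Qb, (∀ n : ℕ, eval ((pmap F)^[n] x) c = 0) → P ∣ c := by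
  classical
  have hpr := hP.irr.prime
  have hprime : (Ideal.span {P} : Ideal (Po 5 Qb)).IsPrime := isPrime_span hP.irr
  have hX1 : ¬ P ∣ (X 1 : Po 5 Qb) := not_dvd_X1 hP
  have hXI : ∃ i, (X i : Po 5 Qb) ∉ (Ideal.span {P} : Ideal (Po 5 Qb)) :=
    ⟨1, fun h => hX1 (Ideal.mem_span_singleton.mp h)⟩
  obtain ⟨E₁, θ₁, Δ₁, hB₁, hcv₁⟩ := Facts.bas 4 Qb P F hP.irr hP.mon hsl
  have hE₁ : E₁ ≤ d * e := by
    have h1 := hUPX 5 d e 1 E₁ Qb (Ideal.span {P}) F (by omega) hF hsl hXI hU (by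
      rw [it_one]
      exact hcv₁)
    rwa [pow_one, pow_one] at h1
  obtain ⟨K, _, _, ξ, τ, a, hdat⟩ := exists_datx hFLD hNPA hNPB hDGY hP (by omega) hF hsl hB₁ hE₁
  obtain ⟨m, κ, β, T, hm, hT, hβ, hκe, hβκ, hκa, hrec⟩ := hdat.recursion hINX hBZX hLDX hAMX
    hGRC hKNX hRNG hEXN (one_le_r hP) hF he c hec hgrow
  obtain ⟨b₁, hb₁⟩ : ∃ b₁ : Po 5 Qb, b₁ = ∏ p ∈ T, hmg p := ⟨_, rfl⟩
  have hb₁hom : b₁.IsHomogeneous (∑ p ∈ T, p.totalDegree) := by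
    rw [hb₁]
    exact IsHomogeneous.prod _ _ _ fun p _ => hmg_hom p
  have hPb₁ : ¬ P ∣ b₁ := by
    rw [hb₁]
    intro h
    obtain ⟨p, hp, hPp⟩ := (Prime.dvd_finsetProd_iff hpr _).1 h
    apply hT p hp
    rw [← aeval_hmg p ξ hdat.fd.gp.one]
    exact aeval_dvd hdat.fd.gp hP hPp
  obtain ⟨mb, hmb⟩ := hb
  obtain ⟨k, α, ϖ, hk, hϖ, hcol⟩ := hCOL 4 r d P (b * X 1 * b₁) F (by norm_num) hP hrd hF hsl
    ⟨_, (hmb.mul (isHomogeneous_X _ _)).mul hb₁hom⟩ (fun h => (hpr.dvd_or_dvd h).elim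
      (fun h => (hpr.dvd_or_dvd h).elim hPb hX1) hPb₁)
  have hsk := hsl.it k
  obtain ⟨E, θ, Δ, hB, hcv⟩ := Facts.bas 4 Qb P (it F k) hP.irr hP.mon hsk
  have hE : E ≤ d ^ k * e ^ k := hUPX 5 d e k E Qb (Ideal.span {P}) F (by omega) hF hsl hXI hU hcv
  have hNT : NIv P (it F k) := Facts.niv 4 r d k Qb P F hP hF hsl hk hNI
  have hFk : ∀ i, (it F k i).IsHomogeneous (d ^ k) := it_hom hF k
  obtain ⟨g₁, hg₁, hinv⟩ := Facts.inv 4 r (d ^ k) E Qb P (it F k) θ Δ hP hFk hsk hB hNT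
  obtain ⟨c', A', hc'0, hc'⟩ := Pool.Agent.H18.HX.All.nrx 4 Qb P Δ hP.irr hP.mon hB.ne
  obtain ⟨s, l, Cf, B, hN⟩ := hdat.att m
  obtain ⟨x, K₀, K₁, F', σ, hxP, hxb, hx1, hxg, hVp, hVt, hC, hxK, hpos, hgr⟩ :=
    pointX hCJX hHTX hSTX (b := b) (k := k) (E := E) (θ := θ) (e := e) hP hF hsl he hβ hκe hβκ hκa
      hb₁ hrec hN hϖ (mul_ne_zero hg₁ hc'0) (hcol E θ Δ hB hcv)
  have hxg' : eval x (up g₁) ≠ 0 ∧ eval x (up c') ≠ 0 := by
    have h1 : eval x (up (g₁ * c')) = eval x (up g₁) * eval x (up c') := by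
      rw [up, up, up, map_mul, map_mul]
    rw [h1] at hxg
    exact ⟨left_ne_zero_of_mul hxg, right_ne_zero_of_mul hxg⟩
  obtain ⟨hxg₁, hxc'⟩ := hxg'
  have hxΔ : eval x Δ ≠ 0 := by
    intro h0
    apply hxc'
    obtain ⟨B', hB'⟩ := hc'
    have h1 := congrArg (eval x) hB'
    rw [map_sub, map_mul, map_mul (eval x) P, hxP, h0, zero_mul, zero_mul, sub_zero] at h1
    exact h1
  have hzer := zer_span.mpr hxP
  have hPV : P ∈ van (it F k) x := by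
    intro n
    exact zer_iterate hsk.inv hzer n P (Ideal.mem_span_singleton_self P)
  have hΔV : Δ ∉ van (it F k) x := fun h => hxΔ (h 0)
  have hD2 : 2 ≤ d ^ k := hd.trans (Nat.le_self_pow (by omega) d)
  have hHm : Hmi (van (it F k) x) :=
    Facts.cne 4 r (d ^ k) E Qb P (it F k) θ Δ x hP hD2 hFk hsk hB hxP hVp hVt hΔV
  refine ⟨x, hxP, hxb, fun c hc => ?_⟩
  have hcV : c ∈ van (it F k) x := by
    intro n
    rw [pmap_it_iterate]
    exact hc _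
  by_contra hPc
  by_cases hex : ∃ h, Pdv P (van (it F k) x) h
  · obtain ⟨h, hh⟩ := hex
    have h1 := hinv _ h hh hHm hVt
    exact hxg₁ (h1 0)
  obtain ⟨Sa, Sb, hSa, hSb, hSa0, hSb0, hrel⟩ := avx hP hVp hPV ⟨c, hcV, hPc⟩ hex
  have hiff : ∀ q, aeval (it F k) q ∈ van (it F k) x ↔ q ∈ van (it F k) x := by
    intro q
    refine ⟨fun h => ?_, fun h => hVt.inv q h⟩
    have h1 := hVt.ind (fun i => if (i : ℕ) = 0 then q else 0) (by
      have hE1 := hB.pos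
      rw [Finset.sum_eq_single (⟨0, by omega⟩ : Fin E)]
      · rw [if_pos rfl, pow_zero, one_mul]
        exact h
      · intro i _ hi
        rw [if_neg (fun h0 => hi (Fin.ext h0)), map_zero, mul_zero]
      · intro h0
        exact absurd (Finset.mem_univ _) h0) ⟨0, by have := hB.pos; omega⟩
    simpa using h1
  obtain ⟨M, hM⟩ := slowX hRLA hRLB hHRX F' σ hC P θ Δ (it F k) (d ^ k) (e ^ k) E Sa Sb x
    (by omega) hFk hVp hHm hP.mon hPV hiff hB hΔV hE hSa hSb hSa0 hSb0 hrel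
    (fun l s => by
      rw [pmap_it_iterate]
      exact hxK _ _)
    (fun l => by
      rw [pmap_it_iterate]
      exact hx1 _)
  refine contraX (h := fun n => hs F' σ (af ((pmap F)^[n] x))) hk he hκe hgr hpos (M := M)
    fun n => ?_
  obtain ⟨c₂, hc₂⟩ := hM n
  refine ⟨c₂, fun l => ?_⟩
  have h1 := hc₂ l
  rw [pmap_it_iterate, pmap_it_iterate] at h1
  exact h1

end Pool.Agent.H8.TX
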