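import Pool.Agent.H8.TX.All
import Pool.Agent.H18.VZ.FinZZ

/-!
# Zariski dense orbits on threefolds: rational self-maps of projective threefolds whose topological
# degree is less than the first dynamical degree
-/

set_option autoImplicit false

open MvPolynomial
open Pool.Agent.H12.ZD (pmap)
open Pool.Agent.H18.HIT Pool.Agent.H18.HX Pool.Agent.H18.VZ
open Pool.Agent.H18.VP (Ftd)

namespace Pool.Agent.H8.TX

/-- the algebraic numbers have finite transcendence degree -/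
theorem ftd_Qb : Ftd Qb := by
  refine ⟨∅, ?_⟩
  constructor
  intro x
  have h1 : IsAlgebraic ℚ x := Algebra.IsAlgebraic.isAlgebraic x
  exact h1.extendScalars (S := IntermediateField.adjoin ℚ (((∅ : Finset Qb)) : Set Qb))
    (FaithfulSMul.algebraMap_injective ℚ _)

/-- a smaller growth rate -/
theorem growth_shift {c e : ℝ} (he : 1 ≤ e) (hec : e < c) (δ : ℕ) :
    ∃ c' : ℝ, e < c' ∧ ∃ N₁ : ℕ, ∀ n, N₁ ≤ n → ∀ b : ℕ, c ^ n ≤ ((1 + δ) * b : ℕ) →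
      c' ^ n ≤ (b : ℝ) := by
  obtain ⟨c', hc1, hc2⟩ := exists_between hec
  have hc0 : 0 < c' := by linarith
  have h1 : 1 < c / c' := by
    rw [one_lt_div hc0]
    exact hc2
  obtain ⟨N₁, hN₁⟩ := pow_unbounded_of_one_lt ((1 : ℝ) + δ) h1
  refine ⟨c', hc1, N₁, fun n hn b hb => ?_⟩
  have h2 : (1 : ℝ) + δ ≤ (c / c') ^ n := hN₁.le.trans (pow_le_pow_right₀ h1.le hn)
  have h3 : c ^ n = c' ^ n * (c / c') ^ n := by
    rw [← mul_pow, mul_div_cancel₀ _ hc0.ne']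
  have h4 : 0 < c' ^ n := pow_pos hc0 n
  have h5 : c' ^ n * (1 + δ) ≤ c' ^ n * (c / c') ^ n := mul_le_mul_of_nonneg_left h2 h4.le
  rw [← h3] at h5
  push_cast at hb
  have h6 : (1 + (δ : ℝ)) * c' ^ n ≤ (1 + δ) * b := by
    rw [mul_comm]
    exact h5.trans hb
  have h7 : (0 : ℝ) < 1 + δ := by
    have : (0 : ℝ) ≤ δ := Nat.cast_nonneg δ
    linarith
  exact le_of_mul_le_mul_left h6 h7

/-- **rational self-maps of threefolds whose topological degree is less than the first dynamical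
degree** -/
theorem n3var {L : ℕ} {I : Ideal (Po L Qb)} (hI : I.IsPrime)
    (hhom : ∀ c ∈ I, ∀ t, homogeneousComponent t c ∈ I) (hne : ∃ i, X i ∉ I)
    (hdim : ∀ u : Fin 5 → Po L Qb, ∃ q : Po 5 Qb, q ≠ 0 ∧ aeval u q ∈ I)
    (f : Tup L Qb) (d : ℕ) (hd : 1 ≤ d) (hf : ∀ i, (f i).IsHomogeneous d)
    (hinv : ∀ c ∈ I, aeval f c ∈ I)
    (hdom : ∀ (s : ℕ) (q : Po L Qb), q.IsHomogeneous s → aeval f q ∈ I → q ∈ I)
    (hNf : Nfi I f) (e : ℕ) (he : 1 ≤ e) (hU : Upv I f e) (c : ℝ) (hec : (e : ℝ) < c)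
    (hgrow : ∀ N, ∃ n ≥ N, ∀ (G : Tup L Qb) (a : ℕ), (∀ i, (G i).IsHomogeneous a) →
      (∃ i, G i ∉ I) → (∀ i j, it f n i * G j - it f n j * G i ∈ I) → c ^ n ≤ (a : ℝ))
    (b : Po L Qb) (t : ℕ) (hb : b.IsHomogeneous t) (hbI : b ∉ I) :
    ∃ x : Fin L → Qb, Zer I x ∧ (∀ j : ℕ, (pmap f)^[j] x ≠ 0) ∧
      (∀ j : ℕ, eval ((pmap f)^[j] x) b ≠ 0) ∧
      ∀ (s : ℕ) (h : Po L Qb), h.IsHomogeneous s → (∀ j : ℕ, eval ((pmap f)^[j] x) h = 0) →
        h ∈ I := by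
  haveI := hI
  have hsf := slf_of_forms hhom hd hf hinv hdom
  obtain ⟨i0, hi0⟩ := hne
  obtain ⟨N, l, hN, hl1, hind, hint, hden⟩ := Pool.Agent.H18.HX.All.nfa L Qb I hhom ⟨i0, hi0⟩
  have hl0 : ∃ Q : Polynomial (Po N Qb), Q.Monic ∧
      evg (fun j : Fin N => l j.succ) (l 0) Q ∈ I := int_all hint _
  obtain ⟨P, r, hP, hker⟩ := Pool.Agent.H18.HX.All.nfb L N Qb I l hhom hl1 hind hl0
  obtain ⟨Δ, δ, hpro⟩ := Pool.Agent.H18.HX.All.nfc L N r Qb I l P hN hhom hl1 hind hint hden hP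
    hker
  have hNn := dim_le (n := 3) hind hdim
  obtain ⟨B, hBdef⟩ : ∃ B : Po L Qb, B = b * X i0 := ⟨_, rfl⟩
  have hBh : B.IsHomogeneous (t + 1) := by
    rw [hBdef]
    exact hb.mul (isHomogeneous_X Qb i0)
  have hBI : B ∉ I := by
    rw [hBdef]
    exact fun h => (hI.mem_or_mem h).elim hbI hi0
  have hfin : ∀ a : Fin L → Qb, Zer I a → (∀ j, eval ((pmap f)^[j] a) B ≠ 0) →
      (∀ (s : ℕ) (h : Po L Qb), h.IsHomogeneous s → (∀ j : ℕ, eval ((pmap f)^[j] a) h = 0) →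
        h ∈ I) → ∃ x : Fin L → Qb, Zer I x ∧ (∀ j : ℕ, (pmap f)^[j] x ≠ 0) ∧
      (∀ j : ℕ, eval ((pmap f)^[j] x) b ≠ 0) ∧
      ∀ (s : ℕ) (h : Po L Qb), h.IsHomogeneous s → (∀ j : ℕ, eval ((pmap f)^[j] x) h = 0) →
        h ∈ I := by
    intro a ha hab had
    refine ⟨a, ha, fun j h0 => ?_, fun j => ?_, had⟩
    · apply hab j
      rw [h0, hBdef, map_mul, eval_X, Pi.zero_apply, mul_zero]
    · have h1 := hab j
      rw [hBdef, map_mul] at h1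
      exact left_ne_zero_of_mul h1
  rcases Nat.lt_or_ge 3 N with hN4 | hN3
  · obtain rfl : N = 4 := by omega
    obtain ⟨F, hF, hFl, hFP⟩ := Pool.Agent.H18.HX.All.lft L 4 r δ d Qb I l P Δ f hpro hhom hf
      hsf.inv
    have hr : 1 ≤ r := one_le_r hpro.hyp
    have hδ : 1 ≤ δ := hr.trans hpro.le
    have hsF : Slf (Ideal.span {P}) F := lift_slf hpro hsf hF (by omega) hFl hFP
    have hNF : NIv P F := lift_niv hpro hNf hFl
    obtain ⟨b', hb', hPb', htr⟩ := Pool.Agent.H18.HX.All.trv L 4 r δ d (t + 1) Qb I l P Δ f F B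
      hpro hhom hf hsf.inv hF hFl hBh hBI
    have hUF : Upv (Ideal.span {P}) F e := Al.tup L 4 r δ d e Qb I l P Δ f F hpro hhom hd hf hsf
      hF hFl hsF hU
    obtain ⟨c', hc', N₁, hN₁⟩ := growth_shift (c := c) (e := e) (by exact_mod_cast he) hec δ
    obtain ⟨y, hy, hyb, hyd⟩ := coreX Al.inx Al.bzx Al.ldx Al.amx Al.grc Al.knx Al.rng Al.exn
      Al.fld Al.npa Al.npb Al.dgy Al.upx Al.col Al.cjx Al.htx Al.stx Al.rla Al.rlb Al.hrx
      hpro.hyp (hpro.le.trans (Nat.le_add_left δ d)) (by omega) hF hsF hNF he hUF c' hc'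
      (fun M => by
        obtain ⟨n, hn, h1⟩ := hgrow (max M N₁)
        refine ⟨n, (le_max_left _ _).trans hn, fun H b₀ hH hPH hcr => ?_⟩
        apply hN₁ n ((le_max_right _ _).trans hn)
        obtain ⟨G, hG, hGI, hGc⟩ := Al.tgr L 4 r δ d Qb I l P Δ f F hpro hhom hf hsf hF hFl hsF n
          b₀ H hH hPH hcr
        exact h1 G _ hG hGI hGc) hb' hPb'
    obtain ⟨a, ha, hab, had⟩ := htr y hy hyb hyd
    exact hfin a ha hab had
  · obtain ⟨a, ha, hab, had⟩ := varz1 (Facts.zh Qb ftd_Qb Facts.inv) Pool.Agent.H18.HX.All.pvi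
      Pool.Agent.H18.HX.All.lft pf_TWI Pool.Agent.H18.HX.All.trv hhom hpro hf hd hsf hNf
      (E := 0) (Or.inl hN3) (t + 1) B hBh hBI
    exact hfin a ha hab had

end Pool.Agent.H8.TX
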