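import Pool.Agent.H8.TX.Chi2
import Pool.Agent.H8.TX.Fin

/-!
# Zariski dense orbits on threefolds: rational self-maps of projective threefolds whose topological
# degree is less than the second dynamical degree
-/

set_option autoImplicit false

open MvPolynomial
open Pool.Agent.H12.ZD (pmap)
open Pool.Agent.H18.HIT Pool.Agent.H18.HX Pool.Agent.H18.VZ
open Pool.Agent.H18.VP (Ftd)
open Pool.Agent.H8.TD (lc dg)

namespace Pool.Agent.H8.TX

/-- the theorem for hypersurfaces in four-dimensional projective space: growth of the second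
degrees -/
def T_CBX : Prop := ∀ (r d e : ℕ) (P b : Po 5 Qb) (F : Tup 5 Qb) (c : ℝ), Hyp P r → r ≤ d →
  2 ≤ d → (∀ i, (F i).IsHomogeneous d) → Slf (Ideal.span {P}) F → NIv P F → 1 ≤ e →
  Upv (Ideal.span {P}) F e → (e : ℝ) < c →
  (∀ (K : Type) [Field K] [Algebra Qb K] (ξ : Fin 5 → K) (τ : K →ₐ[Qb] K), Fd P F ξ τ →
    ∀ N, ∃ n ≥ N, ∃ s s' s'' : Fin 5 → Qb,
      c ^ n ≤ (dg Qb {lc s ξ, lc s' (pn τ ξ n), lc s'' (pn τ ξ n)} : ℝ)) →
  (∃ m, b.IsHomogeneous m) → ¬ P ∣ b →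
  ∃ x : Fin 5 → Qb, eval x P = 0 ∧ (∀ n : ℕ, eval ((pmap F)^[n] x) b ≠ 0) ∧
    ∀ c : Po 5 Qb, (∀ n : ℕ, eval ((pmap F)^[n] x) c = 0) → P ∣ c

/-- a smaller growth rate -/
theorem growth_shift3 {c e : ℝ} (he : 1 ≤ e) (hec : e < c) (B : ℕ) :
    ∃ c' : ℝ, e < c' ∧ ∃ N₁ : ℕ, ∀ n, N₁ ≤ n → B * c' ^ n < c ^ n := by
  obtain ⟨c', hc1, hc2⟩ := exists_between hec
  have hc0 : 0 < c' := by linarith
  have h1 : 1 < c / c' := by
    rw [one_lt_div hc0]
    exact hc2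
  obtain ⟨N₁, hN₁⟩ := pow_unbounded_of_one_lt (B : ℝ) h1
  refine ⟨c', hc1, N₁, fun n hn => ?_⟩
  have h2 : (B : ℝ) < (c / c') ^ n := lt_of_lt_of_le hN₁ (pow_le_pow_right₀ h1.le hn)
  have h3 : c ^ n = (c / c') ^ n * c' ^ n := by
    rw [← mul_pow, div_mul_cancel₀ _ hc0.ne']
  rw [h3]
  exact mul_lt_mul_of_pos_right h2 (pow_pos hc0 n)

/-- many points in the general fibre give a large degree -/
theorem dg_of_points (hDGC : T_DGC) {K : Type} [Field K] [Algebra Qb K] {L : ℕ}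
    {I : Ideal (Po L Qb)} {l : Fin 5 → Po L Qb} {P : Po 5 Qb} {r : ℕ}
    {Δ : Po 4 Qb} {δ : ℕ} {ξ : Fin 5 → K} {χ : Fin L → K} {Nn : Fin L → Po 5 Qb}
    {f : Tup L Qb} {d : ℕ} (hpro : Pro I l P r Δ δ) (hG : Gp P ξ) (hC : Chi I l Δ δ ξ χ Nn)
    (hf : ∀ i, (f i).IsHomogeneous d) (n D : ℕ) (hD : 1 ≤ D) {s₀ s s₀' s' s'' : Po L Qb}
    (hs₀ : s₀.IsHomogeneous 1) (hs1 : s.IsHomogeneous 1) (hs₀' : s₀'.IsHomogeneous 1)
    (hs' : s'.IsHomogeneous 1) (hs'' : s''.IsHomogeneous 1) {c : Po 3 Qb} (hc : c ≠ 0)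
    (hpts : ∀ t : Fin 3 → Qb, eval t c ≠ 0 → ∃ S : Finset (Fin L → Qb), D ≤ S.card ∧
      ∀ x ∈ S, Zer I x ∧ eval x s₀ = 1 ∧ eval x s = t 0 ∧ eval ((pmap f)^[n] x) s₀' ≠ 0 ∧
        eval ((pmap f)^[n] x) s' = t 1 * eval ((pmap f)^[n] x) s₀' ∧
        eval ((pmap f)^[n] x) s'' = t 2 * eval ((pmap f)^[n] x) s₀') :
    aeval χ s₀ ≠ 0 ∧ aeval χ (aeval (it f n) s₀') ≠ 0 ∧
    D ≤ dg Qb {aeval χ s / aeval χ s₀,
      aeval χ (aeval (it f n) s') / aeval χ (aeval (it f n) s₀'),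
      aeval χ (aeval (it f n) s'') / aeval χ (aeval (it f n) s₀')} := by
  have hev : ∀ (x : Fin L → Qb) (q : Po L Qb), eval x (aeval (it f n) q) =
      eval ((pmap f)^[n] x) q := by
    intro x q
    rw [Pool.Agent.H18.HIT.eval_aeval, pmap_it]
  -- a point
  obtain ⟨t, ht⟩ : ∃ t : Fin 3 → Qb, eval t c ≠ 0 := by
    by_contra hcon
    push Not at hcon
    exact hc (MvPolynomial.funext fun t => by rw [hcon t, map_zero])
  obtain ⟨S, hSD, hS⟩ := hpts t ht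
  obtain ⟨x, hx⟩ : S.Nonempty := Finset.card_pos.1 (by omega)
  obtain ⟨hx1, hx2, hx3, hx4, -⟩ := hS x hx
  have h1 : aeval χ s₀ ≠ 0 := by
    intro h0
    have h2 := hx1 _ ((hC.iff 1 s₀ hs₀).1 h0)
    rw [hx2] at h2
    exact one_ne_zero h2
  have h2 : aeval χ (aeval (it f n) s₀') ≠ 0 := by
    intro h0
    have h3 := hx1 _ ((hC.iff _ _ (aeval_hom (it_hom hf n) hs₀')).1 h0)
    rw [hev] at h3
    exact hx4 h3
  refine ⟨h1, h2, ?_⟩
  have htop : IntermediateField.adjoin Qb (Set.range fun i => χ i / aeval χ s₀) = ⊤ := by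
    rw [eq_top_iff, ← hG.top, IntermediateField.adjoin_le_iff]
    rintro _ ⟨i, rfl⟩
    obtain ⟨M, hM⟩ : ∃ M : IntermediateField Qb K,
      M = IntermediateField.adjoin Qb (Set.range fun i => χ i / aeval χ s₀) := ⟨_, rfl⟩
    rw [← hM]
    have hmem : ∀ i, χ i / aeval χ s₀ ∈ M := fun i => by
      rw [hM]
      exact IntermediateField.subset_adjoin Qb _ ⟨i, rfl⟩
    have h3 : ∀ i, (aeval χ s₀)⁻¹ * ξ i ∈ M := by
      intro i
      have h4 : (aeval χ s₀)⁻¹ * ξ i =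
          aeval (fun i => (aeval χ s₀)⁻¹ * χ i) (l i) := by
        rw [aeval_smul_hom (hpro.lin i), hC.lin, pow_one]
      rw [h4, aeval_def, eval₂_eq']
      apply sum_mem
      intro m _
      apply mul_mem (M.algebraMap_mem _)
      apply prod_mem
      intro j _
      apply pow_mem
      rw [mul_comm, ← div_eq_mul_inv]
      exact hmem j
    have h4 := h3 1
    rw [hG.one, mul_one] at h4
    have h5 : ξ i = ((aeval χ s₀)⁻¹)⁻¹ * ((aeval χ s₀)⁻¹ * ξ i) := by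
      rw [inv_mul_cancel_left₀ (inv_ne_zero h1)]
    rw [h5]
    exact mul_mem (inv_mem h4) (h3 i)
  have h3 := hDGC L D Qb K I χ s₀ ![s, aeval (it f n) s', aeval (it f n) s'']
    ![s₀, aeval (it f n) s₀', aeval (it f n) s₀'] ![1, d ^ n * 1, d ^ n * 1] c hG.trd hs₀
    (fun i => by
      fin_cases i
      · exact hs1
      · exact aeval_hom (it_hom hf n) hs'
      · exact aeval_hom (it_hom hf n) hs'') (fun i => by
      fin_cases i
      · exact hs₀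
      · exact aeval_hom (it_hom hf n) hs₀'
      · exact aeval_hom (it_hom hf n) hs₀') h1 (fun i => by
      fin_cases i
      · exact h1
      · exact h2
      · exact h2) htop (fun s q hq h0 => (hC.iff s q hq).1 h0) hc (fun t ht => by
      obtain ⟨S, hSD, hS⟩ := hpts t ht
      refine ⟨S, hSD, fun x hx => ?_⟩
      obtain ⟨hx1, hx2, hx3, hx4, hx5, hx6⟩ := hS x hx
      refine ⟨hx1, hx2, fun i => ?_⟩
      fin_cases i
      · constructor
        · change eval x s₀ ≠ 0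
          rw [hx2]
          exact one_ne_zero
        · change eval x s = t 0 * eval x s₀
          rw [hx2, hx3, mul_one]
      · constructor
        · change eval x (aeval (it f n) s₀') ≠ 0
          rw [hev]
          exact hx4
        · change eval x (aeval (it f n) s') = t 1 * eval x (aeval (it f n) s₀')
          rw [hev, hev]
          exact hx5
      · constructor
        · change eval x (aeval (it f n) s₀') ≠ 0
          rw [hev]
          exact hx4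
        · change eval x (aeval (it f n) s'') = t 2 * eval x (aeval (it f n) s₀')
          rw [hev, hev]
          exact hx6)
  exact h3

/-- **rational self-maps of threefolds whose topological degree is less than the second dynamical
degree** -/
theorem n3varB_of (hCBX : T_CBX) (hDGC : T_DGC) {L : ℕ} {I : Ideal (Po L Qb)} (hI : I.IsPrime)
    (hhom : ∀ c ∈ I, ∀ t, homogeneousComponent t c ∈ I) (hne : ∃ i, X i ∉ I)
    (hdim : ∀ u : Fin 5 → Po L Qb, ∃ q : Po 5 Qb, q ≠ 0 ∧ aeval u q ∈ I)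
    (f : Tup L Qb) (d : ℕ) (hd : 1 ≤ d) (hf : ∀ i, (f i).IsHomogeneous d)
    (hinv : ∀ c ∈ I, aeval f c ∈ I)
    (hdom : ∀ (s : ℕ) (q : Po L Qb), q.IsHomogeneous s → aeval f q ∈ I → q ∈ I)
    (hNf : Nfi I f) (e : ℕ) (he : 1 ≤ e) (hU : Upv I f e) (μ : ℝ) (hμ : (e : ℝ) < μ)
    (hgrow : ∀ N, ∃ n ≥ N, ∃ (s₀ s s₀' s' s'' : Po L Qb) (c : Po 3 Qb), s₀.IsHomogeneous 1 ∧
      s.IsHomogeneous 1 ∧ s₀'.IsHomogeneous 1 ∧ s'.IsHomogeneous 1 ∧ s''.IsHomogeneous 1 ∧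
      c ≠ 0 ∧ ∀ t : Fin 3 → Qb, eval t c ≠ 0 → ∃ S : Finset (Fin L → Qb),
        μ ^ n ≤ (S.card : ℝ) ∧ ∀ x ∈ S, Zer I x ∧ eval x s₀ = 1 ∧ eval x s = t 0 ∧
          eval ((pmap f)^[n] x) s₀' ≠ 0 ∧
          eval ((pmap f)^[n] x) s' = t 1 * eval ((pmap f)^[n] x) s₀' ∧
          eval ((pmap f)^[n] x) s'' = t 2 * eval ((pmap f)^[n] x) s₀')
    (b : Po L Qb) (t : ℕ) (hb : b.IsHomogeneous t) (hbI : b ∉ I) :
    ∃ x : Fin L → Qb, Zer I x ∧ (∀ j : ℕ, (pmap f)^[j] x ≠ 0) ∧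
      (∀ j : ℕ, eval ((pmap f)^[j] x) b ≠ 0) ∧
      ∀ (s : ℕ) (h : Po L Qb), h.IsHomogeneous s → (∀ j : ℕ, eval ((pmap f)^[j] x) h = 0) →
        h ∈ I := by
  have hI' := hI
  have hsf := slf_of_forms hhom hd hf hinv hdom
  obtain ⟨i0, hi0⟩ := hne
  obtain ⟨N, l, hN, hl1, hind, hint, hden⟩ := Pool.Agent.H18.HX.All.nfa L Qb I hhom ⟨i0, hi0⟩
  have hl0 : ∃ Q : Polynomial (Po N Qb), Q.Monic ∧
      evg (fun j : Fin N => l j.succ) (l 0) Q ∈ I := int_all hint _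
  obtain ⟨P, r, hP, hker⟩ := Pool.Agent.H18.HX.All.nfb L N Qb I l hhom hl1 hind hl0
  obtain ⟨Δ, δ, hpro⟩ := Pool.Agent.H18.HX.All.nfc L N r Qb I l P hN hhom hl1 hind hint hden hP
    hker
  have hNn := dim_le (n := 3) hind hdim
  obtain ⟨B, hBdef⟩ : ∃ B : Po L Qb, B = b * X i0 := ⟨_, rfl⟩
  have hBh : B.IsHomogeneous (t + 1) := by
    rw [hBdef]
    exact hb.mul (isHomogeneous_X Qb i0)
  have hBI : B ∉ I := by
    rw [hBdef]
    exact fun h => (hI.mem_or_mem h).elim hbI hi0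
  have hfin : ∀ a : Fin L → Qb, Zer I a → (∀ j, eval ((pmap f)^[j] a) B ≠ 0) →
      (∀ (s : ℕ) (h : Po L Qb), h.IsHomogeneous s → (∀ j : ℕ, eval ((pmap f)^[j] a) h = 0) →
        h ∈ I) → ∃ x : Fin L → Qb, Zer I x ∧ (∀ j : ℕ, (pmap f)^[j] x ≠ 0) ∧
      (∀ j : ℕ, eval ((pmap f)^[j] x) b ≠ 0) ∧
      ∀ (s : ℕ) (h : Po L Qb), h.IsHomogeneous s → (∀ j : ℕ, eval ((pmap f)^[j] x) h = 0) →
        h ∈ I := by
    intro a ha hab had
    refine ⟨a, ha, fun j h0 => ?_, fun j => ?_, had⟩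
    · apply hab j
      rw [h0, hBdef, map_mul, eval_X, Pi.zero_apply, mul_zero]
    · have h1 := hab j
      rw [hBdef, map_mul] at h1
      exact left_ne_zero_of_mul h1
  rcases Nat.lt_or_ge 3 N with hN4 | hN3
  · obtain rfl : N = 4 := by omega
    obtain ⟨F, hF, hFl, hFP⟩ := Pool.Agent.H18.HX.All.lft L 4 r δ d Qb I l P Δ f hpro hhom hf
      hsf.inv
    have hr : 1 ≤ r := one_le_r hpro.hyp
    have hδ : 1 ≤ δ := hr.trans hpro.le
    have hsF : Slf (Ideal.span {P}) F := lift_slf hpro hsf hF (by omega) hFl hFP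
    have hNF : NIv P F := lift_niv hpro hNf hFl
    obtain ⟨b', hb', hPb', htr⟩ := Pool.Agent.H18.HX.All.trv L 4 r δ d (t + 1) Qb I l P Δ f F B
      hpro hhom hf hsf.inv hF hFl hBh hBI
    have hUF : Upv (Ideal.span {P}) F e := Al.tup L 4 r δ d e Qb I l P Δ f F hpro hhom hd hf hsf
      hF hFl hsF hU
    have he' : (1 : ℝ) ≤ e := by exact_mod_cast he
    obtain ⟨c', hc', N₁, hN₁⟩ := growth_shift3 (c := μ) (e := e) he' hμ
      ((1 + δ) * ((1 + δ) * (1 + δ)))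
    have hupl : aeval l (up Δ) = aeval (fun j : Fin 4 => l j.succ) Δ := by
      rw [up, aeval_rename]
      rfl
    obtain ⟨y, hy, hyb, hyd⟩ := hCBX r (d + δ) e P b' F c' hpro.hyp
      (hpro.le.trans (Nat.le_add_left δ d)) (by omega) hF hsF hNF he hUF hc'
      (fun K _ _ ξ τ hfd M => by
        obtain ⟨χ, Nn, hC⟩ := exists_chi hpro hfd.gp
        obtain ⟨n, hn, s₀, s, s₀', s', s'', c, hs₀, hs1, hs₀', hs', hs'', hc, hpts⟩ :=
          hgrow (max M N₁)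
        refine ⟨n, (le_max_left _ _).trans hn, ?_⟩
        by_contra hcon
        push Not at hcon
        have hμ0 : 0 < μ := by linarith
        have hD1 : 1 ≤ ⌈μ ^ n⌉₊ := Nat.one_le_ceil_iff.2 (pow_pos hμ0 n)
        obtain ⟨h0, h0', hdg⟩ := dg_of_points hDGC hpro hfd.gp hC hf n ⌈μ ^ n⌉₊ hD1 hs₀ hs1
          hs₀' hs' hs'' hc (fun t ht => by
            obtain ⟨S, hSD, hS⟩ := hpts t ht
            exact ⟨S, Nat.ceil_le.2 hSD, hS⟩)
        have hF1 : aeval ξ (F 1) ≠ 0 := by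
          have h1 := (pn_eq hfd hpro.hyp hF hsF 1).1
          rwa [it_one] at h1
        have hc'0 : 0 < c' := by linarith
        have hle := second_transfer Al.inx hpro hC hfd hF1 hf hsf hF (by
          intro i
          rw [hupl]
          exact hFl i) n ⌊c' ^ n⌋₊ (fun u u' u'' =>
            Nat.le_floor (hcon u u' u'').le) hs₀ hs1 hs₀' hs' hs'' h0 h0'
        have h1 : μ ^ n ≤ (((1 + δ) * ((1 + δ) * (1 + δ)) : ℕ) : ℝ) * c' ^ n := by
          calc μ ^ n ≤ (⌈μ ^ n⌉₊ : ℝ) := Nat.le_ceil _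
            _ ≤ (((1 + δ) * ((1 + δ) * ((1 + δ) * ⌊c' ^ n⌋₊)) : ℕ) : ℝ) := by
              exact_mod_cast hdg.trans hle
            _ = (((1 + δ) * ((1 + δ) * (1 + δ)) : ℕ) : ℝ) * (⌊c' ^ n⌋₊ : ℝ) := by
              push_cast
              ring
            _ ≤ _ := mul_le_mul_of_nonneg_left (Nat.floor_le (pow_pos hc'0 n).le)
              (Nat.cast_nonneg _)
        exact absurd h1 (not_le.2 (hN₁ n ((le_max_right _ _).trans hn)))) hb' hPb'
    obtain ⟨a, ha, hab, had⟩ := htr y hy hyb hyd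
    exact hfin a ha hab had
  · obtain ⟨a, ha, hab, had⟩ := varz1 (Facts.zh Qb ftd_Qb Facts.inv) Pool.Agent.H18.HX.All.pvi
      Pool.Agent.H18.HX.All.lft pf_TWI Pool.Agent.H18.HX.All.trv hhom hpro hf hd hsf hNf
      (E := 0) (Or.inl hN3) (t + 1) B hBh hBI
    exact hfin a ha hab had

end Pool.Agent.H8.TX
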