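import Pool.Agent.H8.TX.Rec3

/-!
# Zariski dense orbits on threefolds: the recursion for the heights
-/

set_option autoImplicit false

open MvPolynomial
open Pool.Agent.H12.ZD (pmap)
open Pool.Agent.H18.HIT Pool.Agent.H18.HX Pool.Agent.H18.VZ
open Pool.Agent.H8.ZA (HFam Const NA)
open Pool.Agent.H8.TD (lc dg Wsp Cop dh lc_single lc_map lc_iterate)

namespace Pool.Agent.H8.TX

section alg

variable {k K : Type} [Field k] [Field K] [Algebra k K]

theorem alg_mono {E E' : IntermediateField k K} (h : E ≤ E') (hE : Algebra.IsAlgebraic E K) :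
    Algebra.IsAlgebraic E' K := by
  let : Algebra E E' := (IntermediateField.inclusion h).toRingHom.toAlgebra
  have : IsScalarTower E E' K := IsScalarTower.of_algebraMap_eq fun _ => rfl
  exact ⟨fun x => (hE.isAlgebraic x).extendScalars (S := E')
    (IntermediateField.inclusion h).toRingHom.injective⟩

/-- the field is algebraic over the image of an endomorphism -/
theorem alg_range (htr : Algebra.trdeg k K = 3) (f : K →ₐ[k] K) :
    Algebra.IsAlgebraic f.fieldRange K := by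
  obtain ⟨s, hs⟩ := exists_isTranscendenceBasis' k K
  have hcard : Cardinal.mk s = 3 := by
    rw [← htr]
    exact hs.choose_spec.cardinalMk_eq_trdeg
  obtain ⟨x, hx⟩ := hs
  have hfin : Finite s := by
    rw [← Cardinal.lt_aleph0_iff_finite, hcard]
    exact Cardinal.natCast_lt_aleph0
  have h1 : AlgebraicIndependent k (f ∘ x) := hx.1.map' f.toRingHom.injective
  have h2 : IsTranscendenceBasis k (f ∘ x) := by
    apply h1.isTranscendenceBasis_of_trdeg_le_of_finite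
    rw [htr, hcard]
  have h3 := h2.isAlgebraic_field
  refine alg_mono ?_ h3
  rw [IntermediateField.adjoin_le_iff]
  rintro _ ⟨i, rfl⟩
  exact ⟨x i, rfl⟩

variable {P : Po 5 k} {ξ : Fin 5 → K} {τ : K →ₐ[k] K}

theorem alg_pn (hG : Gp P ξ) (n : ℕ) :
    Algebra.IsAlgebraic (IntermediateField.adjoin k (Set.range (pn τ ξ n))) K := by
  obtain ⟨f, hf⟩ := iter_algHomX τ n
  rw [adjoin_pn hG n f hf]
  exact alg_range hG.trd f

end alg

theorem const_or {K : Type} [Field K] [Algebra Qb K] (x : K) :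
    (∃ c : Qb, x = algebraMap Qb K c) ∨ Transcendental Qb x := by
  by_cases h : IsAlgebraic Qb x
  · left
    have h1 : IsIntegral Qb x := h.isIntegral
    have h2 := IsAlgClosed.degree_eq_one_of_irreducible Qb (minpoly.irreducible h1)
    obtain ⟨c, hc⟩ := minpoly.mem_range_of_degree_eq_one Qb x h2
    exact ⟨c, hc.symm⟩
  · exact Or.inr h

section

variable {K : Type} [Field K] [Algebra Qb K] {P : Po 5 Qb} {F : Tup 5 Qb} {ξ : Fin 5 → K}
  {τ : K →ₐ[Qb] K} {r : ℕ} {a : ℕ → ℕ} {e : ℕ}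

/-- proportional points have the same affine coordinates -/
theorem af_smul {c : Qb} (hc : c ≠ 0) (y : Fin 5 → Qb) : af (fun i => c * y i) = af y := by
  funext i
  exact mul_div_mul_left _ _ hc

theorem eval_smul_hom {q : Po 5 Qb} {s : ℕ} (hq : q.IsHomogeneous s) (c : Qb) (y : Fin 5 → Qb) :
    eval (fun i => c * y i) q = c ^ s * eval y q := Pool.Agent.H8.TD.eval_smul hq c y

theorem eval_af {q : Po 5 Qb} {s : ℕ} (hq : q.IsHomogeneous s) {y : Fin 5 → Qb} (hy : y 1 ≠ 0) :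
    eval y q = y 1 ^ s * eval (af y) q := by
  rw [← eval_smul_hom hq]
  congr 1
  congr 1
  funext i
  rw [af]
  field_simp

/-- the recursion for the heights -/
theorem DatX.recursion (hINX : T_INX) (hBZX : T_BZX) (hLDX : T_LDX) (hAMX : T_AMX)
    (hGRC : T_GRC) (hKNX : T_KNX) (hRNG : T_RNG) (hEXN : T_EXN) (h : DatX P r F ξ τ a e)
    (hr : 1 ≤ r) {d : ℕ} (hF : ∀ i, (F i).IsHomogeneous d) (he : 1 ≤ e)
    (c : ℝ) (hec : (e : ℝ) < c)
    (hgrow : ∀ N, ∃ n ≥ N, ∀ (H : Tup 5 Qb) (b : ℕ), (∀ i, (H i).IsHomogeneous b) →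
      (∃ i, ¬ P ∣ H i) → (∀ i j, P ∣ it F n i * H j - it F n j * H i) → c ^ n ≤ (b : ℝ)) :
    ∃ (m : ℕ) (κ β : ℝ) (T : Finset (Po 5 Qb)), 1 ≤ m ∧ (∀ p ∈ T, aeval ξ p ≠ 0) ∧ 0 ≤ β ∧
      2 * (e : ℝ) ^ m < κ ∧ 8 * β ≤ κ ^ 2 ∧ 45 * r * κ ≤ a m ∧
      ∀ (K' : IntermediateField ℚ Qb) (F' : HFam K'), ∃ c₀ : ℝ,
        ∀ (μ : ℕ) (z : Fin μ → Fin 5 → Qb), (∀ j, eval (z j) P = 0) → (∀ j, z j 1 = 1) →
          (∀ j, ∀ p ∈ T, eval (z j) p ≠ 0) → (∀ p ∈ T, ∏ j, eval (z j) p ∈ K') →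
          κ * ∑ j, hn F' (af (pmap (it F m) (z j))) ≤
            ∑ j, hn F' (af (pmap (it F (m + m)) (z j))) + β * ∑ j, hn F' (z j) + μ * c₀ := by
  classical
  obtain ⟨m, M, Y, hm, hM, ⟨s, s', s'', hY⟩, hYM, hgood⟩ :=
    h.numbers hINX hBZX hLDX hAMX hGRC hF (16200 * r ^ 3) he c hec hgrow
  obtain ⟨q, hqdef⟩ : ∃ q : Po 5 Qb, q = it F m 1 * it F (m + m) 1 := ⟨_, rfl⟩
  have hq : aeval ξ q ≠ 0 := by
    rw [hqdef, map_mul]
    exact mul_ne_zero (h.ne _) (h.ne _)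
  obtain ⟨R, hmem, hinv, hevR, hnumR⟩ := hRNG Qb K P q ξ h.fd.gp hq
  have hpn : ∀ n, n = m ∨ n = m + m → ∀ i, pn τ ξ n i ∈ R := by
    intro n hn i
    rw [h.eq n i]
    have h1 : (aeval ξ (it F n 1))⁻¹ ∈ R := by
      rcases hn with rfl | rfl
      · have h2 : (aeval ξ (it F n 1))⁻¹ = (aeval ξ q)⁻¹ * aeval ξ (it F (n + n) 1) := by
          rw [hqdef, map_mul, mul_inv, mul_assoc, inv_mul_cancel₀ (h.ne _), mul_one]
        rw [h2]
        exact mul_mem hinv (hmem _)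
      · have h2 : (aeval ξ (it F (m + m) 1))⁻¹ = (aeval ξ q)⁻¹ * aeval ξ (it F m 1) := by
          rw [hqdef, map_mul, mul_inv, mul_comm (aeval ξ (it F m 1))⁻¹, mul_assoc,
            inv_mul_cancel₀ (h.ne _), mul_one]
        rw [h2]
        exact mul_mem hinv (hmem _)
    rw [div_eq_mul_inv]
    exact mul_mem (hmem _) h1
  have hξR : ∀ i, ξ i ∈ R := by
    intro i
    have h1 := hmem (X i)
    rwa [aeval_X] at h1
  obtain ⟨φ₁, hφ₁⟩ : ∃ φ₁ : Fin 5 → R, φ₁ = fun i => ⟨pn τ ξ m i, hpn m (Or.inl rfl) i⟩ :=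
    ⟨_, rfl⟩
  obtain ⟨φ₂, hφ₂⟩ : ∃ φ₂ : Fin 5 → R,
    φ₂ = fun i => ⟨pn τ ξ (m + m) i, hpn (m + m) (Or.inr rfl) i⟩ := ⟨_, rfl⟩
  obtain ⟨x, hx⟩ : ∃ x : Fin 5 → R, x = fun i => ⟨ξ i, hξR i⟩ := ⟨_, rfl⟩
  have e1 : (fun i => (φ₁ i : K)) = pn τ ξ m := by rw [hφ₁]
  have e2 : (fun i => (φ₂ i : K)) = pn τ ξ (m + m) := by rw [hφ₂]
  have e0 : (fun i => (x i : K)) = ξ := by rw [hx]
  have e1' : ∀ i, (φ₁ i : K) = pn τ ξ m i := fun i => congrFun e1 i
  have hfg := fg_top h.fd.gp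
  have halg0 : Algebra.IsAlgebraic (IntermediateField.adjoin Qb (Set.range ξ)) K :=
    alg_pn (τ := τ) h.fd.gp 0
  have htr : ∃ i, Transcendental Qb (pn τ ξ m i) := by
    by_contra hcon
    push Not at hcon
    apply trdeg_zero_of h.fd.gp
    intro i
    obtain ⟨f, hf⟩ := iter_algHomX τ m
    have h1 : IsAlgebraic Qb (pn τ ξ m i) := by
      have := hcon i
      rwa [Transcendental, not_not] at this
    have h4 : pn τ ξ m i = f (ξ i) := by
      rw [hf]
      rfl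
    rw [h4] at h1
    exact (isAlgebraic_algHom_iff f f.toRingHom.injective).1 h1
  have hM1 : 1 ≤ M := by
    obtain ⟨i, hi⟩ := htr
    obtain ⟨u, u', h1⟩ := hEXN Qb K 5 5 ξ (pn τ ξ (m + m)) (pn τ ξ m i) h.fd.gp.trd hfg hi
      halg0 (alg_pn h.fd.gp _)
    have h2 := hM (Pi.single i 1) u u'
    rw [lc_single] at h2
    exact h1.trans h2
  suffices H : ∃ (Q U V W : ℝ) (T : Finset (Po 5 Qb)), 0 < U ∧ 0 ≤ V ∧ 0 ≤ W ∧ W ≤ Q ∧
      (∀ p ∈ T, aeval ξ p ≠ 0) ∧ 2 * (e : ℝ) ^ m < W / U ∧ 8 * (V / U) ≤ (W / U) ^ 2 ∧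
      45 * r * (W / U) ≤ a m ∧
      ∀ (K' : IntermediateField ℚ Qb) (F' : HFam K'), ∃ c : ℝ,
        ∀ (μ : ℕ) (z : Fin μ → Fin 5 → Qb), (∀ j, eval (z j) P = 0) → (∀ j, z j 1 = 1) →
          (∀ j, ∀ p ∈ T, eval (z j) p ≠ 0) → (∀ p ∈ T, ∏ j, eval (z j) p ∈ K') →
          ∃ ev : Fin μ → (R →ₐ[Qb] Qb),
            (∀ j (p : Po 5 Qb) (h : aeval ξ p ∈ R), ev j ⟨aeval ξ p, h⟩ = eval (z j) p) ∧
            Q * ∑ j, hn F' (fun i => ev j (φ₁ i)) ≤ U * ∑ j, hn F' (fun i => ev j (φ₂ i)) +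
              V * ∑ j, hn F' (fun i => ev j (x i)) + μ * c by
    obtain ⟨Q, U, V, W, T, hU, hV, hW, hWQ, hT, h1, h2, h3, hkey⟩ := H
    refine ⟨m, W / U, V / U, insert q T, hm, ?_, by positivity, h1, h2, h3, fun K' F' => ?_⟩
    · intro p hp
      rcases Finset.mem_insert.1 hp with rfl | hp
      · exact hq
      · exact hT p hp
    obtain ⟨c₁, hc₁⟩ := hkey K' F'
    refine ⟨c₁ / U, fun μ z hzP hz1 hzT hzK => ?_⟩
    obtain ⟨ev, hev, hineq⟩ := hc₁ μ z hzP hz1 (fun j p hp => hzT j p (Finset.mem_insert_of_mem hp))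
      (fun p hp => hzK p (Finset.mem_insert_of_mem hp))
    have hzq : ∀ j, eval (z j) (it F m 1) ≠ 0 ∧ eval (z j) (it F (m + m) 1) ≠ 0 := by
      intro j
      have h4 := hzT j q (Finset.mem_insert_self _ _)
      rw [hqdef, map_mul] at h4
      exact ⟨left_ne_zero_of_mul h4, right_ne_zero_of_mul h4⟩
    have haff : ∀ (n : ℕ) (φ : Fin 5 → R) (j : Fin μ), eval (z j) (it F n 1) ≠ 0 →
        (∀ i, (φ i : K) = pn τ ξ n i) →
        (fun i => ev j (φ i)) = af (pmap (it F n) (z j)) := by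
      intro n φ j hn hφ
      funext i
      have h4 : φ i * ⟨aeval ξ (it F n 1), hmem _⟩ = ⟨aeval ξ (it F n i), hmem _⟩ := by
        apply Subtype.ext
        change (φ i : K) * aeval ξ (it F n 1) = aeval ξ (it F n i)
        rw [hφ, h.eq, div_mul_cancel₀ _ (h.ne n)]
      have h5 := congrArg (ev j) h4
      rw [map_mul, hev, hev] at h5
      rw [af, pmap, pmap, eq_div_iff hn]
      exact h5
    have f1 : ∀ j, (fun i => ev j (φ₁ i)) = af (pmap (it F m) (z j)) := fun j =>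
      haff m φ₁ j (hzq j).1 e1'
    have f2 : ∀ j, (fun i => ev j (φ₂ i)) = af (pmap (it F (m + m)) (z j)) := fun j =>
      haff (m + m) φ₂ j (hzq j).2 (fun i => congrFun e2 i)
    have f3 : ∀ j, (fun i => ev j (x i)) = z j := by
      intro j
      funext i
      have h4 : x i = ⟨aeval ξ (X i), hmem _⟩ := by
        apply Subtype.ext
        rw [hx]
        exact (aeval_X ξ i).symm
      rw [h4, hev, eval_X]
    simp only [f1, f2, f3] at hineq
    have hU' : U ≠ 0 := hU.ne'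
    have hH1 : 0 ≤ ∑ j, hn F' (af (pmap (it F m) (z j))) :=
      Finset.sum_nonneg fun j _ => hn_nonneg _ _
    have h5 : W * ∑ j, hn F' (af (pmap (it F m) (z j))) ≤
        Q * ∑ j, hn F' (af (pmap (it F m) (z j))) := mul_le_mul_of_nonneg_right hWQ hH1
    have h6 : W / U * ∑ j, hn F' (af (pmap (it F m) (z j))) =
        (W * ∑ j, hn F' (af (pmap (it F m) (z j)))) / U := by ring
    have h7 : ∑ j, hn F' (af (pmap (it F (m + m)) (z j))) + V / U * ∑ j, hn F' (z j) +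
        μ * (c₁ / U) = (U * ∑ j, hn F' (af (pmap (it F (m + m)) (z j))) +
          V * ∑ j, hn F' (z j) + μ * c₁) / U := by
      field_simp
    rw [h6, h7]
    exact div_le_div_of_nonneg_right (h5.trans hineq) hU.le
  have hr' : (1 : ℝ) ≤ r := by exact_mod_cast hr
  rcases hgood with hgood | hgood
  · obtain ⟨g1, g2, g3⟩ := hgood.real hr (h.pos m) (h.sub hINX hBZX hLDX m m)
    obtain ⟨s₁, t₁, t₁', hs₁⟩ := h.b5 hLDX (m + m)
    obtain ⟨T, hT, hkey⟩ := kin5 hKNX h.fd.gp q hq R hevR hmem hnumR φ₂ x φ₁ (a (m + m))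
      (a m * r) M s₁ t₁ t₁'
      (by
        rw [e0, e2, IntermediateField.adjoin_union, h.fd.gp.top, sup_top_eq])
      (h.pos _) hM1 (by rw [e0, e2]; exact hs₁)
      (by rw [e0, e1]; exact h.b2 hINX hBZX m)
      (by rw [e0, e1, e2]; exact hM.rot)
      (by
        intro i
        rw [e0, e1' i]
        rcases const_or (pn τ ξ m i) with h4 | h4
        · exact Or.inl h4
        · right
          exact hEXN Qb K 5 5 ξ ξ (pn τ ξ m i) h.fd.gp.trd hfg h4 halg0 halg0)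
    have hd' : (0 : ℝ) < a m := by exact_mod_cast h.pos m
    have hr0 : (0 : ℝ) < r := by linarith
    have hWU : ((a (m + m) : ℝ) / r) / (45 * (a m * r)) =
        (a (m + m) : ℝ) / (45 * (r * (r * a m))) := by
      field_simp
    have hVU : (45 * (M : ℝ)) / (45 * (a m * r)) = (M : ℝ) / (r * a m) := by
      field_simp
    refine ⟨a (m + m), 45 * (a m * r), 45 * M, a (m + m) / r, T, by positivity, by positivity,
      by positivity, div_le_self (Nat.cast_nonneg _) hr', hT, ?_, ?_, ?_, fun K' F' => ?_⟩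
    · rw [hWU]
      exact g1
    · rw [hWU, hVU]
      exact g2
    · rw [hWU]
      exact g3
    · obtain ⟨c₁, hc₁⟩ := hkey K' F'
      refine ⟨c₁, fun μ z hzP hz1 hzT hzK => ?_⟩
      obtain ⟨ev, hev, h4⟩ := hc₁ μ z hzP hz1 hzT hzK
      refine ⟨ev, hev, ?_⟩
      push_cast at h4
      linarith
  · obtain ⟨g1, g2, g3⟩ := hgood.real hr hM1 hYM
    have hY1 : 1 ≤ Y := Nat.one_le_iff_ne_zero.mpr fun h0 => by
      have h1 := hgood.1
      rw [h0] at h1
      exact Nat.not_lt_zero _ h1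
    have hset : ({lc s'' ξ, lc s (pn τ ξ (m + m)), lc s' (pn τ ξ (m + m))} : Set K) =
        {lc s (pn τ ξ (m + m)), lc s' (pn τ ξ (m + m)), lc s'' ξ} := by
      rw [Set.insert_comm, Set.pair_comm (lc s'' ξ)]
    obtain ⟨T, hT, hkey⟩ := kin5 hKNX h.fd.gp q hq R hevR hmem hnumR x φ₂ φ₁ Y
      (e ^ m * (a m * (a m * r))) M s'' s s'
      (by
        rw [e0, e2, IntermediateField.adjoin_union, h.fd.gp.top, top_sup_eq])
      hY1 hM1 (by
        rw [e0, e2, hset, hY]) (by rw [e1, e2]; exact h.b4 hINX hBZX m)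
      (by rw [e0, e1, e2]; exact hM)
      (by
        intro i
        rw [e2, e1' i]
        rcases const_or (pn τ ξ m i) with h4 | h4
        · exact Or.inl h4
        · right
          exact hEXN Qb K 5 5 (pn τ ξ (m + m)) (pn τ ξ (m + m)) (pn τ ξ m i) h.fd.gp.trd hfg h4
            (alg_pn h.fd.gp _) (alg_pn h.fd.gp _))
    have hM' : (0 : ℝ) < M := by exact_mod_cast hM1
    have hr0 : (0 : ℝ) < r := by linarith
    have hWU : ((Y : ℝ) / r) / (45 * M) = (Y : ℝ) / (45 * (r * M)) := by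
      field_simp
    refine ⟨Y, 45 * M, 45 * (e ^ m * (a m * (a m * r)) : ℕ), Y / r, T, by positivity,
      by positivity, by positivity, div_le_self (Nat.cast_nonneg _) hr', hT, ?_, ?_, ?_,
      fun K' F' => ?_⟩
    · rw [hWU]
      exact g1
    · rw [hWU, mul_div_mul_left _ _ (by norm_num : (45 : ℝ) ≠ 0)]
      exact g2
    · rw [hWU]
      exact g3
    · obtain ⟨c₁, hc₁⟩ := hkey K' F'
      refine ⟨c₁, fun μ z hzP hz1 hzT hzK => ?_⟩
      obtain ⟨ev, hev, h4⟩ := hc₁ μ z hzP hz1 hzT hzK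
      refine ⟨ev, hev, ?_⟩
      linarith

end

end Pool.Agent.H8.TX
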