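import Pool.Agent.H8.TX.Core2
import Pool.Agent.H8.TD.All
import Pool.Agent.H18.HX.All
import Pool.Agent.H8.HX.PEG
import Pool.Agent.H49.TX.AMX
import Pool.Agent.H7.TX.BZX
import Pool.Agent.H24.TX.CJX
import Pool.Agent.H33.TX.COL
import Pool.Agent.H77.TX.DGY
import Pool.Agent.H42.TX.DHI
import Pool.Agent.H68.TX.EXN
import Pool.Agent.H68.TX.FLD
import Pool.Agent.H1.TX.GRC
import Pool.Agent.H24.TX.GSX
import Pool.Agent.H33.TX.HIL
import Pool.Agent.H81.TX.HRX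
import Pool.Agent.H75.TX.HTX
import Pool.Agent.H78.TX.INX
import Pool.Agent.H4.TX.KNX
import Pool.Agent.H51.TX.LDA
import Pool.Agent.H7.TX.LDB
import Pool.Agent.H21.TX.LDX
import Pool.Agent.H35.TX.LNY
import Pool.Agent.H77.TX.NPA
import Pool.Agent.H58.TX.NPB
import Pool.Agent.H11.TX.PDA
import Pool.Agent.H33.TX.RLA
import Pool.Agent.H54.TX.RLB
import Pool.Agent.H45.TX.RNG
import Pool.Agent.H1.TX.STX
import Pool.Agent.H10.TX.TGR
import Pool.Agent.H26.TX.TUP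
import Pool.Agent.H75.TX.UPX
import Pool.Agent.H58.TX.WBY

/-!
# Zariski dense orbits on threefolds: the rows together
-/

set_option autoImplicit false

open MvPolynomial
open Pool.Agent.H12.ZD (pmap)
open Pool.Agent.H18.HIT Pool.Agent.H18.HX Pool.Agent.H18.VZ

namespace Pool.Agent.H8.TX.Al

theorem amx : T_AMX := Pool.Agent.H49.TX.pf_AMX
theorem bzx : T_BZX := Pool.Agent.H7.TX.pf_BZX
theorem cjx : T_CJX := Pool.Agent.H24.TX.pf_CJX
theorem dgy : T_DGY := Pool.Agent.H77.TX.pf_DGY Pool.Agent.H8.TD.Al.sl1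
theorem dhi : T_DHI := Pool.Agent.H42.TX.pf_DHI
theorem exn : T_EXN := Pool.Agent.H68.TX.pf_EXN
theorem fld : T_FLD := Pool.Agent.H68.TX.pf_FLD
theorem grc : T_GRC := Pool.Agent.H1.TX.pf_GRC
theorem gsx : T_GSX := Pool.Agent.H24.TX.pf_GSX
theorem hil : T_HIL := Pool.Agent.H33.TX.pf_HIL Pool.Agent.H8.HX.pf_PEG
theorem col : T_COL := Pool.Agent.H33.TX.pf_COL hil
theorem hrx : T_HRX := Pool.Agent.H81.TX.pf_HRX
theorem lny : T_LNY := Pool.Agent.H35.TX.pf_LNY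
theorem htx : T_HTX := Pool.Agent.H75.TX.pf_HTX lny
theorem pda : T_PDA := Pool.Agent.H11.TX.pf_PDA Pool.Agent.H8.TD.Al.low Pool.Agent.H8.TD.Al.clz
theorem inx : T_INX := Pool.Agent.H78.TX.pf_INX pda Pool.Agent.H8.TD.Al.adj
theorem wby : T_WBY := Pool.Agent.H58.TX.pf_WBY
theorem knx : T_KNX := Pool.Agent.H4.TX.pf_KNX Pool.Agent.H8.TD.Al.srb Pool.Agent.H8.TD.Al.dlb
  Pool.Agent.H8.TD.Al.axf Pool.Agent.H8.TD.Al.num Pool.Agent.H8.TD.Al.gnx wby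
theorem lda : T_LDA := Pool.Agent.H51.TX.pf_LDA
theorem ldb : T_LDB := Pool.Agent.H7.TX.pf_LDB
theorem ldx : T_LDX := Pool.Agent.H21.TX.pf_LDX lda ldb dhi Pool.Agent.H8.TD.Al.adj
theorem npa : T_NPA := Pool.Agent.H77.TX.pf_NPA
theorem npb : T_NPB := Pool.Agent.H58.TX.pf_NPB
theorem rla : T_RLA := Pool.Agent.H33.TX.pf_RLA Pool.Agent.H8.TD.Al.rl0 Pool.Agent.H8.TD.Al.sl1
  Pool.Agent.H8.TD.Al.ctd
theorem rlb : T_RLB := Pool.Agent.H54.TX.pf_RLB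
theorem rng : T_RNG := Pool.Agent.H45.TX.pf_RNG
theorem stx : T_STX := Pool.Agent.H1.TX.pf_STX lny gsx
theorem tgr : T_TGR := Pool.Agent.H10.TX.pf_TGR
theorem tup : T_TUP := Pool.Agent.H26.TX.pf_TUP Pool.Agent.H18.HX.All.eli
  Pool.Agent.H18.HX.All.pts
theorem upx : T_UPX := Pool.Agent.H75.TX.pf_UPX Pool.Agent.H18.HX.All.eli
  Pool.Agent.H18.HX.All.nsi

end Pool.Agent.H8.TX.Al
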