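import Pool.Agent.H8.TX.Targets

/-!
# Zariski dense orbits on threefolds: the degree of a field extension and the number of points
-/

open MvPolynomial
open Pool.Agent.H18.HIT Pool.Agent.H18.HX Pool.Agent.H18.VZ
open Pool.Agent.H8.TD (lc dg)

namespace Pool.Agent.H8.TX

/-- the number of points of the general fibre is at most the degree of the extension -/
def T_DGC : Prop := ∀ (L D : ℕ) (k K : Type) [Field k] [Infinite k] [CharZero k] [Field K]
  [Algebra k K] (I : Ideal (Po L k)) (χ : Fin L → K) (s₀ : Po L k) (A B : Fin 3 → Po L k)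
  (m : Fin 3 → ℕ) (c : Po 3 k), Algebra.trdeg k K = 3 → s₀.IsHomogeneous 1 →
  (∀ i, (A i).IsHomogeneous (m i)) → (∀ i, (B i).IsHomogeneous (m i)) → aeval χ s₀ ≠ 0 →
  (∀ i, aeval χ (B i) ≠ 0) →
  IntermediateField.adjoin k (Set.range fun i => χ i / aeval χ s₀) = ⊤ →
  (∀ (s : ℕ) (q : Po L k), q.IsHomogeneous s → aeval χ q = 0 → q ∈ I) → c ≠ 0 →
  (∀ t : Fin 3 → k, eval t c ≠ 0 → ∃ S : Finset (Fin L → k), D ≤ S.card ∧ ∀ x ∈ S, Zer I x ∧
    eval x s₀ = 1 ∧ ∀ i, eval x (B i) ≠ 0 ∧ eval x (A i) = t i * eval x (B i)) →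
  D ≤ dg k {aeval χ (A 0) / aeval χ (B 0), aeval χ (A 1) / aeval χ (B 1),
    aeval χ (A 2) / aeval χ (B 2)}

end Pool.Agent.H8.TX
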