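import Pool.Agent.H8.TX.Rec1
import Pool.Agent.H18.VZ.Nfi
import Pool.Agent.H8.TX.TargetsB

/-!
# Zariski dense orbits on threefolds: the generic point of the variety
-/

set_option autoImplicit false

open MvPolynomial
open Pool.Agent.H12.ZD (pmap)
open Pool.Agent.H18.HIT Pool.Agent.H18.HX Pool.Agent.H18.VZ
open Pool.Agent.H8.TD (lc dg)

namespace Pool.Agent.H8.TX

section

variable {L : ℕ} {k K : Type} [Field k] [Field K] [Algebra k K] {I : Ideal (Po L k)}
  {l : Fin 5 → Po L k} {P : Po 5 k} {r : ℕ} {Δ : Po 4 k} {δ : ℕ} {ξ : Fin 5 → K}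

theorem aeval_smul_ring {R : Type} [CommRing R] [Algebra k R] {N : ℕ} {q : Po N k} {s : ℕ}
    (hq : q.IsHomogeneous s) (c : R) (y : Fin N → R) :
    aeval (fun i => c * y i) q = c ^ s * aeval y q := by
  rw [aeval_def, aeval_def, eval₂_eq', eval₂_eq', Finset.mul_sum]
  refine Finset.sum_congr rfl fun m hm => ?_
  have h1 : ∑ i, m i = s := by
    have h2 := hq (mem_support_iff.1 hm)
    rw [Finsupp.weight_apply, Finsupp.sum_fintype _ _ (by simp)] at h2
    simpa using h2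
  have h3 : ∏ i, (c * y i) ^ m i = c ^ s * ∏ i, y i ^ m i := by
    rw [← h1, Finset.prod_congr rfl fun i _ => mul_pow c (y i) (m i), Finset.prod_mul_distrib,
      Finset.prod_pow_eq_pow_sum]
  rw [h3]
  ring

/-- the generic point `χ` of the variety in the field of rational functions of the hypersurface -/
structure Chi (I : Ideal (Po L k)) (l : Fin 5 → Po L k) (Δ : Po 4 k) (δ : ℕ) (ξ : Fin 5 → K)
    (χ : Fin L → K) (Nn : Fin L → Po 5 k) : Prop where
  hom : ∀ i, (Nn i).IsHomogeneous (1 + δ)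
  ne : aeval ξ (up Δ) ≠ 0
  eq : ∀ i, χ i * aeval ξ (up Δ) = aeval ξ (Nn i)
  lin : ∀ i, aeval χ (l i) = ξ i
  iff : ∀ (s : ℕ) (q : Po L k), q.IsHomogeneous s → (aeval χ q = 0 ↔ q ∈ I)
  mem : ∀ i, aeval l (up Δ) * X i - aeval l (Nn i) ∈ I

theorem aeval_chi {χ : Fin L → K} {Nn : Fin L → Po 5 k} {D : K}
    (heq : ∀ i, χ i * D = aeval ξ (Nn i)) {s : ℕ} {q : Po L k} (hq : q.IsHomogeneous s) :
    D ^ s * aeval χ q = aeval ξ (aeval Nn q) := by
  have h1 : (fun i => aeval ξ (Nn i)) = fun i => D * χ i := by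
    funext i
    rw [← heq, mul_comm]
  have h3 : aeval ξ (aeval Nn q) = aeval (fun i => aeval ξ (Nn i)) q := by
    rw [← AlgHom.comp_apply, comp_aeval]
  rw [h3, h1, aeval_smul_hom hq]

theorem exists_chi [hI : I.IsPrime] (hpro : Pro I l P r Δ δ) (hG : Gp P ξ) :
    ∃ (χ : Fin L → K) (Nn : Fin L → Po 5 k), Chi I l Δ δ ξ χ Nn := by
  have hden := fun i : Fin L => hpro.den 1 (X i) (isHomogeneous_X k i)
  choose Nn hN1 hN2 using hden
  have hupl : aeval l (up Δ) = aeval (fun j : Fin 4 => l j.succ) Δ := by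
    rw [up, aeval_rename]
    rfl
  have hmem : ∀ i, aeval l (up Δ) * X i - aeval l (Nn i) ∈ I := by
    intro i
    rw [hupl]
    exact hN2 i
  have hDne : aeval ξ (up Δ) ≠ 0 := aeval_up_ne hG hpro.hyp hpro.dhom hpro.dne
  have hDI : aeval l (up Δ) ∉ I := by
    rw [hupl]
    exact den_notMem hpro
  -- forms
  have hkey : ∀ (s : ℕ) (q : Po L k), q.IsHomogeneous s →
      aeval l (up Δ) ^ s * q - aeval l (aeval Nn q) ∈ I := by
    intro s q hq
    obtain ⟨π, hπ⟩ : ∃ π : Po L k →ₐ[k] (Po L k ⧸ I), π = Ideal.Quotient.mkₐ k I := ⟨_, rfl⟩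
    have e1 : ∀ a b : Po L k, a - b ∈ I ↔ π a = π b := fun a b => by
      rw [hπ, Ideal.Quotient.mkₐ_eq_mk, Ideal.Quotient.eq]
    rw [e1, map_mul, map_pow]
    obtain ⟨φ, hφ⟩ : ∃ φ : Po 5 k →ₐ[k] (Po L k ⧸ I), φ = π.comp (aeval l) := ⟨_, rfl⟩
    have h1 : π (aeval l (aeval Nn q)) = aeval (fun i => φ (Nn i)) q := by
      rw [← comp_aeval, AlgHom.comp_apply, hφ, AlgHom.comp_apply]
    have h2 : (fun i => φ (Nn i)) = fun i => π (aeval l (up Δ)) * π (X i) := by
      funext i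
      have h3 := (e1 _ _).1 (hmem i)
      rw [map_mul] at h3
      rw [hφ, AlgHom.comp_apply, ← h3]
    have h3 : aeval (fun i => π (X i)) q = π q := by
      rw [← comp_aeval, AlgHom.comp_apply, aeval_X_left_apply]
    rw [h1, h2, aeval_smul_ring hq, h3]
  obtain ⟨χ, hχ⟩ : ∃ χ : Fin L → K, χ = fun i => aeval ξ (Nn i) / aeval ξ (up Δ) := ⟨_, rfl⟩
  have heq : ∀ i, χ i * aeval ξ (up Δ) = aeval ξ (Nn i) := by
    intro i
    rw [hχ, div_mul_cancel₀ _ hDne]
  have hNhom : ∀ (s : ℕ) (q : Po L k), q.IsHomogeneous s →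
      (aeval Nn q).IsHomogeneous ((1 + δ) * s) := fun s q hq => hq.aeval Nn hN1
  refine ⟨χ, Nn, hN1, hDne, heq, fun i => ?_, fun s q hq => ?_, hmem⟩
  · have h1 := aeval_chi heq (hpro.lin i)
    rw [pow_one] at h1
    have hupd : (up Δ).IsHomogeneous δ := hpro.dhom.rename_isHomogeneous
    have h2 : P ∣ up Δ * X i - aeval Nn (l i) := by
      rw [← hpro.ker, map_sub, map_mul, aeval_X]
      have h3 := hkey 1 (l i) (hpro.lin i)
      rwa [pow_one] at h3
    have h4 := (hG.iff (δ + 1) _ ((hupd.mul (isHomogeneous_X k i)).sub (by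
      have h5 := hNhom 1 (l i) (hpro.lin i)
      rw [mul_one, Nat.add_comm 1 δ] at h5
      exact h5))).2 h2
    rw [map_sub, map_mul, aeval_X, sub_eq_zero] at h4
    rw [← h4] at h1
    exact mul_left_cancel₀ hDne h1
  · have h1 := aeval_chi heq hq
    have h2 : aeval χ q = 0 ↔ aeval ξ (aeval Nn q) = 0 := by
      rw [← h1]
      constructor
      · intro h
        rw [h, mul_zero]
      · intro h
        exact (mul_eq_zero.1 h).resolve_left (pow_ne_zero _ hDne)
    rw [h2, hG.iff _ _ (hNhom s q hq), ← hpro.ker]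
    have h3 := hkey s q hq
    constructor
    · intro h4
      have h5 := I.add_mem h3 h4
      rw [sub_add_cancel] at h5
      exact (hI.mem_or_mem h5).resolve_left fun h => hDI (hI.mem_of_pow_mem _ h)
    · intro h4
      have h5 := I.sub_mem (I.mul_mem_left (aeval l (up Δ) ^ s) h4) h3
      rwa [sub_sub_cancel] at h5

variable {χ : Fin L → K} {Nn : Fin L → Po 5 k} {F : Tup 5 k} {τ : K →ₐ[k] K} {f : Tup L k}
  {d : ℕ}

/-- the action of the map on the generic point of the variety -/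
theorem tau_chi (hpro : Pro I l P r Δ δ) (hC : Chi I l Δ δ ξ χ Nn) (h : Fd P F ξ τ)
    (hF1 : aeval ξ (F 1) ≠ 0) (hf : ∀ i, (f i).IsHomogeneous d) (hinv : ∀ c ∈ I, aeval f c ∈ I)
    (hF : ∀ i, (F i).IsHomogeneous (d + δ))
    (hFl : ∀ i, aeval l (up Δ) * aeval f (l i) - aeval l (F i) ∈ I) :
    aeval χ (aeval f (l 1)) ≠ 0 ∧
      ∀ i, τ (χ i) * aeval χ (aeval f (l 1)) = aeval χ (f i) := by
  have hupd : (up Δ).IsHomogeneous δ := hpro.dhom.rename_isHomogeneous
  have hlxi : ∀ q : Po 5 k, aeval χ (aeval l q) = aeval ξ q := by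
    intro q
    rw [← AlgHom.comp_apply, comp_aeval]
    congr 2
    funext i
    exact hC.lin i
  obtain ⟨η, hη⟩ : ∃ η : Fin L → K, η = fun i => aeval χ (f i) := ⟨_, rfl⟩
  have hηq : ∀ q : Po L k, aeval η q = aeval χ (aeval f q) := by
    intro q
    rw [← AlgHom.comp_apply, comp_aeval, hη]
  obtain ⟨lam, hlam⟩ : ∃ lam : Fin 5 → K, lam = fun i => aeval η (l i) := ⟨_, rfl⟩
  have hlamq : ∀ q : Po 5 k, aeval lam q = aeval η (aeval l q) := by
    intro q
    rw [← AlgHom.comp_apply, comp_aeval, hlam]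
  have hFi : ∀ i, aeval ξ (F i) = aeval ξ (up Δ) * lam i := by
    intro i
    have h1 : (aeval l (up Δ) * aeval f (l i) - aeval l (F i)).IsHomogeneous (d + δ) := by
      apply IsHomogeneous.sub
      · have h2 := (hupd.aeval l hpro.lin).mul ((hpro.lin i).aeval f hf)
        rw [one_mul, mul_one, Nat.add_comm δ d] at h2
        exact h2
      · have h2 := (hF i).aeval l hpro.lin
        rw [one_mul] at h2
        exact h2
    have h2 := (hC.iff _ _ h1).2 (hFl i)
    rw [map_sub, map_mul, hlxi, hlxi, sub_eq_zero] at h2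
    rw [← h2, hlam]
    change _ = _ * aeval η (l i)
    rw [hηq]
  have hlam1 : lam 1 ≠ 0 := by
    intro h0
    apply hF1
    rw [hFi, h0, mul_zero]
  have hlamη : lam 1 = aeval χ (aeval f (l 1)) := by
    rw [hlam]
    exact hηq (l 1)
  rw [← hlamη]
  refine ⟨hlam1, fun i => ?_⟩
  have hτξ : ∀ j, τ (ξ j) = (lam 1)⁻¹ * lam j := by
    intro j
    have h1 := h.eq j
    rw [hFi, hFi] at h1
    field_simp
    have h2 : aeval ξ (up Δ) * (τ (ξ j) * lam 1) = aeval ξ (up Δ) * lam j := by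
      rw [← h1]
      ring
    exact mul_left_cancel₀ hC.ne h2
  have hτq : ∀ (s : ℕ) (q : Po 5 k), q.IsHomogeneous s →
      τ (aeval ξ q) = (lam 1)⁻¹ ^ s * aeval lam q := by
    intro s q hq
    have h1 : τ (aeval ξ q) = aeval (fun i => τ (ξ i)) q := by
      rw [← AlgHom.comp_apply, comp_aeval]
    rw [h1, funext hτξ, aeval_smul_hom hq]
  have h1 := congrArg τ (hC.eq i)
  rw [map_mul, hτq _ _ hupd, hτq _ _ (hC.hom i)] at h1
  -- the relation at `η`
  have h2 : aeval lam (up Δ) * η i = aeval lam (Nn i) := by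
    have h3 : (aeval f (aeval l (up Δ) * X i - aeval l (Nn i))).IsHomogeneous (d * (δ + 1)) := by
      apply IsHomogeneous.aeval (n := d) _ f hf
      apply IsHomogeneous.sub
      · have h2 := (hupd.aeval l hpro.lin).mul (isHomogeneous_X k i)
        rw [one_mul] at h2
        exact h2
      · have h2 := (hC.hom i).aeval l hpro.lin
        rw [one_mul, Nat.add_comm 1 δ] at h2
        exact h2
    have h4 := (hC.iff _ _ h3).2 (hinv _ (hC.mem i))
    rw [← hηq, map_sub, map_mul, aeval_X, ← hlamq, ← hlamq, sub_eq_zero] at h4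
    exact h4
  have h3 : aeval lam (up Δ) ≠ 0 := by
    intro h0
    have h4 := hτq _ _ hupd
    rw [h0, mul_zero] at h4
    exact hC.ne (τ.toRingHom.injective (by rw [map_zero]; exact h4))
  have h4 : η i = aeval χ (f i) := by rw [hη]
  rw [← h4]
  rw [← h2, pow_add, pow_one] at h1
  have h5 : (lam 1)⁻¹ ^ δ * aeval lam (up Δ) ≠ 0 :=
    mul_ne_zero (pow_ne_zero _ (inv_ne_zero hlam1)) h3
  apply mul_left_cancel₀ h5
  have h6 : (lam 1)⁻¹ ^ δ * aeval lam (up Δ) * (τ (χ i) * lam 1) =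
      τ (χ i) * ((lam 1)⁻¹ ^ δ * aeval lam (up Δ)) * lam 1 := by ring
  rw [h6, h1]
  field_simp

end

end Pool.Agent.H8.TX
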