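import Pool.Agent.H8.TX.Chi

/-!
# Zariski dense orbits on threefolds: the second degrees on the variety and on the hypersurface
-/

set_option autoImplicit false

open MvPolynomial
open Pool.Agent.H12.ZD (pmap)
open Pool.Agent.H18.HIT Pool.Agent.H18.HX Pool.Agent.H18.VZ
open Pool.Agent.H8.TD (lc dg)

namespace Pool.Agent.H8.TX

section

variable {L : ℕ} {k K : Type} [Field k] [Field K] [Algebra k K] {I : Ideal (Po L k)}
  {l : Fin 5 → Po L k} {P : Po 5 k} {r : ℕ} {Δ : Po 4 k} {δ : ℕ} {ξ : Fin 5 → K}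
  {χ : Fin L → K} {Nn : Fin L → Po 5 k} {F : Tup 5 k} {τ : K →ₐ[k] K} {f : Tup L k} {d : ℕ}

/-- the iterates of the map at the generic point of the variety -/
theorem tau_chi_iter (hpro : Pro I l P r Δ δ) (hC : Chi I l Δ δ ξ χ Nn) (h : Fd P F ξ τ)
    (hF1 : aeval ξ (F 1) ≠ 0) (hf : ∀ i, (f i).IsHomogeneous d) (hs : Slf I f)
    (hF : ∀ i, (F i).IsHomogeneous (d + δ))
    (hFl : ∀ i, aeval l (up Δ) * aeval f (l i) - aeval l (F i) ∈ I) (n : ℕ) :
    aeval χ (aeval (it f n) (l 1)) ≠ 0 ∧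
      ∀ i, τ^[n] (χ i) * aeval χ (aeval (it f n) (l 1)) = aeval χ (it f n i) := by
  obtain ⟨hlam, hτ⟩ := tau_chi hpro hC h hF1 hf hs.inv hF hFl
  have hξ1 := h.gp.one
  have hl1 : l 1 ∉ I := by
    intro h0
    have h1 := (hC.iff 1 (l 1) (hpro.lin 1)).2 h0
    rw [hC.lin, hξ1] at h1
    exact one_ne_zero h1
  have hne : ∀ n, aeval χ (aeval (it f n) (l 1)) ≠ 0 := by
    intro n h0
    apply hl1
    apply (hs.it n).inj
    exact (hC.iff _ _ (aeval_hom (it_hom hf n) (hpro.lin 1))).1 h0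
  refine ⟨hne n, ?_⟩
  induction n with
  | zero =>
    intro i
    have h1 : aeval (it f 0) (l 1) = l 1 := by
      rw [it_zero, aeval_X_left_apply]
    rw [h1, hC.lin, hξ1, mul_one, it_zero, aeval_X]
    rfl
  | succ n ih =>
    intro i
    obtain ⟨c, hc⟩ : ∃ c, c = aeval χ (aeval f (l 1)) := ⟨_, rfl⟩
    rw [← hc] at hlam hτ
    have hτq : ∀ (s : ℕ) (q : Po L k), q.IsHomogeneous s →
        c ^ s * τ (aeval χ q) = aeval χ (aeval f q) := by
      intro s q hq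
      have h1 : τ (aeval χ q) = aeval (fun i => τ (χ i)) q := by
        rw [← AlgHom.comp_apply, comp_aeval]
      have h2 : (fun i => aeval χ (f i)) = fun i => c * τ (χ i) := by
        funext i
        rw [← hτ i, mul_comm]
      have h3 : aeval χ (aeval f q) = aeval (fun i => aeval χ (f i)) q := by
        rw [← AlgHom.comp_apply, comp_aeval]
      rw [h1, h3, h2, aeval_smul_hom hq]
    have h1 := congrArg τ (ih i)
    rw [map_mul, ← Function.iterate_succ_apply' τ n (χ i)] at h1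
    have h2 := hτq _ _ (it_hom hf n i)
    have h3 := hτq _ _ (aeval_hom (it_hom hf n) (hpro.lin 1))
    have h4 : it f (n + 1) i = aeval f (it f n i) := by
      rw [it_succ']
      rfl
    rw [mul_one] at h3
    rw [aeval_it_succ', h4, ← h2, ← h3, ← h1]
    ring

/-- linear forms at the generic point -/
theorem lin_chi (hC : Chi I l Δ δ ξ χ Nn) {s : Po L k} (hs : s.IsHomogeneous 1) :
    aeval ξ (up Δ) * aeval χ s = aeval ξ (aeval Nn s) := by
  have h1 := aeval_chi hC.eq hs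
  rwa [pow_one] at h1

theorem quot_chi (hC : Chi I l Δ δ ξ χ Nn) {s s₀ : Po L k} (hs : s.IsHomogeneous 1)
    (hs₀ : s₀.IsHomogeneous 1) (h0 : aeval χ s₀ ≠ 0) :
    aeval ξ (aeval Nn s₀) ≠ 0 ∧
      aeval χ s / aeval χ s₀ = aeval ξ (aeval Nn s) / aeval ξ (aeval Nn s₀) := by
  rw [← lin_chi hC hs, ← lin_chi hC hs₀, mul_div_mul_left _ _ hC.ne]
  exact ⟨mul_ne_zero hC.ne h0, rfl⟩

theorem totalDegree_Nn (hC : Chi I l Δ δ ξ χ Nn) {s : Po L k} (hs : s.IsHomogeneous 1) :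
    (aeval Nn s).totalDegree ≤ 1 + δ := by
  have h1 := (hs.aeval Nn hC.hom).totalDegree_le
  rwa [mul_one] at h1

/-- quotients of forms in `φ` -/
theorem ins_chi [CharZero k] (hINX : T_INX) (htr : Algebra.trdeg k K = 3) (φ : Fin 5 → K)
    (β γ : K) (p q : Po 5 k) (δ' Y : ℕ) (hp : p.totalDegree ≤ δ') (hq : q.totalDegree ≤ δ')
    (hne : aeval φ q ≠ 0) (hY : ∀ u : Fin 5 → k, dg k {lc u φ, β, γ} ≤ Y) :
    dg k {aeval φ p / aeval φ q, β, γ} ≤ δ' * Y := by
  obtain ⟨Cf, hCf⟩ : ∃ Cf : ℕ → Po 5 k, Cf = fun j => if j = 0 then -p else q := ⟨_, rfl⟩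
  have hC0 : Cf 0 = -p := by
    rw [hCf]
    exact if_pos rfl
  have hC1 : ∀ j, j ≠ 0 → Cf j = q := by
    intro j hj
    rw [hCf]
    exact if_neg hj
  refine hINX k K 5 φ β γ _ δ' Y 1 Cf htr hY (fun j => ?_) ?_ ?_
  · by_cases hj : j = 0
    · rw [hj, hC0, totalDegree_neg]
      exact hp
    · rw [hC1 j hj]
      exact hq
  · rw [hC1 1 one_ne_zero]
    exact hne
  · rw [Finset.sum_range_succ, Finset.sum_range_one, hC0, hC1 1 one_ne_zero, pow_zero, mul_one,
      pow_one, map_neg, mul_div_cancel₀ _ hne, neg_add_cancel]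

/-- **the transfer of the second degrees** -/
theorem second_transfer [CharZero k] (hINX : T_INX) (hpro : Pro I l P r Δ δ)
    (hC : Chi I l Δ δ ξ χ Nn) (h : Fd P F ξ τ)
    (hF1 : aeval ξ (F 1) ≠ 0) (hf : ∀ i, (f i).IsHomogeneous d) (hs : Slf I f)
    (hF : ∀ i, (F i).IsHomogeneous (d + δ))
    (hFl : ∀ i, aeval l (up Δ) * aeval f (l i) - aeval l (F i) ∈ I) (n Y : ℕ)
    (hY : ∀ s s' s'' : Fin 5 → k, dg k {lc s ξ, lc s' (pn τ ξ n), lc s'' (pn τ ξ n)} ≤ Y)
    {s₀ s s₀' s' s'' : Po L k} (hs₀ : s₀.IsHomogeneous 1) (hs1 : s.IsHomogeneous 1)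
    (hs₀' : s₀'.IsHomogeneous 1) (hs' : s'.IsHomogeneous 1) (hs'' : s''.IsHomogeneous 1)
    (h0 : aeval χ s₀ ≠ 0) (h0' : aeval χ (aeval (it f n) s₀') ≠ 0) :
    dg k {aeval χ s / aeval χ s₀, aeval χ (aeval (it f n) s') / aeval χ (aeval (it f n) s₀'),
      aeval χ (aeval (it f n) s'') / aeval χ (aeval (it f n) s₀')} ≤
      (1 + δ) * ((1 + δ) * ((1 + δ) * Y)) := by
  have htr := h.gp.trd
  obtain ⟨hln, hln'⟩ := tau_chi_iter hpro hC h hF1 hf hs hF hFl n
  obtain ⟨g, hg⟩ := iter_algHomX τ n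
  have hgi : ∀ y, τ^[n] y = g y := fun y => by rw [hg]
  -- the values at the image
  have hval : ∀ q : Po L k, q.IsHomogeneous 1 →
      g (aeval χ q) * aeval χ (aeval (it f n) (l 1)) = aeval χ (aeval (it f n) q) := by
    intro q hq
    have h1 : g (aeval χ q) = aeval (fun i => g (χ i)) q := by
      rw [← AlgHom.comp_apply, comp_aeval]
    have h2 : (fun i => aeval χ (it f n i)) =
        fun i => aeval χ (aeval (it f n) (l 1)) * g (χ i) := by
      funext i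
      rw [← hln' i, hgi, mul_comm]
    have h3 : aeval χ (aeval (it f n) q) = aeval (fun i => aeval χ (it f n i)) q := by
      rw [← AlgHom.comp_apply, comp_aeval]
    rw [h1, h3, h2, aeval_smul_hom hq, pow_one, mul_comm]
  have hχ0' : aeval χ s₀' ≠ 0 := by
    intro h1
    apply h0'
    rw [← hval s₀' hs₀', h1, map_zero, zero_mul]
  have hpn : pn τ ξ n = fun i => g (ξ i) := by
    funext i
    rw [pn, hgi]
  have hgq : ∀ q : Po 5 k, g (aeval ξ q) = aeval (pn τ ξ n) q := by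
    intro q
    rw [hpn, ← AlgHom.comp_apply, comp_aeval]
  have hquot : ∀ q : Po L k, q.IsHomogeneous 1 →
      aeval χ (aeval (it f n) q) / aeval χ (aeval (it f n) s₀') =
        aeval (pn τ ξ n) (aeval Nn q) / aeval (pn τ ξ n) (aeval Nn s₀') := by
    intro q hq
    rw [← hval q hq, ← hval s₀' hs₀', mul_div_mul_right _ _ hln, ← map_div₀,
      (quot_chi hC hq hs₀' hχ0').2, map_div₀, hgq, hgq]
  have hne' : aeval (pn τ ξ n) (aeval Nn s₀') ≠ 0 := by
    rw [← hgq]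
    intro h1
    exact (quot_chi hC hs' hs₀' hχ0').1 (g.toRingHom.injective (by rw [map_zero]; exact h1))
  obtain ⟨a, ha⟩ : ∃ a : K, a = aeval χ s / aeval χ s₀ := ⟨_, rfl⟩
  obtain ⟨b, hb⟩ : ∃ b : K, b = aeval χ (aeval (it f n) s') / aeval χ (aeval (it f n) s₀') :=
    ⟨_, rfl⟩
  obtain ⟨c, hc⟩ : ∃ c : K, c = aeval χ (aeval (it f n) s'') / aeval χ (aeval (it f n) s₀') :=
    ⟨_, rfl⟩
  rw [← ha, ← hb, ← hc]
  have h3 : ∀ u u' : Fin 5 → k, dg k {c, lc u ξ, lc u' (pn τ ξ n)} ≤ (1 + δ) * Y := by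
    intro u u'
    rw [hc, hquot s'' hs'']
    refine ins_chi hINX htr (pn τ ξ n) _ _ _ _ (1 + δ) Y (totalDegree_Nn hC hs'')
      (totalDegree_Nn hC hs₀') hne' fun v => ?_
    have h4 := hY u u' v
    have h5 : ({lc u ξ, lc u' (pn τ ξ n), lc v (pn τ ξ n)} : Set K) =
        {lc v (pn τ ξ n), lc u ξ, lc u' (pn τ ξ n)} := by
      ext y
      simp only [Set.mem_insert_iff, Set.mem_singleton_iff]
      tauto
    rw [← h5]
    exact h4
  have h2 : ∀ u : Fin 5 → k, dg k {b, lc u ξ, c} ≤ (1 + δ) * ((1 + δ) * Y) := by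
    intro u
    rw [hb, hquot s' hs']
    refine ins_chi hINX htr (pn τ ξ n) _ _ _ _ (1 + δ) _ (totalDegree_Nn hC hs')
      (totalDegree_Nn hC hs₀') hne' fun v => ?_
    have h4 := h3 u v
    have h5 : ({lc v (pn τ ξ n), lc u ξ, c} : Set K) = {c, lc u ξ, lc v (pn τ ξ n)} := by
      ext y
      simp only [Set.mem_insert_iff, Set.mem_singleton_iff]
      tauto
    rw [h5]
    exact h4
  have h1 : dg k {a, b, c} ≤ (1 + δ) * ((1 + δ) * ((1 + δ) * Y)) := by
    rw [ha, (quot_chi hC hs1 hs₀ h0).2]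
    refine ins_chi hINX htr ξ _ _ _ _ (1 + δ) _ (totalDegree_Nn hC hs1)
      (totalDegree_Nn hC hs₀) (quot_chi hC hs1 hs₀ h0).1 fun v => ?_
    have h4 := h2 v
    have h5 : ({lc v ξ, b, c} : Set K) = {b, lc v ξ, c} := by
      ext y
      simp only [Set.mem_insert_iff, Set.mem_singleton_iff]
      tauto
    rw [h5]
    exact h4
  exact h1

end

end Pool.Agent.H8.TX
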