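import Pool.Agent.H8.TX.Line

/-!
# Zariski dense orbits on threefolds: the core, part 1
-/

set_option autoImplicit false

open MvPolynomial
open Pool.Agent.H12.ZD (pmap)
open Pool.Agent.H18.HIT Pool.Agent.H18.HX Pool.Agent.H18.VZ
open Pool.Agent.H8.ZA (HFam Const NA)
open Pool.Agent.H8.TD (lc dg Wsp Cop dh lc_single lc_map lc_iterate)

namespace Pool.Agent.H8.TX

/-! ## The direction of the line -/

theorem cop_of_npd {P p q : Po 5 Qb} {r D n : ℕ} {Cf : ℕ → Po 4 Qb} {B : Po 4 Qb}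
    (h : Npd P r p q D n Cf B) : Cop fun j : Fin (n + 1) => Cf j := by
  intro Q hQ
  by_contra hcon
  push Not at hcon
  have h1 : Polynomial.C Q ∣ ∑ j ∈ Finset.range (n + 1), Polynomial.C (Cf j) *
      Polynomial.X ^ j := by
    apply Finset.dvd_sum
    intro j hj
    exact Dvd.dvd.mul_right (map_dvd Polynomial.C (hcon ⟨j, Finset.mem_range.mp hj⟩)) _
  have h2 : ¬ IsUnit (Polynomial.C Q) := fun h3 => hQ.not_isUnit (Polynomial.isUnit_C.1 h3)
  obtain ⟨u, hu⟩ := h1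
  have h3 := (h.irr.isUnit_or_isUnit hu).resolve_left h2
  obtain ⟨c, -, hc⟩ := Polynomial.isUnit_iff.1 h3
  rw [← hc, ← Polynomial.C_mul] at hu
  have h4 := congrArg (fun p => Polynomial.coeff p n) hu
  simp only [Polynomial.finsetSum_coeff, Polynomial.coeff_C_mul, Polynomial.coeff_X_pow,
    mul_ite, mul_one, mul_zero] at h4
  rw [Finset.sum_ite_eq, if_pos (Finset.self_mem_range_succ _), Polynomial.coeff_C, if_neg
    (by have := h.pos; omega)] at h4
  exact h.top h4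

theorem dirX {P p q : Po 5 Qb} {r D n : ℕ} {Cf : ℕ → Po 4 Qb} {B : Po 4 Qb}
    (h : Npd P r p q D n Cf B) {w : Fin 4 → Qb} (hw : w 0 ≠ 0) (hwn : eval w (Cf n) ≠ 0) :
    ∃ c' : Po 4 Qb, c' ≠ 0 ∧ ∀ b' : Fin 4 → Qb, eval b' c' ≠ 0 → ∀ ϖ : Qb, ϖ ≠ 0 →
      (∃ i, ϖ * b' i ≠ 0) ∧ (∀ t : Qb, ∃ i, w i + t * (ϖ * b' i) ≠ 0) ∧
      (∃ j, eval (fun i => ϖ * b' i) (Cf j) ≠ 0) ∧
      ∀ t : Qb, ∃ j, eval (fun i => w i + t * (ϖ * b' i)) (Cf j) ≠ 0 := by
  obtain ⟨cL, hcL, hcL'⟩ := Pool.Agent.H8.TD.Al.lav Qb (n + 1) (fun j => Cf j) w (cop_of_npd h)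
    ⟨Fin.last n, hwn⟩
  have h01 : (0 : Fin 4) ≠ 1 := by decide
  have hcM : (C (w 0) * X 1 - C (w 1) * X 0 : Po 4 Qb) ≠ 0 := by
    intro h0
    have h1 := congrArg (coeff (Finsupp.single 1 1)) h0
    rw [coeff_sub, coeff_C_mul, coeff_C_mul, coeff_X, coeff_X, if_pos rfl, if_neg
      (fun h => h01 ((Finsupp.single_left_inj one_ne_zero).mp h)), mul_zero, sub_zero, mul_one,
      coeff_zero] at h1
    exact hw h1
  refine ⟨cL * (C (w 0) * X 1 - C (w 1) * X 0) * Cf n * X 0, mul_ne_zero (mul_ne_zero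
    (mul_ne_zero hcL hcM) h.top) (X_ne_zero 0), fun b' hb' ϖ hϖ => ?_⟩
  rw [map_mul, map_mul, map_mul] at hb'
  have hbL := hcL' b' (left_ne_zero_of_mul (left_ne_zero_of_mul (left_ne_zero_of_mul hb')))
  have hbM := right_ne_zero_of_mul (left_ne_zero_of_mul (left_ne_zero_of_mul hb'))
  have hbG := right_ne_zero_of_mul (left_ne_zero_of_mul hb')
  have hb0 := right_ne_zero_of_mul hb'
  rw [eval_X] at hb0
  rw [map_sub, map_mul, map_mul, eval_C, eval_C, eval_X, eval_X] at hbM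
  refine ⟨⟨0, mul_ne_zero hϖ hb0⟩, fun t => ?_, ⟨n, ?_⟩, fun t => ?_⟩
  · by_contra hcon
    push Not at hcon
    have h1 := hcon 0
    have h2 := hcon 1
    apply hbM
    have h4 : ϖ * (w 0 * b' 1 - w 1 * b' 0) = 0 := by
      have h5 : w 0 = -(t * (ϖ * b' 0)) := eq_neg_of_add_eq_zero_left h1
      have h6 : w 1 = -(t * (ϖ * b' 1)) := eq_neg_of_add_eq_zero_left h2
      rw [h5, h6]
      ring
    exact (mul_eq_zero.mp h4).resolve_left hϖ
  · rw [eval_smul_of_hom (h.hom n)]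
    exact mul_ne_zero (pow_ne_zero _ hϖ) hbG
  · obtain ⟨i, hi⟩ := hbL (t * ϖ)
    refine ⟨i, ?_⟩
    have h1 : (fun j => w j + t * (ϖ * b' j)) = fun j => w j + t * ϖ * b' j := by
      funext j
      ring
    rw [h1]
    exact hi

/-! ## The orbit of the conjugates -/

section orbit

variable {P : Po 5 Qb} {F : Tup 5 Qb} {d : ℕ} {K₀ K₁ : IntermediateField ℚ Qb} {r : ℕ}
  {σ : Fin r → (Qb ≃+* Qb)} {x : Fin 5 → Qb}

theorem hs_eq (F' : HFam K₀) (hfix : ∀ j i, ∀ c ∈ (F i).coeffs, σ j c = c) (n : ℕ) :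
    hs F' σ (af ((pmap F)^[n] x)) = ∑ j, hn F' (af ((pmap F)^[n] fun i => σ j (x i))) := by
  rw [hs]
  refine Finset.sum_congr rfl fun j _ => ?_
  rw [← sigma_iter (σ j) (hfix j), ← sigma_af]

/-- the recursion for the heights of the conjugates of the points of the orbit -/
theorem recX (hP : Hyp P r) (hF : ∀ i, (F i).IsHomogeneous d) (hs' : Slf (Ideal.span {P}) F)
    {m : ℕ} {κ β c₀ : ℝ} {T : Finset (Po 5 Qb)} (F' : HFam K₀)
    (hrec : ∀ (μ : ℕ) (z : Fin μ → Fin 5 → Qb), (∀ j, eval (z j) P = 0) → (∀ j, z j 1 = 1) →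
          (∀ j, ∀ p ∈ T, eval (z j) p ≠ 0) → (∀ p ∈ T, ∏ j, eval (z j) p ∈ K₀) →
          κ * ∑ j, hn F' (af (pmap (it F m) (z j))) ≤
            ∑ j, hn F' (af (pmap (it F (m + m)) (z j))) + β * ∑ j, hn F' (z j) + μ * c₀)
    (hC : Cj K₀ K₁ σ) (hKF : ∀ i, ∀ c ∈ (F i).coeffs, c ∈ K₀)
    (hKT : ∀ p ∈ T, ∀ c ∈ p.coeffs, c ∈ K₀) (hKP : ∀ c ∈ P.coeffs, c ∈ K₀)
    (hx : ∀ i, x i ∈ K₁) (hxP : eval x P = 0) (hx1 : ∀ n, (pmap F)^[n] x 1 ≠ 0)
    (hxT : ∀ n, ∀ p ∈ T, eval (af ((pmap F)^[n] x)) p ≠ 0) (i : ℕ) :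
    κ * hs F' σ (af ((pmap F)^[m * (i + 1)] x)) ≤ hs F' σ (af ((pmap F)^[m * (i + 2)] x)) +
      β * hs F' σ (af ((pmap F)^[m * i] x)) + r * c₀ := by
  have hfixF : ∀ j i, ∀ c ∈ (F i).coeffs, σ j c = c := fun j i c hc => hC.fix j c (hKF i c hc)
  have hfixT : ∀ p ∈ T, ∀ j, ∀ c ∈ p.coeffs, σ j c = c :=
    fun p hp j c hc => hC.fix j c (hKT p hp c hc)
  have hfixP : ∀ j, ∀ c ∈ P.coeffs, σ j c = c := fun j c hc => hC.fix j c (hKP c hc)
  obtain ⟨y, hy⟩ : ∃ y, y = (pmap F)^[m * i] x := ⟨_, rfl⟩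
  have hy1 : y 1 ≠ 0 := by
    rw [hy]
    exact hx1 _
  have hyK : ∀ l, af y l ∈ K₁ := by
    intro l
    rw [hy]
    have h1 := orbit_mem5 (K := K₁) F (fun i c hc => hC.le (hKF i c hc)) x hx (m * i)
    exact div_mem (h1 l) (h1 1)
  have hz : ∀ n j, af ((pmap F)^[n + m * i] fun l => σ j (x l)) =
      af ((pmap F)^[n] fun l => σ j (af y l)) := by
    intro n j
    have h1 : (fun l => σ j (af y l)) = af fun l => σ j (y l) := sigma_af (σ j) y
    have h2 : (fun l => σ j (y l)) = (pmap F)^[m * i] fun l => σ j (x l) := by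
      rw [hy]
      exact sigma_iter (σ j) (hfixF j) x _
    have h3 : (fun l => σ j (y l)) 1 ≠ 0 := (map_ne_zero (σ j)).2 hy1
    rw [h1, Function.iterate_add_apply, ← h2, ← pmap_it, ← pmap_it]
    exact (af_pmap (it_hom hF n) (y := fun l => σ j (y l)) h3).symm
  have h1 := hrec r (fun j l => σ j (af y l)) (fun j => by
      rw [← sigma_eval (σ j) (hfixP j)]
      have h2 : eval y P = 0 := by
        rw [hy]
        exact zer_iterate hs'.inv (zer_span.mpr hxP) _ P (Ideal.mem_span_singleton_self P)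
      have h3 : eval (af y) P = 0 := by
        have h4 := eval_af hP.hom hy1
        rw [h2] at h4
        exact (mul_eq_zero.1 h4.symm).resolve_left (pow_ne_zero _ hy1)
      rw [h3, map_zero]) (fun j => by
      rw [af_one hy1, map_one]) (fun j p hp => by
      rw [← sigma_eval (σ j) (hfixT p hp j)]
      apply (map_ne_zero (σ j)).2
      rw [hy]
      exact hxT _ p hp) (fun p hp => by
      have h2 : ∀ j, eval (fun l => σ j (af y l)) p = σ j (eval (af y) p) := fun j =>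
        (sigma_eval (σ j) (hfixT p hp j) _).symm
      rw [Finset.prod_congr rfl fun j _ => h2 j]
      apply hC.nrm
      exact Pool.Agent.H8.TD.eval_mem p _ (fun c hc => hC.le (hKT p hp c hc)) hyK)
  have e0 : hs F' σ (af ((pmap F)^[m * i] x)) = ∑ j, hn F' (fun l => σ j (af y l)) := by
    rw [hs, hy]
  have e1 : hs F' σ (af ((pmap F)^[m * (i + 1)] x)) =
      ∑ j, hn F' (af (pmap (it F m) fun l => σ j (af y l))) := by
    rw [hs_eq F' hfixF]
    refine Finset.sum_congr rfl fun j _ => ?_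
    have h2 : m * (i + 1) = m + m * i := by ring
    rw [h2, hz, pmap_it]
  have e2 : hs F' σ (af ((pmap F)^[m * (i + 2)] x)) =
      ∑ j, hn F' (af (pmap (it F (m + m)) fun l => σ j (af y l))) := by
    rw [hs_eq F' hfixF]
    refine Finset.sum_congr rfl fun j _ => ?_
    have h2 : m * (i + 2) = (m + m) + m * i := by ring
    rw [h2, hz, pmap_it]
  rw [e0, e1, e2]
  exact h1

end orbit

end Pool.Agent.H8.TX
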