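import Pool.Agent.H8.TX.Core

/-!
# Zariski dense orbits on threefolds: the core, part 2 (the first heights, the conjugates)
-/

set_option autoImplicit false

open MvPolynomial
open Pool.Agent.H12.ZD (pmap)
open Pool.Agent.H18.HIT Pool.Agent.H18.HX Pool.Agent.H18.VZ
open Pool.Agent.H8.ZA (HFam Const NA)
open Pool.Agent.H8.TD (lc dg Wsp Cop dh lc_single lc_map lc_iterate)

namespace Pool.Agent.H8.TX

theorem eval_sF (F : Tup 5 Qb) (n : ℕ) (s : Fin 5 → Qb) (z : Fin 5 → Qb) :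
    eval z (sF F n s) / eval z (it F n 1) = lc s (af (pmap (it F n) z)) := by
  rw [sF, map_sum, lc, Finset.sum_div]
  refine Finset.sum_congr rfl fun i _ => ?_
  rw [map_mul, eval_C, af, smul_eq_mul, mul_div_assoc]
  rfl

/-- the roots of `P` over a point and the automorphisms -/
theorem conjX (hCJX : T_CJX) {P : Po 5 Qb} {r : ℕ} (hP : Hyp P r) (S : Finset Qb)
    (hPS : ∀ c ∈ P.coeffs, c ∈ S) {x : Fin 5 → Qb}
    (hx : ∀ i : Fin 4, x i.succ ∈ IntermediateField.adjoin ℚ (S : Set Qb))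
    (hgal : ∀ x' : Fin 5 → Qb, eval x' P = 0 → (∀ i : Fin 4, x' i.succ = x i.succ) →
      ∃ σ : Qb ≃+* Qb, (∀ a ∈ S, σ a = a) ∧ ∀ i, σ (x i) = x' i) :
    ∃ (u : Fin r → Qb) (σ : Fin r → (Qb ≃+* Qb)) (K₁ : IntermediateField ℚ Qb),
      (finSuccEquiv Qb 4 P).map (eval (tl x)) = ∏ j, (Polynomial.X - Polynomial.C (u j)) ∧
      Cj (IntermediateField.adjoin ℚ (S : Set Qb)) K₁ σ ∧ (∀ i, x i ∈ K₁) ∧
      ∀ j, (fun i => σ j (x i)) = Fin.cons (u j) (tl x) := by
  have hmon : ((finSuccEquiv Qb 4 P).map (eval (tl x))).Monic := by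
    have h1 : (finSuccEquiv Qb 4 P).Monic := hP.mon
    exact h1.map _
  have hdeg : ((finSuccEquiv Qb 4 P).map (eval (tl x))).natDegree = r := by
    have h1 : (finSuccEquiv Qb 4 P).Monic := hP.mon
    rw [h1.natDegree_map]
    exact Pool.Agent.H86.BV.natDeg_of hP.hom hP.mon
  obtain ⟨u, hu⟩ := exists_roots _ hmon hdeg
  have hσ : ∀ j, ∃ σ : Qb ≃+* Qb, (∀ a ∈ S, σ a = a) ∧
      ∀ i, σ (x i) = (Fin.cons (u j) (tl x) : Fin 5 → Qb) i := by
    intro j
    apply hgal _ (root_of hu j)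
    intro i
    rw [Fin.cons_succ]
    rfl
  choose σ hσS hσx using hσ
  have hfix : ∀ j, ∀ z ∈ IntermediateField.adjoin ℚ (S : Set Qb), σ j z = z := fun j =>
    fix_adjoin (S : Set Qb) (σ j) fun a ha => hσS j a (Finset.mem_coe.mp ha)
  refine ⟨u, σ, IntermediateField.adjoin ℚ (S : Set Qb) ⊔ IntermediateField.adjoin ℚ {x 0}, hu,
    hCJX _ r ((finSuccEquiv Qb 4 P).map (eval (tl x))) u (x 0) σ (fun j => ?_) hu hfix
      (fun j => ?_), fun i => ?_, fun j => funext (hσx j)⟩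
  · rw [Polynomial.coeff_map]
    apply Pool.Agent.H8.TD.eval_mem
    · intro c hc
      apply IntermediateField.subset_adjoin ℚ _
      apply hPS
      rw [mem_coeffs_iff] at hc ⊢
      obtain ⟨γ, hγ, rfl⟩ := hc
      refine ⟨Finsupp.cons j γ, ?_, ?_⟩
      · rw [mem_support_iff, ← finSuccEquiv_coeff_coeff]
        exact mem_support_iff.1 hγ
      · rw [finSuccEquiv_coeff_coeff]
    · exact hx
  · have h1 := hσx j 0
    rw [Fin.cons_zero] at h1
    exact h1
  · refine Fin.cases ?_ (fun i => ?_) i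
    · apply (le_sup_right : _ ≤ IntermediateField.adjoin ℚ (S : Set Qb) ⊔
        IntermediateField.adjoin ℚ {x 0})
      exact IntermediateField.subset_adjoin ℚ _ rfl
    · apply (le_sup_left : _ ≤ IntermediateField.adjoin ℚ (S : Set Qb) ⊔
        IntermediateField.adjoin ℚ {x 0})
      exact hx i

/-- the heights of the first two points of the orbit -/
theorem firstX {P : Po 5 Qb} {F : Tup 5 Qb} {r : ℕ} {K₀ K₁ : IntermediateField ℚ Qb}
    {σ : Fin r → (Qb ≃+* Qb)} {x : Fin 5 → Qb} (F' : HFam K₀) (hC : Cj K₀ K₁ σ)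
    (hKF : ∀ i, ∀ c ∈ (F i).coeffs, c ∈ K₀) {u : Fin r → Qb}
    (hu : (finSuccEquiv Qb 4 P).map (eval (tl x)) = ∏ j, (Polynomial.X - Polynomial.C (u j)))
    (hσx : ∀ j, (fun i => σ j (x i)) = Fin.cons (u j) (tl x)) {A cA cB cl : ℝ} {m a : ℕ}
    {s : Fin 5 → Qb}
    (hHT : ∀ u : Qb, eval (Fin.cons u (tl x) : Fin 5 → Qb) P = 0 →
      |hn F' (af (Fin.cons u (tl x) : Fin 5 → Qb)) - A| ≤ cB)
    (hST : ∀ u : Fin r → Qb,
      (finSuccEquiv Qb 4 P).map (eval (tl x)) = ∏ j, (Polynomial.X - Polynomial.C (u j)) →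
      a * A ≤ ∑ j, hn F' ![eval (Fin.cons (u j) (tl x) : Fin 5 → Qb) (sF F m s) /
        eval (Fin.cons (u j) (tl x) : Fin 5 → Qb) (it F m 1)] + cA)
    (hcl : ∀ x : Fin 5 → Qb, hn F' ![lc s x] ≤ hn F' x + cl) :
    |hs F' σ (af ((pmap F)^[m * 0] x)) - r * A| ≤ r * |cB| ∧
    a * A - (|cA| + r * |cl|) ≤ hs F' σ (af ((pmap F)^[m * 1] x)) := by
  have hfixF : ∀ j i, ∀ c ∈ (F i).coeffs, σ j c = c := fun j i c hc => hC.fix j c (hKF i c hc)
  rw [Nat.mul_zero, Nat.mul_one, hs_eq F' hfixF, hs_eq F' hfixF]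
  constructor
  · have h1 : ∑ j, hn F' (af ((pmap F)^[0] fun i => σ j (x i))) - r * A =
        ∑ j, (hn F' (af (Fin.cons (u j) (tl x) : Fin 5 → Qb)) - A) := by
      rw [Finset.sum_sub_distrib, Finset.sum_const, Finset.card_univ, Fintype.card_fin,
        nsmul_eq_mul]
      congr 1
      refine Finset.sum_congr rfl fun j _ => ?_
      rw [Function.iterate_zero, id, hσx]
    rw [h1]
    refine (Finset.abs_sum_le_sum_abs _ _).trans ?_
    refine (Finset.sum_le_sum fun j _ => (hHT (u j) (root_of hu j)).trans (le_abs_self cB)).trans ?_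
    rw [Finset.sum_const, Finset.card_univ, Fintype.card_fin, nsmul_eq_mul]
  · have h1 := hST u hu
    have h2 : ∑ j, hn F' ![eval (Fin.cons (u j) (tl x) : Fin 5 → Qb) (sF F m s) /
        eval (Fin.cons (u j) (tl x) : Fin 5 → Qb) (it F m 1)] ≤
        ∑ j, (hn F' (af ((pmap F)^[m] fun i => σ j (x i))) + |cl|) := by
      refine Finset.sum_le_sum fun j _ => ?_
      rw [eval_sF, hσx, ← pmap_it]
      exact (hcl _).trans (add_le_add le_rfl (le_abs_self _))
    rw [Finset.sum_add_distrib, Finset.sum_const, Finset.card_univ, Fintype.card_fin,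
      nsmul_eq_mul] at h2
    have h3 := le_abs_self cA
    linarith

end Pool.Agent.H8.TX
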