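import Pool.Agent.H8.TD.Targets
import Pool.Agent.H18.VZ.Targets

/-!
# Zariski dense orbits on threefolds: definitions

`P` is a form in `X 0, ..., X 4` which is irreducible and monic in `X 0`; `P = 0` is the cone over a
model of the threefold. Affine coordinates are the quotients by `X 1`.
-/

open MvPolynomial
open Pool.Agent.H12.ZD (pmap)
open Pool.Agent.H18.HIT Pool.Agent.H18.HX Pool.Agent.H18.VZ
open Pool.Agent.H8.ZA (HFam Const NA sz)
open Pool.Agent.H8.TD (lc dg Wsp Cop)

namespace Pool.Agent.H8.TX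

section fields

variable {k : Type} [Field k]

/-- the last four coordinates -/
def tl {K : Type} (x : Fin 5 → K) : Fin 4 → K := fun i => x i.succ

/-- affine coordinates of a point of projective 4-space -/
def af (y : Fin 5 → k) : Fin 5 → k := fun i => y i / y 1

/-- `M` bounds the intersection numbers of three linear systems -/
def Bg (k : Type) {K : Type} [Field k] [Field K] [Algebra k K] {a b c : ℕ} (α : Fin a → K)
    (β : Fin b → K) (γ : Fin c → K) (M : ℕ) : Prop :=
  ∀ (s : Fin a → k) (s' : Fin b → k) (s'' : Fin c → k), dg k {lc s α, lc s' β, lc s'' γ} ≤ M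

/-- `ξ` is the generic point of the threefold `P = 0`, with `ξ 1 = 1`, in its field of rational
functions `K` -/
structure Gp (P : Po 5 k) {K : Type} [Field K] [Algebra k K] (ξ : Fin 5 → K) : Prop where
  one : ξ 1 = 1
  top : IntermediateField.adjoin k (Set.range ξ) = ⊤
  iff : ∀ (s : ℕ) (q : Po 5 k), q.IsHomogeneous s → (aeval ξ q = 0 ↔ P ∣ q)
  trd : Algebra.trdeg k K = 3

/-- `τ` is the composition with the rational self-map `F` of the threefold -/
structure Fd (P : Po 5 k) (F : Tup 5 k) {K : Type} [Field K] [Algebra k K] (ξ : Fin 5 → K)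
    (τ : K →ₐ[k] K) : Prop where
  gp : Gp P ξ
  eq : ∀ i, τ (ξ i) * aeval ξ (F 1) = aeval ξ (F i)

/-- the coordinates of the `n`-th iterate -/
def pn {K : Type} [Field K] [Algebra k K] (τ : K →ₐ[k] K) (ξ : Fin 5 → K) (n : ℕ) : Fin 5 → K :=
  fun i => τ^[n] (ξ i)

/-- the minimal polynomial `∑ C_j T ^ j` of the function `p / q` over the functions in `X 1, ...,
X 4`; its coefficients are forms of degree `D` -/
structure Npd (P : Po 5 k) (r : ℕ) (p q : Po 5 k) (D n : ℕ) (C : ℕ → Po 4 k) (B : Po 4 k) :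
    Prop where
  pos : 1 ≤ n
  hom : ∀ j, (C j).IsHomogeneous D
  top : C n ≠ 0
  zero : ∀ j, n < j → C j = 0
  irr : Irreducible (∑ j ∈ Finset.range (n + 1), Polynomial.C (C j) * Polynomial.X ^ j)
  rel : P ∣ ∑ j ∈ Finset.range (n + 1), up (C j) * (p ^ j * q ^ (n - j))
  bne : B ≠ 0
  spc : ∀ w : Fin 4 → k, eval w B ≠ 0 → ∀ u : Fin r → k,
    (finSuccEquiv k 4 P).map (eval w) = ∏ j, (Polynomial.X - Polynomial.C (u j)) →
    (∀ j, eval (Fin.cons (u j) w : Fin 5 → k) q ≠ 0) ∧ eval w (C n) ≠ 0 ∧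
    (∑ j ∈ Finset.range (n + 1), Polynomial.C (eval w (C j)) * Polynomial.X ^ j) ∣
      ∏ j, (Polynomial.X - Polynomial.C (eval (Fin.cons (u j) w : Fin 5 → k) p /
        eval (Fin.cons (u j) w : Fin 5 → k) q))

end fields

section heights

/-- the maximum of `1` and the absolute values of the coordinates -/
noncomputable def szn {k : Type} [CommRing k] {n : ℕ} (v : AbsoluteValue k ℝ) (x : Fin n → k) :
    ℝ := Finset.univ.fold max 1 fun i => v (x i)

/-- the maximum of the absolute values of the coordinates -/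
noncomputable def mxn {k : Type} [CommRing k] {n : ℕ} (v : AbsoluteValue k ℝ) (x : Fin n → k) :
    ℝ := Finset.univ.fold max 0 fun i => v (x i)

/-- the height of a point of affine space -/
noncomputable def hn {K : IntermediateField ℚ Qb} (F : HFam K) {n : ℕ} (x : Fin n → Qb) : ℝ :=
  ∑ᶠ i, Real.log (szn (F.abv i) x)

/-- the height of a vector -/
noncomputable def hp {K : IntermediateField ℚ Qb} (F : HFam K) {n : ℕ} (x : Fin n → Qb) : ℝ :=
  ∑ᶠ i, Real.log (mxn (F.abv i) x)

/-- the norm of the elements of `K₁` with respect to the automorphisms `σ j`, which are the identity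
on `K₀`, is in `K₀` -/
structure Cj (K₀ K₁ : IntermediateField ℚ Qb) {r : ℕ} (σ : Fin r → (Qb ≃+* Qb)) : Prop where
  le : K₀ ≤ K₁
  fix : ∀ j, ∀ z ∈ K₀, σ j z = z
  nrm : ∀ z ∈ K₁, ∏ j, σ j z ∈ K₀

/-- the sum of the heights of the conjugates -/
noncomputable def hs {K : IntermediateField ℚ Qb} (F : HFam K) {r : ℕ} (σ : Fin r → (Qb ≃+* Qb))
    {n : ℕ} (x : Fin n → Qb) : ℝ := ∑ j, hn F fun i => σ j (x i)

end heights

/-- growth condition, first kind -/
def HI (Λ e d D M m : ℕ) : Prop := Λ * (d * e ^ m) < D ∧ Λ * (M * d) ≤ D ^ 2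

/-- growth condition, second kind -/
def HII (Λ e d M Y m : ℕ) : Prop := Λ * (M * e ^ m) < Y ∧ Λ * (e ^ m * (d * d) * M) ≤ Y ^ 2

end Pool.Agent.H8.TX
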