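import Pool.Agent.H8.TX.Basic
import Pool.Agent.H8.TD.Slow

/-!
# Zariski dense orbits on threefolds: slow growth along a curve
-/

set_option autoImplicit false

open MvPolynomial
open Pool.Agent.H12.ZD (pmap)
open Pool.Agent.H18.HIT Pool.Agent.H18.HX Pool.Agent.H18.VZ
open Pool.Agent.H8.ZA (HFam Const NA)
open Pool.Agent.H8.TD (lc dg Wsp Cop dh)

namespace Pool.Agent.H8.TX

section

variable {K₀ K₁ : IntermediateField ℚ Qb} {r : ℕ}

theorem hs_nonneg (F : HFam K₀) (σ : Fin r → (Qb ≃+* Qb)) {n : ℕ} (x : Fin n → Qb) :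
    0 ≤ hs F σ x := Finset.sum_nonneg fun j _ => hn_nonneg _ _

theorem hs_le_sum (F : HFam K₀) (σ : Fin r → (Qb ≃+* Qb)) {n : ℕ} (x : Fin n → Qb) :
    hs F σ x ≤ ∑ i, ∑ j, hn F ![σ j (x i)] := by
  rw [Finset.sum_comm]
  exact Finset.sum_le_sum fun j _ => hn_le_sum F fun i => σ j (x i)

theorem hs_coord (F : HFam K₀) (σ : Fin r → (Qb ≃+* Qb)) {n : ℕ} (x : Fin n → Qb) (i : Fin n) :
    ∑ j, hn F ![σ j (x i)] ≤ hs F σ x :=
  Finset.sum_le_sum fun j _ => hn_coord F (fun i => σ j (x i)) i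

/-- slow growth of the heights along an orbit in a totally invariant curve -/
theorem slowX (hRLA : T_RLA) (hRLB : T_RLB) (hHRX : T_HRX) (F : HFam K₀)
    (σ : Fin r → (Qb ≃+* Qb)) (hC : Cj K₀ K₁ σ) (P θ Δ : Po 5 Qb) (T : Tup 5 Qb) (D e E : ℕ)
    (S S' : Po 4 Qb) (y : Fin 5 → Qb) (hD : 1 ≤ D) (hT : ∀ i, (T i).IsHomogeneous D)
    (hprime : (van T y).IsPrime) (hhom : Hmi (van T y)) (hmon : Mny P) (hPV : P ∈ van T y)
    (hiff : ∀ q, aeval T q ∈ van T y ↔ q ∈ van T y) (hB : Bas P T E θ Δ) (hΔ : Δ ∉ van T y)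
    (hE : E ≤ D * e) (hS : up S ∈ van T y) (hS' : up S' ∈ van T y) (hS0 : S ≠ 0)
    (hS0' : S' ≠ 0) (hrel : IsRelPrime S S') (hK : ∀ l s, (pmap T)^[l] y s ∈ K₁)
    (h0 : ∀ l, (pmap T)^[l] y 1 ≠ 0) :
    ∃ M : ℕ, ∀ n : ℕ, ∃ c : ℝ, ∀ l, hs F σ (af ((pmap T)^[n + l] y)) ≤
      M * (e : ℝ) ^ n * hs F σ (af ((pmap T)^[l] y)) + c := by
  by_cases hc : ∃ j : Fin 5, ∀ c : Qb, ∃ l, (pmap T)^[l] y j ≠ c * (pmap T)^[l] y 1
  · obtain ⟨j', hj⟩ := hc
    have hX : X 1 ∉ van T y := by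
      intro h
      have h1 := h 0
      rw [eval_X] at h1
      exact h0 0 h1
    choose M hM using fun i : Fin 5 => hRLA Qb P θ Δ (van T y) T D e E S S' hprime hD hT hhom hX
      hmon hPV hiff hB hΔ hE hS hS' hS0 hS0' hrel i j'
    refine ⟨∑ i, M i, fun n => ?_⟩
    have hkey : ∀ i : Fin 5, ∃ c : ℝ, ∀ l, ∑ j, hn F ![σ j (af ((pmap T)^[n + l] y) i)] ≤
        M i * (e : ℝ) ^ n * hs F σ (af ((pmap T)^[l] y)) + c := by
      intro i
      obtain ⟨G, hG0, hGdeg, hG⟩ := hM i n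
      obtain ⟨G', hG'K, hG'deg, hG'cop, hG'⟩ := hRLB K₁ T y n (M i * e ^ n) i j' G hK h0
        hprime hj hG0 hGdeg (fun l => by
          have h1 := hG ((pmap T)^[l] y) (fun q hq => hq l) (h0 l) (by
            rw [← Function.iterate_add_apply]
            exact h0 _)
          rw [← Function.iterate_add_apply] at h1
          exact h1)
      obtain ⟨c, hc⟩ := hHRX K₀ K₁ F r (M i * e ^ n) σ G' hC hG'K hG'deg hG'cop
      refine ⟨c, fun l => ?_⟩
      have h1 := hc ((pmap T)^[l] y j' / (pmap T)^[l] y 1) ((pmap T)^[n + l] y i /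
        (pmap T)^[n + l] y 1) (div_mem (hK _ _) (hK _ _)) (hG' l)
      have h2 := hs_coord F σ (af ((pmap T)^[l] y)) j'
      have h3 : ((M i * e ^ n : ℕ) : ℝ) = M i * (e : ℝ) ^ n := by push_cast; ring
      rw [h3] at h1
      refine h1.trans ?_
      have h4 : (0 : ℝ) ≤ M i * (e : ℝ) ^ n := by positivity
      exact add_le_add (mul_le_mul_of_nonneg_left h2 h4) le_rfl
    choose c hc using hkey
    refine ⟨∑ i, c i, fun l => ?_⟩
    refine (hs_le_sum F σ _).trans ((Finset.sum_le_sum fun i _ => hc i l).trans ?_)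
    rw [Finset.sum_add_distrib, ← Finset.sum_mul, ← Finset.sum_mul, Nat.cast_sum]
  · push Not at hc
    choose c hc using hc
    refine ⟨0, fun n => ⟨hs F σ c, fun l => ?_⟩⟩
    have h1 : af ((pmap T)^[n + l] y) = c := by
      funext i
      rw [af, hc i (n + l), mul_div_cancel_right₀ _ (h0 _)]
    rw [h1, Nat.cast_zero, zero_mul, zero_mul, zero_add]

end

end Pool.Agent.H8.TX
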