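import Pool.Agent.H8.TX.Rec4
import Pool.Agent.H8.TX.Slow
import Pool.Agent.H8.TD.Core
import Pool.Agent.H86.BV.NRD
import Pool.Agent.H18.VZ.FinZZ

/-!
# Zariski dense orbits on threefolds: lemmas for the core
-/

set_option autoImplicit false

open MvPolynomial
open Pool.Agent.H12.ZD (pmap)
open Pool.Agent.H18.HIT Pool.Agent.H18.HX Pool.Agent.H18.VZ
open Pool.Agent.H8.ZA (HFam Const NA)
open Pool.Agent.H8.TD (lc dg Wsp Cop dh lc_single lc_map lc_iterate)

namespace Pool.Agent.H8.TX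

/-! ## Homogenization -/

section hmg

variable {k : Type} [Field k]

/-- homogenization with respect to the coordinate `X 1` -/
noncomputable def hmg (p : Po 5 k) : Po 5 k :=
  ∑ t ∈ Finset.range (p.totalDegree + 1), X 1 ^ (p.totalDegree - t) * homogeneousComponent t p

theorem hmg_hom (p : Po 5 k) : (hmg p).IsHomogeneous p.totalDegree := by
  apply IsHomogeneous.sum
  intro t ht
  have h1 : t ≤ p.totalDegree := Nat.lt_succ_iff.mp (Finset.mem_range.mp ht)
  have h2 := ((isHomogeneous_X k (1 : Fin 5)).pow (p.totalDegree - t)).mul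
    (homogeneousComponent_isHomogeneous t p)
  rwa [one_mul, Nat.sub_add_cancel h1] at h2

theorem sum_hc (p : Po 5 k) :
    ∑ t ∈ Finset.range (p.totalDegree + 1), homogeneousComponent t p = p :=
  sum_homogeneousComponent p

theorem aeval_hmg {K : Type} [Field K] [Algebra k K] (p : Po 5 k) (y : Fin 5 → K)
    (hy : y 1 = 1) : aeval y (hmg p) = aeval y p := by
  rw [hmg, map_sum]
  conv_rhs => rw [← sum_hc p, map_sum]
  refine Finset.sum_congr rfl fun t _ => ?_
  rw [map_mul, map_pow, aeval_X, hy, one_pow, one_mul]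

theorem eval_hmg_one (p : Po 5 k) (y : Fin 5 → k) (hy : y 1 = 1) :
    eval y (hmg p) = eval y p := by
  rw [hmg, map_sum]
  conv_rhs => rw [← sum_hc p, map_sum]
  refine Finset.sum_congr rfl fun t _ => ?_
  rw [map_mul, map_pow, eval_X, hy, one_pow, one_mul]

end hmg

theorem af_one {y : Fin 5 → Qb} (hy : y 1 ≠ 0) : af y 1 = 1 := div_self hy

theorem eval_hmg (p : Po 5 Qb) {y : Fin 5 → Qb} (hy : y 1 ≠ 0) :
    eval y (hmg p) = y 1 ^ p.totalDegree * eval (af y) p := by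
  rw [eval_af (hmg_hom p) hy, eval_hmg_one p (af y) (af_one hy)]

theorem af_af {y : Fin 5 → Qb} (hy : y 1 ≠ 0) : af (af y) = af y := by
  funext i
  rw [af, af_one hy, div_one]

/-- a homogeneous map and affine coordinates -/
theorem af_pmap {T : Tup 5 Qb} {D : ℕ} (hT : ∀ i, (T i).IsHomogeneous D) {y : Fin 5 → Qb}
    (hy : y 1 ≠ 0) : af (pmap T (af y)) = af (pmap T y) := by
  have h1 : pmap T y = fun i => y 1 ^ D * pmap T (af y) i := by
    funext i
    exact eval_af (hT i) hy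
  rw [h1]
  exact (af_smul (pow_ne_zero _ hy) _).symm

/-! ## Roots -/

theorem exists_roots {r : ℕ} (f : Polynomial Qb) (hf : f.Monic) (hr : f.natDegree = r) :
    ∃ u : Fin r → Qb, f = ∏ j, (Polynomial.X - Polynomial.C (u j)) := by
  have h1 : f = (f.roots.map fun a => Polynomial.X - Polynomial.C a).prod := by
    have h2 := (IsAlgClosed.splits f).eq_prod_roots
    rw [hf.leadingCoeff, Polynomial.C_1, one_mul] at h2
    exact h2
  have h3 : Multiset.card f.roots = r := by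
    rw [← hr]
    exact IsAlgClosed.card_roots_eq_natDegree
  obtain ⟨l, hl⟩ : ∃ l : List Qb, (l : Multiset Qb) = f.roots := Quot.exists_rep _
  have hlen : l.length = r := by
    rw [← Multiset.coe_card, hl, h3]
  subst hlen
  refine ⟨fun j => l.get j, ?_⟩
  rw [← hl] at h1
  rw [Multiset.map_coe, Multiset.prod_coe] at h1
  conv_lhs => rw [h1]
  rw [← List.prod_ofFn]
  congr 1
  apply List.ext_getElem
  · rw [List.length_map, List.length_ofFn]
  · intro n h4 h5
    rw [List.getElem_map, List.getElem_ofFn]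
    rfl

theorem root_of {r : ℕ} {P : Po 5 Qb} {w : Fin 4 → Qb} {u : Fin r → Qb}
    (h : (finSuccEquiv Qb 4 P).map (eval w) = ∏ j, (Polynomial.X - Polynomial.C (u j))) (j : Fin r) :
    eval (Fin.cons (u j) w : Fin 5 → Qb) P = 0 := by
  rw [eval_eq_eval_mv_eval', h, Polynomial.eval_prod]
  apply Finset.prod_eq_zero (Finset.mem_univ j)
  rw [Polynomial.eval_sub, Polynomial.eval_X, Polynomial.eval_C, sub_self]

theorem one_le_r {r : ℕ} {P : Po 5 Qb} (hP : Hyp P r) : 1 ≤ r := by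
  by_contra hr0
  have hr0' : r = 0 := by omega
  apply hP.irr.not_isUnit
  have h1 : P.totalDegree = 0 := by
    have := hP.hom.totalDegree_le
    omega
  rw [totalDegree_eq_zero_iff_eq_C] at h1
  rw [h1, isUnit_map_iff, isUnit_iff_ne_zero]
  intro h0
  rw [h0, C_0] at h1
  exact hP.irr.ne_zero h1

/-! ## Closed subsets of codimension at least two -/

theorem avx {k : Type} [Field k] {r : ℕ} {P : Po 5 k} {V : Ideal (Po 5 k)} (hP : Hyp P r)
    (hV : V.IsPrime) (hPV : P ∈ V) (hex : ∃ c ∈ V, ¬ P ∣ c) (hno : ¬ ∃ h, Pdv P V h) :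
    ∃ S S' : Po 4 k, up S ∈ V ∧ up S' ∈ V ∧ S ≠ 0 ∧ S' ≠ 0 ∧ IsRelPrime S S' := by
  obtain ⟨W, hW⟩ : ∃ W : Ideal (Po 4 k), W = V.comap (rename Fin.succ : Po 4 k →ₐ[k] Po 5 k) :=
    ⟨_, rfl⟩
  have hmem : ∀ c : Po 4 k, c ∈ W ↔ up c ∈ V := by
    intro c
    rw [hW, Ideal.mem_comap]
    rfl
  have hWp : W.IsPrime := by
    rw [hW]
    exact Ideal.comap_isPrime _ _
  have hW0 : W ≠ ⊥ := by
    intro h0
    obtain ⟨c, hc, hPc⟩ := hex
    obtain ⟨c', A, hc', hdvd⟩ := Pool.Agent.H18.HX.All.nrx 4 k P c hP.irr hP.mon hPc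
    apply hc'
    have h1 : c' ∈ W := by
      rw [hmem]
      have h2 : up c' = (up c' - c * A) + c * A := by ring
      rw [h2]
      exact V.add_mem (V.mem_of_dvd hdvd hPV) (V.mul_mem_right _ hc)
    rw [h0] at h1
    exact h1
  by_cases hcase : ∀ w : Po 4 k, Irreducible w → ∃ c ∈ W, ¬ w ∣ c
  · obtain ⟨S, hS, S', hS', hS0, hS0', hrel⟩ :=
      Pool.Agent.H18.HIT.All.avo 4 k W hW0 hcase
    exact ⟨S, S', (hmem S).1 hS, (hmem S').1 hS', hS0, hS0', hrel⟩
  · exfalso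
    push Not at hcase
    obtain ⟨w, hw, hdvd⟩ := hcase
    obtain ⟨Y, hY, hYp⟩ := hWp.exists_mem_prime_of_ne_bot hW0
    have hwW : w ∈ W := by
      have h1 : Associated w Y := hw.associated_of_dvd hYp.irreducible (hdvd Y hY)
      obtain ⟨u, hu⟩ := h1.symm
      rw [← hu]
      exact Ideal.mul_mem_right _ _ hY
    exact hno ⟨w, hV, hPV, hw, fun c => by
      rw [← hmem]
      refine ⟨hdvd c, ?_⟩
      rintro ⟨d, rfl⟩
      exact Ideal.mul_mem_right _ _ hwW⟩

/-! ## Automorphisms -/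

section auto

theorem sigma_eval {N : ℕ} (σ : Qb ≃+* Qb) {q : Po N Qb} (hq : ∀ c ∈ q.coeffs, σ c = c)
    (y : Fin N → Qb) : σ (eval y q) = eval (fun i => σ (y i)) q := by
  rw [eval_eq', eval_eq', map_sum]
  refine Finset.sum_congr rfl fun m hm => ?_
  rw [map_mul, map_prod]
  congr 1
  · exact hq _ (by rw [mem_coeffs_iff]; exact ⟨m, hm, rfl⟩)
  · exact Finset.prod_congr rfl fun i _ => map_pow _ _ _

theorem sigma_af (σ : Qb ≃+* Qb) (y : Fin 5 → Qb) : (fun i => σ (af y i)) = af fun i => σ (y i) := by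
  funext i
  rw [af, af, map_div₀]

theorem sigma_pmap {N : ℕ} (σ : Qb ≃+* Qb) {T : Tup N Qb} (hT : ∀ i, ∀ c ∈ (T i).coeffs, σ c = c)
    (y : Fin N → Qb) : (fun i => σ (pmap T y i)) = pmap T fun i => σ (y i) := by
  funext i
  exact sigma_eval σ (hT i) y

theorem sigma_iter {N : ℕ} (σ : Qb ≃+* Qb) {T : Tup N Qb} (hT : ∀ i, ∀ c ∈ (T i).coeffs, σ c = c)
    (y : Fin N → Qb) (n : ℕ) : (fun i => σ ((pmap T)^[n] y i)) = (pmap T)^[n] fun i => σ (y i) := by
  induction n with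
  | zero => rfl
  | succ n ih =>
    rw [Function.iterate_succ_apply', Function.iterate_succ_apply', ← ih]
    exact sigma_pmap σ hT _

/-- an automorphism fixing the generators fixes the field -/
theorem fix_adjoin (S : Set Qb) (σ : Qb ≃+* Qb) (h : ∀ a ∈ S, σ a = a) :
    ∀ z ∈ IntermediateField.adjoin ℚ S, σ z = z := by
  intro z hz
  induction hz using IntermediateField.adjoin_induction with
  | mem x hx => exact h x hx
  | algebraMap q => exact map_ratCast σ q
  | add x y _ _ hx hy => rw [map_add, hx, hy]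
  | inv x _ hx => rw [map_inv₀, hx]
  | mul x y _ _ hx hy => rw [map_mul, hx, hy]

theorem orbit_mem5 {N : ℕ} {K : IntermediateField ℚ Qb} (F : Tup N Qb)
    (hF : ∀ i, ∀ c ∈ (F i).coeffs, c ∈ K) (x : Fin N → Qb) (hx : ∀ i, x i ∈ K) (n : ℕ)
    (i : Fin N) : (pmap F)^[n] x i ∈ K := by
  induction n generalizing i with
  | zero => exact hx i
  | succ n ih =>
    rw [Function.iterate_succ_apply']
    exact Pool.Agent.H8.TD.eval_mem (F i) _ (hF i) ih

end auto

/-! ## Numbers -/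

/-- the first heights and the recursion give growth -/
theorem startX {h : ℕ → ℝ} {κ β c₀ A B C a r : ℝ} (hr : 1 ≤ r) (hκ : 2 < κ) (hβ : 0 ≤ β)
    (hβκ : 8 * β ≤ κ ^ 2) (ha : 45 * r * κ ≤ a)
    (hrec : ∀ j, κ * h (j + 1) ≤ h (j + 2) + β * h j + c₀)
    (hA0 : |h 0 - r * A| ≤ B) (hA1 : a * A - C ≤ h 1) (hC : 0 ≤ C)
    (hA : 3 * B + 2 * C + 2 * |c₀| + 1 ≤ A) :
    0 < h 0 ∧ ∀ j, h 0 ≤ h j ∧ κ / 2 * h j ≤ h (j + 1) := by
  have hB : 0 ≤ B := (abs_nonneg _).trans hA0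
  have hc := abs_nonneg c₀
  have hA' : 0 ≤ A := by linarith
  obtain ⟨h1, h2⟩ := abs_le.mp hA0
  have hrA : 1 * A ≤ r * A := mul_le_mul_of_nonneg_right hr hA'
  have h0 : 0 < h 0 := by linarith
  refine ⟨h0, Pool.Agent.H8.TD.grow h hκ hβ hβκ hrec h0 (by linarith) ?_⟩
  have hκ0 : 0 < κ := by linarith
  have h3 : κ / 2 * h 0 ≤ κ / 2 * (r * A + B) := mul_le_mul_of_nonneg_left (by linarith)
    (by linarith)
  have h4 : κ * r * A ≤ a / 45 * A := mul_le_mul_of_nonneg_right (by linarith) hA'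
  have h5 : κ * B ≤ κ * (r * A) := mul_le_mul_of_nonneg_left (by linarith) hκ0.le
  have h6 : (90 : ℝ) ≤ a := by
    have h7 : 1 * κ ≤ r * κ := mul_le_mul_of_nonneg_right hr hκ0.le
    linarith
  have h7 : C ≤ a / 2 * A := by
    have h8 : 1 * A ≤ a / 2 * A := mul_le_mul_of_nonneg_right (by linarith) hA'
    linarith
  have h9 : a / 45 * A ≤ a / 2 * A := mul_le_mul_of_nonneg_right (by linarith) hA'
  have h10 : κ / 2 * (r * A + B) = (κ * r * A + κ * B) / 2 := by ring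
  have h11 : κ * (r * A) = κ * r * A := by ring
  linarith

/-- the points of the orbit of a point with slow growth cannot be too high -/
theorem contraX {h : ℕ → ℝ} {k m e : ℕ} (hk : 1 ≤ k) (he : 1 ≤ e) {κ : ℝ}
    (hκe : 2 * (e : ℝ) ^ m < κ)
    (hgrow : ∀ j, h (m * 0) ≤ h (m * j) ∧ κ / 2 * h (m * j) ≤ h (m * (j + 1)))
    (hpos : 0 < h (m * 0)) {M : ℕ}
    (hslow : ∀ n : ℕ, ∃ c : ℝ, ∀ l, h (k * (n + l)) ≤
      M * ((e ^ k : ℕ) : ℝ) ^ n * h (k * l) + c) : False := by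
  have he' : (1 : ℝ) ≤ e := by exact_mod_cast he
  apply Pool.Agent.H8.TD.no_slow' (fun j => h (m * j)) (κ := κ / 2) (E := (e : ℝ) ^ m)
    (one_le_pow₀ he') (by linarith) hpos hgrow hk (M := M)
  intro i
  obtain ⟨c, hc⟩ := hslow (m * i)
  refine ⟨c, fun j => ?_⟩
  have h1 := hc (m * j)
  have h2 : k * (m * i + m * j) = m * (k * (i + j)) := by ring
  have h3 : k * (m * j) = m * (k * j) := by ring
  have h4 : ((e ^ k : ℕ) : ℝ) ^ (m * i) = ((e : ℝ) ^ m) ^ (k * i) := by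
    push_cast
    rw [← pow_mul, ← pow_mul]
    congr 1
    ring
  rw [h2, h3, h4] at h1
  exact h1

end Pool.Agent.H8.TX
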