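import Pool.Agent.H8.TX.Rec1

/-!
# Zariski dense orbits on threefolds: the intersection numbers of the iterates
-/

set_option autoImplicit false

open MvPolynomial
open Pool.Agent.H12.ZD (pmap)
open Pool.Agent.H18.HIT Pool.Agent.H18.HX Pool.Agent.H18.VZ
open Pool.Agent.H8.ZA (HFam Const NA)
open Pool.Agent.H8.TD (lc dg Wsp Cop dh lc_single lc_map lc_iterate)

namespace Pool.Agent.H8.TX

/-- a linear combination of the coordinates of an iterate -/
noncomputable def sF (F : Tup 5 Qb) (n : ℕ) (s : Fin 5 → Qb) : Po 5 Qb :=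
  ∑ i, C (s i) * it F n i

/-- the data of the iterates of the map on the field of rational functions -/
structure DatX {K : Type} [Field K] [Algebra Qb K] (P : Po 5 Qb) (r : ℕ) (F : Tup 5 Qb)
    (ξ : Fin 5 → K) (τ : K →ₐ[Qb] K) (a : ℕ → ℕ) (e : ℕ) : Prop where
  hyp : Hyp P r
  fd : Fd P F ξ τ
  ne : ∀ n, aeval ξ (it F n 1) ≠ 0
  eq : ∀ n i, pn τ ξ n i = aeval ξ (it F n i) / aeval ξ (it F n 1)
  max : ∀ n s, ∃ (D m : ℕ) (Cf : ℕ → Po 4 Qb) (B : Po 4 Qb), D ≤ a n ∧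
    Npd P r (sF F n s) (it F n 1) D m Cf B
  att : ∀ n, ∃ (s : Fin 5 → Qb) (m : ℕ) (Cf : ℕ → Po 4 Qb) (B : Po 4 Qb),
    Npd P r (sF F n s) (it F n 1) (a n) m Cf B
  pos : ∀ n, 1 ≤ a n
  deg : Module.finrank τ.fieldRange K ≤ e

section

variable {K : Type} [Field K] [Algebra Qb K] {P : Po 5 Qb} {F : Tup 5 Qb} {ξ : Fin 5 → K}
  {τ : K →ₐ[Qb] K}

theorem aeval_sF (n : ℕ) (s : Fin 5 → Qb) :
    aeval ξ (sF F n s) = lc s fun i => aeval ξ (it F n i) := by
  rw [sF, map_sum, lc]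
  refine Finset.sum_congr rfl fun i _ => ?_
  rw [map_mul, aeval_C, Algebra.smul_def]

theorem sF_hom {d : ℕ} (hF : ∀ i, (F i).IsHomogeneous d) (n : ℕ) (s : Fin 5 → Qb) :
    (sF F n s).IsHomogeneous (d ^ n) := by
  apply IsHomogeneous.sum
  intro i _
  have h1 := (isHomogeneous_C (Fin 5) (s i)).mul (it_hom hF n i)
  rwa [zero_add] at h1

theorem lc_pn {n : ℕ} (heq : ∀ i, pn τ ξ n i = aeval ξ (it F n i) / aeval ξ (it F n 1))
    (s : Fin 5 → Qb) : lc s (pn τ ξ n) = aeval ξ (sF F n s) / aeval ξ (it F n 1) := by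
  rw [aeval_sF, lc, lc, Finset.sum_div]
  refine Finset.sum_congr rfl fun i _ => ?_
  rw [heq, smul_div_assoc]

/-- the equation of the function -/
theorem Npd.root {r D m : ℕ} {p q : Po 5 Qb} {Cf : ℕ → Po 4 Qb} {B : Po 4 Qb} (hP : Hyp P r)
    (hG : Gp P ξ) (h : Npd P r p q D m Cf B) (hq : aeval ξ q ≠ 0) :
    ∑ j ∈ Finset.range (m + 1), aeval ξ (up (Cf j)) * (aeval ξ p / aeval ξ q) ^ j = 0 := by
  have h1 := aeval_dvd hG hP h.rel
  rw [map_sum] at h1
  have h2 : aeval ξ q ^ m * ∑ j ∈ Finset.range (m + 1),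
      aeval ξ (up (Cf j)) * (aeval ξ p / aeval ξ q) ^ j = 0 := by
    rw [← h1, Finset.mul_sum]
    refine Finset.sum_congr rfl fun j hj => ?_
    have hj' : j ≤ m := Nat.lt_succ_iff.mp (Finset.mem_range.mp hj)
    rw [map_mul, map_mul, map_pow, map_pow, div_pow]
    have h3 : aeval ξ q ^ m = aeval ξ q ^ j * aeval ξ q ^ (m - j) := by
      rw [← pow_add, Nat.add_sub_cancel' hj']
    rw [h3]
    field_simp
  exact (mul_eq_zero.mp h2).resolve_left (pow_ne_zero _ hq)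

theorem trdeg_zero_of {K : Type} [Field K] [Algebra Qb K] {ξ : Fin 5 → K} (hG : Gp P ξ)
    (h : ∀ i, IsAlgebraic Qb (ξ i)) : False := by
  have h1 : Algebra.IsAlgebraic Qb (⊤ : IntermediateField Qb K) := by
    rw [← hG.top]
    apply IntermediateField.isAlgebraic_adjoin
    rintro _ ⟨i, rfl⟩
    exact (h i).isIntegral
  have h2 : Algebra.IsAlgebraic Qb K := by
    constructor
    intro x
    have h3 := h1.isAlgebraic (⟨x, trivial⟩ : (⊤ : IntermediateField Qb K))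
    exact (isAlgebraic_algebraMap_iff (A := K)
      (Subtype.val_injective : Function.Injective (algebraMap (⊤ : IntermediateField Qb K) K))).2 h3
  have h3 := hG.trd
  have h5 : Algebra.IsAlgebraic (Algebra.adjoin Qb (∅ : Set K)) K :=
    ⟨fun x => (h2.isAlgebraic x).extendScalars (S := Algebra.adjoin Qb (∅ : Set K))
      (FaithfulSMul.algebraMap_injective Qb _)⟩
  have h4 := Algebra.IsAlgebraic.trdeg_le_cardinalMk Qb (∅ : Set K)
  rw [h3, Cardinal.mk_eq_zero] at h4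
  exact absurd h4 (by norm_num)

/-- existence of the data -/
theorem exists_datx (hFLD : T_FLD) (hNPA : T_NPA) (hNPB : T_NPB) (hDGY : T_DGY) {r d e E : ℕ}
    {θ Δ : Po 5 Qb} (hP : Hyp P r) (hd : 1 ≤ d) (hF : ∀ i, (F i).IsHomogeneous d)
    (hs : Slf (Ideal.span {P}) F) (hB : Bas P F E θ Δ) (hE : E ≤ d * e) :
    ∃ (K : Type) (_ : Field K) (_ : Algebra Qb K) (ξ : Fin 5 → K) (τ : K →ₐ[Qb] K) (a : ℕ → ℕ),
      DatX P r F ξ τ a e := by
  classical
  obtain ⟨K, _, _, ξ, τ, hfd⟩ := hFLD Qb P F r d hP hF hs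
  have hpn := fun n => pn_eq hfd hP hF hs n
  have hnd : ∀ n, ¬ P ∣ it F n 1 := fun n h => (hpn n).1 (aeval_dvd hfd.gp hP h)
  have hN : ∀ n s, ∃ (D m : ℕ) (Cf : ℕ → Po 4 Qb) (B : Po 4 Qb), D ≤ r * d ^ n ∧
      Npd P r (sF F n s) (it F n 1) D m Cf B := by
    intro n s
    obtain ⟨Nf, h1, h2, -, h4, h5⟩ := hNPA Qb r (d ^ n) P (sF F n s) (it F n 1) hP
      (sF_hom hF n s) (it_hom hF n 1) (hnd n)
    exact hNPB Qb r (d ^ n) P (sF F n s) (it F n 1) Nf hP (hnd n) h1 h2 h4 h5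
  choose D m Cf B hD hNp using hN
  have hmax : ∀ n, ∃ a : ℕ, (∀ s, D n s ≤ a) ∧ ∃ s, D n s = a := by
    intro n
    set Q : ℕ → Prop := fun b => ∃ s, D n s = b with hQ
    refine ⟨Nat.findGreatest Q (r * d ^ n), fun s => ?_, ?_⟩
    · exact Nat.le_findGreatest (hD n s) ⟨s, rfl⟩
    · exact Nat.findGreatest_spec (P := Q) (hD n 0) ⟨0, rfl⟩
  choose a ha1 ha2 using hmax
  refine ⟨K, inferInstance, inferInstance, ξ, τ, a, hP, hfd, fun n => (hpn n).1,
    fun n => (hpn n).2, fun n s => ⟨D n s, m n s, Cf n s, B n s, ha1 n s, hNp n s⟩, fun n => ?_,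
    fun n => ?_, hDGY Qb K P θ Δ F r d e E ξ τ hP hd hF hs hB hE hfd⟩
  · obtain ⟨s, hs⟩ := ha2 n
    refine ⟨s, m n s, Cf n s, B n s, ?_⟩
    rw [← hs]
    exact hNp n s
  · by_contra hlt
    have ha0 : a n = 0 := by omega
    apply trdeg_zero_of hfd.gp
    intro i
    have hD0 : D n (Pi.single i 1) = 0 := by
      have := ha1 n (Pi.single i 1)
      omega
    have h1 := (hNp n (Pi.single i 1)).root hP hfd.gp (hpn n).1
    rw [← lc_pn (hpn n).2, lc_single] at h1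
    have hC : ∀ j, Cf n (Pi.single i 1) j = C (coeff 0 (Cf n (Pi.single i 1) j)) := by
      intro j
      have h2 := (hNp n (Pi.single i 1)).hom j
      rw [hD0] at h2
      exact totalDegree_eq_zero_iff_eq_C.1 (Nat.le_zero.1 h2.totalDegree_le)
    have h3 : IsAlgebraic Qb (pn τ ξ n i) := by
      refine ⟨∑ j ∈ Finset.range (m n (Pi.single i 1) + 1),
        Polynomial.C (coeff 0 (Cf n (Pi.single i 1) j)) * Polynomial.X ^ j, ?_, ?_⟩
      · intro h0
        have h4 := congrArg (fun p => Polynomial.coeff p (m n (Pi.single i 1))) h0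
        simp only [Polynomial.finsetSum_coeff, Polynomial.coeff_C_mul, Polynomial.coeff_X_pow,
          Polynomial.coeff_zero, mul_ite, mul_one, mul_zero] at h4
        rw [Finset.sum_ite_eq, if_pos (Finset.self_mem_range_succ _)] at h4
        apply (hNp n (Pi.single i 1)).top
        rw [hC, h4, C_0]
      · rw [map_sum]
        rw [← h1]
        refine Finset.sum_congr rfl fun j _ => ?_
        rw [map_mul, map_pow, Polynomial.aeval_X, Polynomial.aeval_C, hC j, up, rename_C, aeval_C,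
          coeff_C, if_pos rfl]
    obtain ⟨f, hf⟩ := iter_algHomX τ n
    have h4 : pn τ ξ n i = f (ξ i) := by
      rw [hf]
      rfl
    rw [h4] at h3
    exact (isAlgebraic_algHom_iff f f.toRingHom.injective).1 h3

variable {r : ℕ} {a : ℕ → ℕ} {e : ℕ}

theorem totalDegree_up_le {c : Po 4 Qb} {D : ℕ} (hc : c.IsHomogeneous D) :
    (up c).totalDegree ≤ D := (hc.rename_isHomogeneous (f := Fin.succ)).totalDegree_le

theorem DatX.ins (hINX : T_INX) (h : DatX P r F ξ τ a e) (m n Y : ℕ) {b c : ℕ} (β : Fin b → K)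
    (γ : Fin c → K) (hY : Bg Qb (pn τ ξ m) β γ Y) : Bg Qb (pn τ ξ (m + n)) β γ (a n * Y) := by
  intro s s' s''
  obtain ⟨D, l, Cf, B, hD, hN⟩ := h.max n s
  obtain ⟨f, hf⟩ := iter_algHomX τ m
  have hfa : ∀ q : Po 5 Qb, aeval (pn τ ξ m) q = f (aeval ξ q) := by
    intro q
    have h1 : pn τ ξ m = fun i => f (ξ i) := by
      rw [hf]
      rfl
    rw [h1, ← AlgHom.comp_apply, comp_aeval]
  have hz : lc s (pn τ ξ (m + n)) = f (lc s (pn τ ξ n)) := by
    rw [lc_map, hf]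
    congr 1
    funext i
    exact (pn_add m n i).symm
  apply hINX Qb K 5 (pn τ ξ m) (lc s' β) (lc s'' γ) (lc s (pn τ ξ (m + n))) (a n) Y l
    (fun j => up (Cf j)) h.fd.gp.trd (fun s => hY s s' s'')
  · intro j
    exact (totalDegree_up_le (hN.hom j)).trans hD
  · rw [hfa]
    intro h0
    exact aeval_up_ne h.fd.gp h.hyp (hN.hom l) hN.top
      (f.toRingHom.injective (by rw [map_zero]; exact h0))
  · have h1 := congrArg f (hN.root h.hyp h.fd.gp (h.ne n))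
    rw [map_sum, map_zero, ← lc_pn (h.eq n)] at h1
    rw [← h1]
    refine Finset.sum_congr rfl fun j _ => ?_
    rw [map_mul, map_pow, hfa, hz]

theorem DatX.b2 (hINX : T_INX) (hBZX : T_BZX) (h : DatX P r F ξ τ a e) (n : ℕ) :
    Bg Qb (pn τ ξ n) ξ ξ (a n * r) := by
  have h1 := h.ins hINX 0 n r ξ ξ (by
    rw [pn_zero]
    exact hBZX Qb K P r ξ h.hyp h.fd.gp)
  rwa [Nat.zero_add] at h1

theorem DatX.b3 (hINX : T_INX) (hBZX : T_BZX) (h : DatX P r F ξ τ a e) (n l : ℕ) :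
    Bg Qb (pn τ ξ n) (pn τ ξ l) ξ (a n * (a l * r)) := by
  have h1 := h.ins hINX 0 n (a l * r) (pn τ ξ l) ξ (by
    rw [pn_zero]
    exact (h.b2 hINX hBZX l).swap)
  rwa [Nat.zero_add] at h1

theorem DatX.pbk (h : DatX P r F ξ τ a e) (n : ℕ) {b c d : ℕ} {α : Fin b → K} {β : Fin c → K}
    {γ : Fin d → K} {B : ℕ} (hB : Bg Qb α β γ B) : Bg Qb (fun i => τ^[n] (α i))
      (fun i => τ^[n] (β i)) (fun i => τ^[n] (γ i)) (e ^ n * B) := by
  intro s s' s''
  have h1 : ({lc s (fun i => τ^[n] (α i)), lc s' (fun i => τ^[n] (β i)),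
      lc s'' (fun i => τ^[n] (γ i))} : Set K) =
      τ^[n] '' {lc s α, lc s' β, lc s'' γ} := by
    rw [Set.image_insert_eq, Set.image_pair, lc_iterate, lc_iterate, lc_iterate]
  rw [h1, Pool.Agent.H8.TD.Al.pbk Qb K τ n]
  exact Nat.mul_le_mul (Nat.pow_le_pow_left h.deg n) (hB s s' s'')

theorem DatX.b4 (hINX : T_INX) (hBZX : T_BZX) (h : DatX P r F ξ τ a e) (m : ℕ) :
    Bg Qb (pn τ ξ m) (pn τ ξ (m + m)) (pn τ ξ (m + m)) (e ^ m * (a m * (a m * r))) := by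
  have h1 : Bg Qb ξ (pn τ ξ m) (pn τ ξ m) (a m * (a m * r)) :=
    (h.b3 hINX hBZX m m).rot.swap
  have h2 := h.pbk m h1
  have h3 : (fun i => τ^[m] (pn τ ξ m i)) = pn τ ξ (m + m) := funext fun i => pn_add m m i
  rw [h3] at h2
  exact h2

theorem DatX.b5 (hLDX : T_LDX) (h : DatX P r F ξ τ a e) (n : ℕ) : ∃ s s' s'' : Fin 5 → Qb,
    a n ≤ dg Qb {lc s (pn τ ξ n), lc s' ξ, lc s'' ξ} := by
  obtain ⟨s, m, Cf, B, hN⟩ := h.att n
  obtain ⟨s', s'', h1⟩ := hLDX Qb K P _ _ r (a n) m Cf B ξ h.hyp h.fd.gp (h.ne n) hN (h.pos n)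
  refine ⟨s, s', s'', ?_⟩
  rw [lc_pn (h.eq n)]
  exact h1

theorem DatX.sub (hINX : T_INX) (hBZX : T_BZX) (hLDX : T_LDX) (h : DatX P r F ξ τ a e)
    (m n : ℕ) : a (m + n) ≤ a n * (a m * r) := by
  obtain ⟨s, s', s'', h1⟩ := h.b5 hLDX (m + n)
  exact h1.trans (h.ins hINX m n _ ξ ξ (h.b2 hINX hBZX m) s s' s'')

end

end Pool.Agent.H8.TX
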