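import Pool.Agent.H8.TX.Rec2

/-!
# Zariski dense orbits on threefolds: the height inequality for the iterates
-/

set_option autoImplicit false

open MvPolynomial
open Pool.Agent.H12.ZD (pmap)
open Pool.Agent.H18.HIT Pool.Agent.H18.HX Pool.Agent.H18.VZ
open Pool.Agent.H8.ZA (HFam Const NA)
open Pool.Agent.H8.TD (lc dg Wsp Cop dh lc_single lc_map lc_iterate)

namespace Pool.Agent.H8.TX

section

variable {K : Type} [Field K] [Algebra Qb K] {P : Po 5 Qb} {F : Tup 5 Qb} {ξ : Fin 5 → K}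
  {τ : K →ₐ[Qb] K} {r : ℕ} {a : ℕ → ℕ} {e : ℕ}

/-- the numbers at a good scale -/
theorem DatX.numbers (hINX : T_INX) (hBZX : T_BZX) (hLDX : T_LDX) (hAMX : T_AMX) (hGRC : T_GRC)
    (h : DatX P r F ξ τ a e) {d : ℕ} (hF : ∀ i, (F i).IsHomogeneous d) (Λ : ℕ) (he : 1 ≤ e)
    (c : ℝ) (hec : (e : ℝ) < c)
    (hgrow : ∀ N, ∃ n ≥ N, ∀ (H : Tup 5 Qb) (b : ℕ), (∀ i, (H i).IsHomogeneous b) →
      (∃ i, ¬ P ∣ H i) → (∀ i j, P ∣ it F n i * H j - it F n j * H i) → c ^ n ≤ (b : ℝ)) :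
    ∃ (m M Y : ℕ), 1 ≤ m ∧ Bg Qb (pn τ ξ m) (pn τ ξ (m + m)) ξ M ∧
      (∃ s s' s'' : Fin 5 → Qb,
        dg Qb {lc s (pn τ ξ (m + m)), lc s' (pn τ ξ (m + m)), lc s'' ξ} = Y) ∧
      Y ≤ a m * M ∧ (HI Λ e (a m) (a (m + m)) M m ∨ HII Λ e (a m) M Y m) := by
  choose Y _ hY1 hY2 using fun m => exists_maxg (h.b3 hINX hBZX m m)
  choose M hM hM1 hM2 using fun m => exists_maxg (h.b3 hINX hBZX m (m + m))
  have h1 : ∀ m, M m ≤ a m * Y m := by
    intro m
    obtain ⟨s, s', s'', h2⟩ := hM2 m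
    rw [← h2]
    exact (h.ins hINX m m _ _ _ (hY1 m)).swap s s' s''
  have h3 : ∀ m, Y (m + m) ≤ a m * M m := by
    intro m
    obtain ⟨s, s', s'', h2⟩ := hY2 (m + m)
    rw [← h2]
    exact h.ins hINX m m _ _ _ (hM1 m) s s' s''
  have hR : ∀ x : ℕ, x * r ≤ (5 + r * r + r) * x := by
    intro x
    nlinarith [Nat.zero_le (x * (r * r)), Nat.zero_le x]
  obtain ⟨m, hm, hgood⟩ := hGRC a Y M e (5 + r * r + r) Λ c h.pos (by omega)
    (fun m n => by
      refine (h.sub hINX hBZX hLDX m n).trans ?_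
      have := hR (a m * a n)
      calc a n * (a m * r) = a m * a n * r := by ring
        _ ≤ _ := this) he hec
    (fun N => by
      obtain ⟨n, hn, hg⟩ := hgrow N
      refine ⟨n, hn, ?_⟩
      obtain ⟨G, b, hG, hb, hG0, hGc⟩ := hAMX Qb r (d ^ n) (a n) P (it F n) h.hyp (it_hom hF n)
        (fun hdvd => h.ne n (aeval_dvd h.fd.gp h.hyp hdvd)) (fun i => by
          obtain ⟨D, m, Cf, B, hD, hN⟩ := h.max n (Pi.single i 1)
          refine ⟨D, m, Cf, B, hD, ?_⟩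
          have h4 : sF F n (Pi.single i 1) = it F n i := by
            rw [sF, Finset.sum_eq_single i]
            · rw [Pi.single_eq_same, C_1, one_mul]
            · intro j _ hj
              rw [Pi.single_eq_of_ne hj, C_0, zero_mul]
            · intro hi
              exact absurd (Finset.mem_univ i) hi
          rw [h4] at hN
          exact hN)
      refine (hg G b hG hG0 hGc).trans ?_
      have h5 : b ≤ (5 + r * r + r) * a n := by
        have h6 := h.pos n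
        have h7 : r * r * 1 ≤ r * r * a n := Nat.mul_le_mul_left _ h6
        calc b ≤ 5 * a n + r * r := hb
          _ ≤ 5 * a n + r * r * a n + r * a n := by omega
          _ = _ := by ring
      exact_mod_cast h5) h1
    (fun m => (hM m).trans (by
      have := hR (a m * a (m + m))
      calc a m * (a (m + m) * r) = a m * a (m + m) * r := by ring
        _ ≤ _ := this))
  exact ⟨m, M m, Y (m + m), hm, hM1 m, hY2 (m + m), h3 m, hgood⟩

theorem HI.real {d D M m : ℕ} (hr : 1 ≤ r) (hd : 1 ≤ d) (hD : D ≤ d * (d * r))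
    (h : HI (16200 * r ^ 3) e d D M m) :
    2 * (e : ℝ) ^ m < (D : ℝ) / (45 * (r * (r * d))) ∧
      8 * ((M : ℝ) / (r * d)) ≤ ((D : ℝ) / (45 * (r * (r * d)))) ^ 2 ∧
      45 * r * ((D : ℝ) / (45 * (r * (r * d)))) ≤ d := by
  obtain ⟨h1, h2⟩ := h
  have hd' : (0 : ℝ) < d := by exact_mod_cast hd
  have hr' : (1 : ℝ) ≤ r := by exact_mod_cast hr
  have hr0 : (0 : ℝ) < r := by linarith
  have h1' : 16200 * (r : ℝ) ^ 3 * (d * (e : ℝ) ^ m) < D := by exact_mod_cast h1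
  have h2' : 16200 * (r : ℝ) ^ 3 * (M * d) ≤ (D : ℝ) ^ 2 := by exact_mod_cast h2
  have hD' : (D : ℝ) ≤ d * (d * r) := by exact_mod_cast hD
  have hden : (0 : ℝ) < 45 * (r * (r * d)) := by positivity
  refine ⟨?_, ?_, ?_⟩
  · rw [lt_div_iff₀ hden]
    refine lt_of_le_of_lt ?_ h1'
    have h3 : (r : ℝ) ^ 2 ≤ r ^ 3 := pow_le_pow_right₀ hr' (by norm_num)
    have h4 : (0 : ℝ) ≤ d * (e : ℝ) ^ m := by positivity
    have h5 := mul_le_mul_of_nonneg_right h3 h4
    have h6 : 0 ≤ (r : ℝ) ^ 3 * (d * (e : ℝ) ^ m) := by positivity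
    calc 2 * (e : ℝ) ^ m * (45 * (r * (r * d))) = 90 * ((r : ℝ) ^ 2 * (d * (e : ℝ) ^ m)) := by ring
      _ ≤ 90 * ((r : ℝ) ^ 3 * (d * (e : ℝ) ^ m)) := by linarith
      _ ≤ _ := by linarith
  · rw [div_pow, le_div_iff₀ (by positivity)]
    have h3 : 8 * ((M : ℝ) / (r * d)) * (45 * (r * (r * d))) ^ 2 =
        16200 * (r : ℝ) ^ 3 * (M * d) := by
      field_simp
      ring
    rw [h3]
    exact h2'
  · have h3 : 45 * (r : ℝ) * ((D : ℝ) / (45 * (r * (r * d)))) = D / (r * d) := by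
      field_simp
    rw [h3, div_le_iff₀ (by positivity)]
    calc (D : ℝ) ≤ d * (d * r) := hD'
      _ = _ := by ring

theorem HII.real {d M Y m : ℕ} (hr : 1 ≤ r) (hM : 1 ≤ M) (hY : Y ≤ d * M)
    (h : HII (16200 * r ^ 3) e d M Y m) :
    2 * (e : ℝ) ^ m < (Y : ℝ) / (45 * (r * M)) ∧
      8 * (((e ^ m * (d * (d * r)) : ℕ) : ℝ) / M) ≤ ((Y : ℝ) / (45 * (r * M))) ^ 2 ∧
      45 * r * ((Y : ℝ) / (45 * (r * M))) ≤ d := by
  obtain ⟨h1, h2⟩ := h
  have hM' : (0 : ℝ) < M := by exact_mod_cast hM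
  have hr' : (1 : ℝ) ≤ r := by exact_mod_cast hr
  have hr0 : (0 : ℝ) < r := by linarith
  have h1' : 16200 * (r : ℝ) ^ 3 * (M * (e : ℝ) ^ m) < Y := by exact_mod_cast h1
  have h2' : 16200 * (r : ℝ) ^ 3 * ((e : ℝ) ^ m * (d * d) * M) ≤ (Y : ℝ) ^ 2 := by
    exact_mod_cast h2
  have hY' : (Y : ℝ) ≤ d * M := by exact_mod_cast hY
  have hden : (0 : ℝ) < 45 * (r * M) := by positivity
  refine ⟨?_, ?_, ?_⟩
  · rw [lt_div_iff₀ hden]
    refine lt_of_le_of_lt ?_ h1'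
    have h3 : (r : ℝ) ^ 1 ≤ r ^ 3 := pow_le_pow_right₀ hr' (by norm_num)
    rw [pow_one] at h3
    have h4 : (0 : ℝ) ≤ M * (e : ℝ) ^ m := by positivity
    have h5 := mul_le_mul_of_nonneg_right h3 h4
    have h6 : 0 ≤ (r : ℝ) ^ 3 * (M * (e : ℝ) ^ m) := by positivity
    calc 2 * (e : ℝ) ^ m * (45 * (r * M)) = 90 * ((r : ℝ) * (M * (e : ℝ) ^ m)) := by ring
      _ ≤ 90 * ((r : ℝ) ^ 3 * (M * (e : ℝ) ^ m)) := by linarith
      _ ≤ _ := by linarith
  · rw [div_pow, le_div_iff₀ (by positivity)]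
    push_cast
    have h3 : 8 * (((e : ℝ) ^ m * (d * (d * r))) / M) * (45 * (r * M)) ^ 2 =
        16200 * (r : ℝ) ^ 3 * ((e : ℝ) ^ m * (d * d) * M) := by
      field_simp
      ring
    rw [h3]
    exact h2'
  · have h3 : 45 * (r : ℝ) * ((Y : ℝ) / (45 * (r * M))) = Y / M := by
      field_simp
    rw [h3, div_le_iff₀ hM']
    exact hY'

/-- the height inequality for five functions and a finite family of points -/
theorem kin5 (hKNX : T_KNX) (hG : Gp P ξ) (q : Po 5 Qb) (hq : aeval ξ q ≠ 0)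
    (R : Subalgebra Qb K)
    (hevR : ∀ z : Fin 5 → Qb, eval z P = 0 → z 1 = 1 → eval z q ≠ 0 → ∃ ev : R →ₐ[Qb] Qb,
      ∀ (p : Po 5 Qb) (h : aeval ξ p ∈ R), ev ⟨aeval ξ p, h⟩ = eval z p)
    (hmem : ∀ p : Po 5 Qb, aeval ξ p ∈ R)
    (hnumR : ∀ b : R, ∃ (p : Po 5 Qb) (n : ℕ), (b : K) * aeval ξ q ^ n = aeval ξ p)
    (A B g : Fin 5 → R) (Q Q' M : ℕ) (s t t' : Fin 5 → Qb)
    (hadj : IntermediateField.adjoin Qb (Set.range (fun i => (A i : K)) ∪
      Set.range (fun i => (B i : K))) = ⊤) (hQ : 1 ≤ Q) (hM : 1 ≤ M)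
    (hQs : Q ≤ dg Qb {lc s (fun i => (A i : K)), lc t (fun i => (B i : K)),
      lc t' (fun i => (B i : K))})
    (h1 : Bg Qb (fun i => (g i : K)) (fun i => (B i : K)) (fun i => (B i : K)) Q')
    (h2 : Bg Qb (fun i => (g i : K)) (fun i => (B i : K)) (fun i => (A i : K)) M)
    (h3 : ∀ i, (∃ c₁ : Qb, (g i : K) = algebraMap Qb K c₁) ∨ ∃ u u' : Fin 5 → Qb,
      1 ≤ dg Qb {(g i : K), lc u (fun i => (B i : K)), lc u' (fun i => (B i : K))}) :
    ∃ T : Finset (Po 5 Qb), (∀ p ∈ T, aeval ξ p ≠ 0) ∧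
      ∀ (K' : IntermediateField ℚ Qb) (F : HFam K'), ∃ c : ℝ,
        ∀ (μ : ℕ) (z : Fin μ → Fin 5 → Qb), (∀ j, eval (z j) P = 0) → (∀ j, z j 1 = 1) →
          (∀ j, ∀ p ∈ T, eval (z j) p ≠ 0) → (∀ p ∈ T, ∏ j, eval (z j) p ∈ K') →
          ∃ ev : Fin μ → (R →ₐ[Qb] Qb),
            (∀ j (p : Po 5 Qb) (h : aeval ξ p ∈ R), ev j ⟨aeval ξ p, h⟩ = eval (z j) p) ∧
            (Q : ℝ) * ∑ j, hn F (fun i => ev j (g i)) ≤
              45 * Q' * ∑ j, hn F (fun i => ev j (A i)) +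
              45 * M * ∑ j, hn F (fun i => ev j (B i)) + μ * c := by
  classical
  have hk : ∀ i : Fin 5, ∃ β : R, β ≠ 0 ∧ ∀ (K' : IntermediateField ℚ Qb) (F : HFam K'),
      ∃ c : ℝ, ∀ (m : ℕ) (ev : Fin m → (R →ₐ[Qb] Qb)), (∀ j, ev j β ≠ 0) →
        ∏ j, ev j β ∈ K' →
      (Q : ℝ) * ∑ j, hn F ![ev j (g i)] ≤ 9 * Q' * ∑ j, hn F (fun i => ev j (A i)) +
        9 * M * ∑ j, hn F (fun i => ev j (B i)) + m * c := by
    intro i
    rcases h3 i with h | h
    · obtain ⟨c₁, h⟩ := h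
      refine ⟨1, one_ne_zero, fun K' F => ⟨Q * hn F ![c₁], fun m ev _ _ => ?_⟩⟩
      have hgi : g i = algebraMap Qb R c₁ := Subtype.ext h
      have h4 : ∑ j, hn F ![ev j (g i)] = m * hn F ![c₁] := by
        have h5 : ∀ j, hn F ![ev j (g i)] = hn F ![c₁] := by
          intro j
          rw [hgi, AlgHom.commutes]
          rfl
        simp only [h5]
        rw [Finset.sum_const, Finset.card_univ, Fintype.card_fin, nsmul_eq_mul]
      rw [h4]
      have h6 : 0 ≤ ∑ j, hn F (fun i => ev j (A i)) := Finset.sum_nonneg fun j _ => hn_nonneg _ _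
      have h7 : 0 ≤ ∑ j, hn F (fun i => ev j (B i)) := Finset.sum_nonneg fun j _ => hn_nonneg _ _
      have h8 : 0 ≤ 9 * (Q' : ℝ) * ∑ j, hn F (fun i => ev j (A i)) := by positivity
      have h9 : 0 ≤ 9 * (M : ℝ) * ∑ j, hn F (fun i => ev j (B i)) := by positivity
      have h10 : (Q : ℝ) * (m * hn F ![c₁]) = m * (Q * hn F ![c₁]) := by ring
      rw [h10]
      linarith
    · apply hKNX R K 5 5 A B (g i) Q Q' M s t t' Subtype.val_injective hG.trd hadj hQ hM hQs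
      · intro u u'
        have h4 := h1 (Pi.single i 1) u u'
        rw [lc_single] at h4
        exact h4
      · intro u u'
        have h4 := h2 (Pi.single i 1) u u'
        rw [lc_single] at h4
        exact h4
      · exact h
  choose β hβ hkey using hk
  choose p n hnum using fun i => hnumR (β i)
  have hp : ∀ i, aeval ξ (p i) ≠ 0 := by
    intro i
    rw [← hnum]
    exact mul_ne_zero (fun h0 => hβ i (Subtype.ext h0)) (pow_ne_zero _ hq)
  refine ⟨insert q (Finset.univ.image p), ?_, fun K' F => ?_⟩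
  · intro p' hp'
    rcases Finset.mem_insert.1 hp' with rfl | h4
    · exact hq
    · obtain ⟨i, -, rfl⟩ := Finset.mem_image.1 h4
      exact hp i
  choose c hc using fun i => hkey i K' F
  refine ⟨∑ i, c i, fun μ z hzP hz1 hzT hzK => ?_⟩
  have hzq : ∀ j, eval (z j) q ≠ 0 := fun j => hzT j q (Finset.mem_insert_self _ _)
  have hzp : ∀ j i, eval (z j) (p i) ≠ 0 := fun j i => hzT j (p i)
    (Finset.mem_insert_of_mem (Finset.mem_image_of_mem _ (Finset.mem_univ i)))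
  choose ev hev using fun j => hevR (z j) (hzP j) (hz1 j) (hzq j)
  refine ⟨ev, hev, ?_⟩
  have hb1 : ∀ j i, ev j (β i) * eval (z j) q ^ n i = eval (z j) (p i) := by
    intro j i
    have h4 : β i * (⟨aeval ξ q, hmem q⟩ : R) ^ n i = ⟨aeval ξ (p i), hmem _⟩ :=
      Subtype.ext (hnum i)
    have h5 := congrArg (ev j) h4
    rw [map_mul, map_pow, hev, hev] at h5
    exact h5
  have hb2 : ∀ j i, ev j (β i) ≠ 0 := by
    intro j i h0
    have h4 := hb1 j i
    rw [h0, zero_mul] at h4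
    exact hzp j i h4.symm
  have hb3 : ∀ i, ∏ j, ev j (β i) ∈ K' := by
    intro i
    have h5 : ∏ j, ev j (β i) = (∏ j, eval (z j) (p i)) / (∏ j, eval (z j) q) ^ n i := by
      rw [eq_div_iff (pow_ne_zero _ (Finset.prod_ne_zero_iff.2 fun j _ => hzq j)),
        ← Finset.prod_pow, ← Finset.prod_mul_distrib]
      exact Finset.prod_congr rfl fun j _ => hb1 j i
    rw [h5]
    exact div_mem (hzK _ (Finset.mem_insert_of_mem
      (Finset.mem_image_of_mem _ (Finset.mem_univ i)))) (pow_mem (hzK _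
        (Finset.mem_insert_self _ _)) _)
  have h6 := fun i => hc i μ ev (fun j => hb2 j i) (hb3 i)
  have h7 : ∑ j, hn F (fun i => ev j (g i)) ≤ ∑ i, ∑ j, hn F ![ev j (g i)] := by
    rw [Finset.sum_comm]
    exact Finset.sum_le_sum fun j _ => hn_le_sum F fun i => ev j (g i)
  calc (Q : ℝ) * ∑ j, hn F (fun i => ev j (g i)) ≤ Q * ∑ i, ∑ j, hn F ![ev j (g i)] :=
        mul_le_mul_of_nonneg_left h7 (Nat.cast_nonneg Q)
    _ = ∑ i, (Q : ℝ) * ∑ j, hn F ![ev j (g i)] := by rw [Finset.mul_sum]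
    _ ≤ ∑ i : Fin 5, (9 * (Q' : ℝ) * ∑ j, hn F (fun i => ev j (A i)) +
        9 * M * ∑ j, hn F (fun i => ev j (B i)) + μ * c i) := Finset.sum_le_sum fun i _ => h6 i
    _ = _ := by
      rw [Finset.sum_add_distrib, Finset.sum_const, Finset.card_univ, Fintype.card_fin,
        ← Finset.mul_sum, nsmul_eq_mul]
      push_cast
      ring

end

end Pool.Agent.H8.TX
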