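import Pool.Agent.H8.TX.Defs

/-!
# Zariski dense orbits on threefolds: the targets
-/

open MvPolynomial
open Pool.Agent.H12.ZD (pmap)
open Pool.Agent.H18.HIT Pool.Agent.H18.HX Pool.Agent.H18.VZ
open Pool.Agent.H8.ZA (HFam Const NA)
open Pool.Agent.H8.TD (lc dg Wsp Cop dh)

namespace Pool.Agent.H8.TX

/-- the projective zeros of `I` outside some closed subset have at most `e` preimages -/
def Upv {L : ℕ} {k : Type} [Field k] (I : Ideal (Po L k)) (f : Tup L k) (e : ℕ) : Prop :=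
  ∃ c, c ∉ I ∧ ∀ y, Zer I y → eval y c ≠ 0 → ∀ S : Finset (Fin L → k),
    (∀ x ∈ S, Zer I x ∧ pmap f x = y) →
    (∀ x ∈ S, ∀ x' ∈ S, ∀ t : k, (∀ i, x' i = t * x i) → x' = x) → S.card ≤ e

/-! ## A. Degrees of algebraic functions -/

/-- the degree of an algebraic function of `φ` on a curve -/
def T_PDA : Prop := ∀ (k κ C : Type) [Field k] [Infinite k] [Field κ] [CharZero κ] [Field C]
  [Algebra k κ] [Algebra κ C] [Algebra k C] [IsScalarTower k κ C] (a : ℕ) (φ : Fin a → C) (z : C)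
  (M δ n : ℕ) (Cf : ℕ → MvPolynomial (Fin a) κ),
  (∃ y : C, FiniteDimensional (IntermediateField.adjoin κ {y}) C) →
  (∃ y : C, Transcendental κ y) → (∀ s : Fin a → k, dg κ {lc s φ} ≤ M) →
  (∀ j, (Cf j).totalDegree ≤ δ) → aeval φ (Cf n) ≠ 0 →
  ∑ j ∈ Finset.range (n + 1), aeval φ (Cf j) * z ^ j = 0 → dg κ {z} ≤ δ * M

/-- the degree of an algebraic function of `φ` -/
def T_INX : Prop := ∀ (k K : Type) [Field k] [CharZero k] [Field K] [Algebra k K] (a : ℕ)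
  (φ : Fin a → K) (β γ z : K) (δ Y n : ℕ) (Cf : ℕ → MvPolynomial (Fin a) k),
  Algebra.trdeg k K = 3 → (∀ s : Fin a → k, dg k {lc s φ, β, γ} ≤ Y) →
  (∀ j, (Cf j).totalDegree ≤ δ) → aeval φ (Cf n) ≠ 0 →
  ∑ j ∈ Finset.range (n + 1), aeval φ (Cf j) * z ^ j = 0 → dg k {z, β, γ} ≤ δ * Y

/-- the degree of the threefold -/
def T_BZX : Prop := ∀ (k K : Type) [Field k] [CharZero k] [Field K] [Algebra k K] (P : Po 5 k)
  (r : ℕ) (ξ : Fin 5 → K), Hyp P r → Gp P ξ → Bg k ξ ξ ξ r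

/-- degree of an algebraic function of one variable over a field -/
def T_LDA : Prop := ∀ (κ C : Type) [Field κ] [Field C] [Algebra κ C] (t ψ : C)
  (Φ : Polynomial (Polynomial κ)) (D j : ℕ), Transcendental κ t →
  FiniteDimensional (IntermediateField.adjoin κ {t}) C → Irreducible Φ → 1 ≤ D →
  D ≤ (Φ.coeff j).natDegree → 1 ≤ Φ.natDegree →
  Polynomial.eval₂ (Polynomial.aeval t : Polynomial κ →ₐ[κ] C).toRingHom ψ Φ = 0 →
  D ≤ dg κ {ψ}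

/-- irreducibility over the field of rational functions of two of the variables -/
def T_LDB : Prop := ∀ (k κ : Type) [Field k] [Field κ] [Algebra k κ] (μ : Fin 2 → κ),
  AlgebraicIndependent k μ → IntermediateField.adjoin k (Set.range μ) = ⊤ →
  ∀ Φ : Polynomial (Po 3 k), Irreducible Φ → 1 ≤ Φ.natDegree →
  Irreducible (Φ.map (aeval (![Polynomial.C (μ 0), Polynomial.C (μ 1), Polynomial.X] :
    Fin 3 → Polynomial κ) : Po 3 k →ₐ[k] Polynomial κ).toRingHom)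

/-- dehomogenization preserves irreducibility -/
def T_DHI : Prop := ∀ (k : Type) [Field k] [Infinite k] (D n j₀ : ℕ) (Cf : ℕ → Po 4 k),
  (∀ j, (Cf j).IsHomogeneous D) → j₀ ≤ n → ¬ X 0 ∣ Cf j₀ →
  Irreducible (∑ j ∈ Finset.range (n + 1), Polynomial.C (Cf j) * Polynomial.X ^ j) →
  Irreducible (∑ j ∈ Finset.range (n + 1), Polynomial.C (dh (Cf j)) * Polynomial.X ^ j)

/-- the degree of an algebraic function as an intersection number -/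
def T_LDX : Prop := ∀ (k K : Type) [Field k] [CharZero k] [Field K] [Algebra k K]
  (P p q : Po 5 k) (r D n : ℕ) (Cf : ℕ → Po 4 k) (B : Po 4 k) (ξ : Fin 5 → K), Hyp P r →
  Gp P ξ → aeval ξ q ≠ 0 → Npd P r p q D n Cf B → 1 ≤ D → ∃ s s' : Fin 5 → k,
    D ≤ dg k {aeval ξ p / aeval ξ q, lc s ξ, lc s' ξ}

/-- existence of independent linear combinations -/
def T_EXN : Prop := ∀ (k K : Type) [Field k] [Field K] [Algebra k K] (a b : ℕ) (A : Fin a → K)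
  (B : Fin b → K) (g : K), Algebra.trdeg k K = 3 → (⊤ : IntermediateField k K).FG →
  Transcendental k g → Algebra.IsAlgebraic (IntermediateField.adjoin k (Set.range A)) K →
  Algebra.IsAlgebraic (IntermediateField.adjoin k (Set.range B)) K →
  ∃ (u : Fin b → k) (u' : Fin a → k), 1 ≤ dg k {g, lc u B, lc u' A}

/-! ## B. The function field -/

/-- the field of rational functions of the threefold and the action of the map -/
def T_FLD : Prop := ∀ (k : Type) [Field k] [CharZero k] (P : Po 5 k) (F : Tup 5 k) (r d : ℕ),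
  Hyp P r → (∀ i, (F i).IsHomogeneous d) → Slf (Ideal.span {P}) F →
  ∃ (K : Type) (_ : Field K) (_ : Algebra k K) (ξ : Fin 5 → K) (τ : K →ₐ[k] K), Fd P F ξ τ

/-- a ring of regular functions and its evaluations -/
def T_RNG : Prop := ∀ (k K : Type) [Field k] [Field K] [Algebra k K] (P q : Po 5 k)
  (ξ : Fin 5 → K), Gp P ξ → aeval ξ q ≠ 0 → ∃ R : Subalgebra k K, (∀ p : Po 5 k, aeval ξ p ∈ R) ∧
    (aeval ξ q)⁻¹ ∈ R ∧
    (∀ z : Fin 5 → k, eval z P = 0 → z 1 = 1 → eval z q ≠ 0 → ∃ ev : R →ₐ[k] k,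
      ∀ (p : Po 5 k) (h : aeval ξ p ∈ R), ev ⟨aeval ξ p, h⟩ = eval z p) ∧
    ∀ b : R, ∃ (p : Po 5 k) (n : ℕ), (b : K) * aeval ξ q ^ n = aeval ξ p

/-- the degree of the extension of the function fields -/
def T_DGY : Prop := ∀ (k K : Type) [Field k] [CharZero k] [Field K] [Algebra k K]
  (P θ Δ : Po 5 k) (F : Tup 5 k) (r d e E : ℕ) (ξ : Fin 5 → K) (τ : K →ₐ[k] K), Hyp P r →
  1 ≤ d → (∀ i, (F i).IsHomogeneous d) → Slf (Ideal.span {P}) F → Bas P F E θ Δ → E ≤ d * e →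
  Fd P F ξ τ → Module.finrank τ.fieldRange K ≤ e

/-- the norm polynomial of a rational function -/
def T_NPA : Prop := ∀ (k : Type) [Field k] [CharZero k] (r a : ℕ) (P p q : Po 5 k), Hyp P r →
  p.IsHomogeneous a → q.IsHomogeneous a → ¬ P ∣ q → ∃ Nf : ℕ → Po 4 k,
    (∀ j, (Nf j).IsHomogeneous (r * a)) ∧ Nf r ≠ 0 ∧ (∀ j, r < j → Nf j = 0) ∧
    P ∣ ∑ j ∈ Finset.range (r + 1), up (Nf j) * (p ^ j * q ^ (r - j)) ∧
    ∀ (w : Fin 4 → k) (u : Fin r → k),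
      (finSuccEquiv k 4 P).map (eval w) = ∏ j, (Polynomial.X - Polynomial.C (u j)) →
      ∑ j ∈ Finset.range (r + 1), Polynomial.C (eval w (Nf j)) * Polynomial.X ^ j =
        ∏ j, (Polynomial.C (eval (Fin.cons (u j) w : Fin 5 → k) q) * Polynomial.X -
          Polynomial.C (eval (Fin.cons (u j) w : Fin 5 → k) p))

/-- the minimal polynomial of a rational function -/
def T_NPB : Prop := ∀ (k : Type) [Field k] [CharZero k] (r a : ℕ) (P p q : Po 5 k)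
  (Nf : ℕ → Po 4 k), Hyp P r → ¬ P ∣ q → (∀ j, (Nf j).IsHomogeneous (r * a)) → Nf r ≠ 0 →
  P ∣ ∑ j ∈ Finset.range (r + 1), up (Nf j) * (p ^ j * q ^ (r - j)) →
  (∀ (w : Fin 4 → k) (u : Fin r → k),
      (finSuccEquiv k 4 P).map (eval w) = ∏ j, (Polynomial.X - Polynomial.C (u j)) →
      ∑ j ∈ Finset.range (r + 1), Polynomial.C (eval w (Nf j)) * Polynomial.X ^ j =
        ∏ j, (Polynomial.C (eval (Fin.cons (u j) w : Fin 5 → k) q) * Polynomial.X -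
          Polynomial.C (eval (Fin.cons (u j) w : Fin 5 → k) p))) →
  ∃ (D n : ℕ) (Cf : ℕ → Po 4 k) (B : Po 4 k), D ≤ r * a ∧ Npd P r p q D n Cf B

/-- representation of a rational map by forms of small degree -/
def T_AMX : Prop := ∀ (k : Type) [Field k] [CharZero k] (r a A : ℕ) (P : Po 5 k)
  (p : Tup 5 k), Hyp P r → (∀ i, (p i).IsHomogeneous a) → ¬ P ∣ p 1 →
  (∀ i, ∃ (D n : ℕ) (Cf : ℕ → Po 4 k) (B : Po 4 k), D ≤ A ∧ Npd P r (p i) (p 1) D n Cf B) →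
  ∃ (G : Tup 5 k) (b : ℕ), (∀ i, (G i).IsHomogeneous b) ∧ b ≤ 5 * A + r * r ∧
    (∃ i, ¬ P ∣ G i) ∧ ∀ i j, P ∣ p i * G j - p j * G i

/-! ## C. Heights -/

/-- bound for the values of a section -/
def T_WBY : Prop := ∀ (R : Type) [CommRing R] [Algebra Qb R] (a b : ℕ) (A : Fin a → R)
  (B : Fin b → R) (n l : ℕ) (q : R), q ∈ Wsp Qb A B n l → ∀ (K : IntermediateField ℚ Qb)
  (F : HFam K), ∃ c, Const F c ∧ ∀ (i : F.ι) (ev : R →ₐ[Qb] Qb), F.abv i (ev q) ≤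
    c i * (szn (F.abv i) (fun j => ev (A j)) ^ n * szn (F.abv i) (fun j => ev (B j)) ^ l)

/-- the height inequality for finite families of points -/
def T_KNX : Prop := ∀ (R K : Type) [CommRing R] [IsDomain R] [Field K] [Algebra Qb R]
  [Algebra R K] [Algebra Qb K] [IsScalarTower Qb R K] (a b : ℕ) (A : Fin a → R) (B : Fin b → R)
  (g : R) (Q Q' M : ℕ) (s : Fin a → Qb) (t t' : Fin b → Qb),
  Function.Injective (algebraMap R K) → Algebra.trdeg Qb K = 3 →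
  IntermediateField.adjoin Qb (Set.range (fun i => algebraMap R K (A i)) ∪
    Set.range (fun i => algebraMap R K (B i))) = ⊤ → 1 ≤ Q → 1 ≤ M →
  Q ≤ dg Qb {lc s (fun i => algebraMap R K (A i)), lc t (fun i => algebraMap R K (B i)),
    lc t' (fun i => algebraMap R K (B i))} →
  (∀ u u' : Fin b → Qb, dg Qb {algebraMap R K g, lc u (fun i => algebraMap R K (B i)),
    lc u' (fun i => algebraMap R K (B i))} ≤ Q') →
  (∀ (u : Fin b → Qb) (u' : Fin a → Qb), dg Qb {algebraMap R K g,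
    lc u (fun i => algebraMap R K (B i)), lc u' (fun i => algebraMap R K (A i))} ≤ M) →
  (∃ u u' : Fin b → Qb, 1 ≤ dg Qb {algebraMap R K g, lc u (fun i => algebraMap R K (B i)),
    lc u' (fun i => algebraMap R K (B i))}) →
  ∃ β : R, β ≠ 0 ∧ ∀ (K' : IntermediateField ℚ Qb) (F : HFam K'), ∃ c : ℝ,
    ∀ (m : ℕ) (ev : Fin m → (R →ₐ[Qb] Qb)), (∀ j, ev j β ≠ 0) → ∏ j, ev j β ∈ K' →
      (Q : ℝ) * ∑ j, hn F ![ev j g] ≤ 9 * Q' * ∑ j, hn F (fun i => ev j (A i)) +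
        9 * M * ∑ j, hn F (fun i => ev j (B i)) + m * c

/-- heights of algebraically dependent numbers -/
def T_HRX : Prop := ∀ (K₀ K₁ : IntermediateField ℚ Qb) (F : HFam K₀) (r m : ℕ)
  (σ : Fin r → (Qb ≃+* Qb)) (G : Polynomial (Polynomial Qb)), Cj K₀ K₁ σ →
  (∀ i j, (G.coeff i).coeff j ∈ K₁) → (∀ j, (G.coeff j).natDegree ≤ m) →
  (∀ t : Qb, ∃ j, (G.coeff j).eval t ≠ 0) → ∃ c : ℝ, ∀ t φ : Qb, t ∈ K₁ →
    (G.map (Polynomial.evalRingHom t)).eval φ = 0 →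
    ∑ j, hn F ![σ j φ] ≤ m * ∑ j, hn F ![σ j t] + c

/-- the norms of the elements of a simple extension -/
def T_CJX : Prop := ∀ (K₀ : IntermediateField ℚ Qb) (r : ℕ) (f : Polynomial Qb)
  (u : Fin r → Qb) (x : Qb) (σ : Fin r → (Qb ≃+* Qb)), (∀ j, f.coeff j ∈ K₀) →
  f = ∏ j, (Polynomial.X - Polynomial.C (u j)) → (∀ j, ∀ z ∈ K₀, σ j z = z) →
  (∀ j, σ j x = u j) → Cj K₀ (K₀ ⊔ IntermediateField.adjoin ℚ {x}) σ

/-- heights along a rational curve -/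
def T_LNY : Prop := ∀ (M D : ℕ) (p : Fin (M + 1) → Polynomial Qb), (∀ i, (p i).natDegree ≤ D) →
  (∃ i, (p i).coeff D ≠ 0) → (∀ t : Qb, ∃ i, (p i).eval t ≠ 0) →
  ∀ (K : IntermediateField ℚ Qb) (F : HFam K), ∃ c : ℝ, ∀ t : ℤ, t ≠ 0 →
    |hp F (fun i => (p i).eval (t : Qb)) - D * (F.arch.card * Real.log |(t : ℝ)|)| ≤ c

/-- the coefficients of a polynomial and its zeros -/
def T_GSX : Prop := ∀ (v : AbsoluteValue Qb ℝ) (n r : ℕ) (c : ℕ → Qb) (ψ : Fin r → Qb),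
  c n ≠ 0 → (∑ j ∈ Finset.range (n + 1), Polynomial.C (c j) * Polynomial.X ^ j) ∣
    ∏ j, (Polynomial.X - Polynomial.C (ψ j)) → ∀ j ≤ n,
  v (c j) ≤ 2 ^ r * (v (c n) * ∏ j, max 1 (v (ψ j))) ∧
    (NA v → v (c j) ≤ v (c n) * ∏ j, max 1 (v (ψ j)))

/-- lower bound for the heights of the conjugates of an algebraic function along a line -/
def T_STX : Prop := ∀ (P p q : Po 5 Qb) (r D n : ℕ) (Cf : ℕ → Po 4 Qb) (B : Po 4 Qb)
  (w v : Fin 4 → Qb), Npd P r p q D n Cf B → (∃ j, eval v (Cf j) ≠ 0) →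
  (∀ t : Qb, ∃ j, eval (fun i => w i + t * v i) (Cf j) ≠ 0) →
  ∀ (K₀ : IntermediateField ℚ Qb) (F : HFam K₀),
  (∀ t : ℤ, eval (fun i => w i + (t : Qb) * v i) (Cf n) ∈ K₀) → ∃ c : ℝ,
  ∀ t : ℤ, t ≠ 0 → eval (fun i => w i + (t : Qb) * v i) B ≠ 0 → ∀ u : Fin r → Qb,
    (finSuccEquiv Qb 4 P).map (eval (fun i => w i + (t : Qb) * v i)) =
      ∏ j, (Polynomial.X - Polynomial.C (u j)) →
    D * (F.arch.card * Real.log |(t : ℝ)|) ≤
      ∑ j, hn F ![eval (Fin.cons (u j) (fun i => w i + (t : Qb) * v i) : Fin 5 → Qb) p /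
        eval (Fin.cons (u j) (fun i => w i + (t : Qb) * v i) : Fin 5 → Qb) q] + c

/-- heights of the points of the threefold over a line -/
def T_HTX : Prop := ∀ (P : Po 5 Qb) (r : ℕ) (w v : Fin 4 → Qb), Hyp P r → (∃ i, v i ≠ 0) →
  (∀ t : Qb, ∃ i, w i + t * v i ≠ 0) → ∀ (K₀ : IntermediateField ℚ Qb) (F : HFam K₀),
  (∀ t : ℤ, w 0 + (t : Qb) * v 0 ∈ K₀) → ∃ c : ℝ, ∀ (t : ℤ) (u : Qb), t ≠ 0 →
    w 0 + (t : Qb) * v 0 ≠ 0 →
    eval (Fin.cons u (fun i => w i + (t : Qb) * v i) : Fin 5 → Qb) P = 0 →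
    |hn F (af (Fin.cons u (fun i => w i + (t : Qb) * v i) : Fin 5 → Qb)) -
      (F.arch.card * Real.log |(t : ℝ)|)| ≤ c

/-! ## D. Numbers -/

/-- the growth conditions are satisfied at some scale -/
def T_GRC : Prop := ∀ (a Y M : ℕ → ℕ) (e R Λ : ℕ) (c : ℝ), (∀ n, 1 ≤ a n) → 1 ≤ R →
  (∀ m n, a (m + n) ≤ R * (a m * a n)) → 1 ≤ e → (e : ℝ) < c →
  (∀ N, ∃ n ≥ N, c ^ n ≤ R * (a n : ℝ)) → (∀ m, M m ≤ a m * Y m) →
  (∀ m, M m ≤ R * (a m * a (m + m))) →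
  ∃ m ≥ 1, HI Λ e (a m) (a (m + m)) (M m) m ∨ HII Λ e (a m) (M m) (Y (m + m)) m

/-! ## E. The topological degree -/

/-- the number of preimages under the iterates -/
def T_UPX : Prop := ∀ (L d e n E : ℕ) (k : Type) [Field k] [IsAlgClosed k] (I : Ideal (Po L k))
  [I.IsPrime] (F : Tup L k), 1 ≤ d → (∀ i, (F i).IsHomogeneous d) → Slf I F → (∃ i, X i ∉ I) →
  Upv I F e → Cvi I (it F n) E → E ≤ d ^ n * e ^ n

/-- the number of preimages for the self-map of the hypersurface -/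
def T_TUP : Prop := ∀ (L N r δ d e : ℕ) (k : Type) [Field k] [IsAlgClosed k] [CharZero k]
  (I : Ideal (Po L k)) [I.IsPrime] (l : Fin (N + 1) → Po L k) (P : Po (N + 1) k) (Δ : Po N k)
  (g : Tup L k) (F : Tup (N + 1) k), Pro I l P r Δ δ →
  (∀ c ∈ I, ∀ t, homogeneousComponent t c ∈ I) → 1 ≤ d → (∀ i, (g i).IsHomogeneous d) →
  Slf I g → (∀ i, (F i).IsHomogeneous (d + δ)) →
  (∀ i, aeval (fun j : Fin N => l j.succ) Δ * aeval g (l i) - aeval l (F i) ∈ I) →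
  Slf (Ideal.span {P}) F → Upv I g e → Upv (Ideal.span {P}) F e

/-- representations of the iterates -/
def T_TGR : Prop := ∀ (L N r δ d : ℕ) (k : Type) [Field k] [IsAlgClosed k] [CharZero k]
  (I : Ideal (Po L k)) [I.IsPrime] (l : Fin (N + 1) → Po L k) (P : Po (N + 1) k) (Δ : Po N k)
  (g : Tup L k) (F : Tup (N + 1) k), Pro I l P r Δ δ →
  (∀ c ∈ I, ∀ t, homogeneousComponent t c ∈ I) → (∀ i, (g i).IsHomogeneous d) → Slf I g →
  (∀ i, (F i).IsHomogeneous (d + δ)) →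
  (∀ i, aeval (fun j : Fin N => l j.succ) Δ * aeval g (l i) - aeval l (F i) ∈ I) →
  Slf (Ideal.span {P}) F → ∀ (n b : ℕ) (H : Tup (N + 1) k), (∀ i, (H i).IsHomogeneous b) →
  (∃ i, ¬ P ∣ H i) → (∀ i j, P ∣ it F n i * H j - it F n j * H i) →
  ∃ G : Tup L k, (∀ i, (G i).IsHomogeneous ((1 + δ) * b)) ∧ (∃ i, G i ∉ I) ∧
    ∀ i j, it g n i * G j - it g n j * G i ∈ I

/-! ## F. Slow growth along a totally invariant curve -/

/-- algebraic relations between a coordinate and the coordinates of the iterates on a curve -/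
def T_RLA : Prop := ∀ (k : Type) [Field k] [IsAlgClosed k] [CharZero k] (P θ Δ : Po 5 k)
  (V : Ideal (Po 5 k)) (T : Tup 5 k) (D e E : ℕ) (S S' : Po 4 k), V.IsPrime → 1 ≤ D →
  (∀ i, (T i).IsHomogeneous D) → Hmi V → X 1 ∉ V → Mny P → P ∈ V →
  (∀ q, aeval T q ∈ V ↔ q ∈ V) → Bas P T E θ Δ → Δ ∉ V → E ≤ D * e → up S ∈ V → up S' ∈ V →
  S ≠ 0 → S' ≠ 0 → IsRelPrime S S' → ∀ i j : Fin 5, ∃ M : ℕ, ∀ n : ℕ,
    ∃ G : Polynomial (Polynomial k), G ≠ 0 ∧ (∀ m, (G.coeff m).natDegree ≤ M * e ^ n) ∧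
      ∀ y : Fin 5 → k, (∀ q ∈ V, eval y q = 0) → y 1 ≠ 0 → (pmap T)^[n] y 1 ≠ 0 →
        (G.map (Polynomial.evalRingHom (y j / y 1))).eval
          ((pmap T)^[n] y i / (pmap T)^[n] y 1) = 0

/-- relations with coefficients in a number field and without common factor -/
def T_RLB : Prop := ∀ (K : IntermediateField ℚ Qb) (T : Tup 5 Qb) (y : Fin 5 → Qb)
  (n m : ℕ) (i j : Fin 5) (G : Polynomial (Polynomial Qb)),
  (∀ l s, (pmap T)^[l] y s ∈ K) → (∀ l, (pmap T)^[l] y 1 ≠ 0) → (van T y).IsPrime →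
  (∀ c : Qb, ∃ l, (pmap T)^[l] y j ≠ c * (pmap T)^[l] y 1) → G ≠ 0 →
  (∀ s, (G.coeff s).natDegree ≤ m) →
  (∀ l, (G.map (Polynomial.evalRingHom ((pmap T)^[l] y j / (pmap T)^[l] y 1))).eval
    ((pmap T)^[n + l] y i / (pmap T)^[n + l] y 1) = 0) →
  ∃ G' : Polynomial (Polynomial Qb), (∀ s u, (G'.coeff s).coeff u ∈ K) ∧
    (∀ s, (G'.coeff s).natDegree ≤ m) ∧ (∀ t : Qb, ∃ s, (G'.coeff s).eval t ≠ 0) ∧
    ∀ l, (G'.map (Polynomial.evalRingHom ((pmap T)^[l] y j / (pmap T)^[l] y 1))).eval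
      ((pmap T)^[n + l] y i / (pmap T)^[n + l] y 1) = 0

/-! ## G. Hilbert-generic points over a line -/

/-- points of a line whose fibre is one Galois orbit -/
def T_HIL : Prop := ∀ (L N : ℕ) (I : Ideal (Po L Qb)) [I.IsPrime] (g : Fin N → Po L Qb)
  (s : Finset (Po L Qb)) (c : Po N Qb), (∀ q : Po N Qb, aeval g q ∈ I → q = 0) →
  (∀ i, ∃ Q : Polynomial (Po N Qb), Q ≠ 0 ∧ evg g (X i) Q ∈ I) → c ≠ 0 →
  ∃ y : Fin N → ℤ, eval (cZ y) c ≠ 0 ∧ ∀ c' : Po N Qb, c' ≠ 0 → ∃ b : Fin N → ℤ,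
    eval (cZ b) c' ≠ 0 ∧ ∀ (s' : Finset Qb) (M : ℕ), ∃ t : ℤ, (M : ℤ) < |t| ∧
      eval (cZ fun i => y i + t * b i) c ≠ 0 ∧
      ∀ x x' : Fin L → Qb, Zer I x → Zer I x' →
        (∀ j, eval x (g j) = ((y j + t * b j : ℤ) : Qb)) →
        (∀ j, eval x' (g j) = ((y j + t * b j : ℤ) : Qb)) →
        ∃ σ : Qb ≃+* Qb, (∀ q ∈ s, map (σ : Qb →+* Qb) q = q) ∧ (∀ a ∈ s', σ a = a) ∧
          ∀ i, σ (x i) = x' i

/-- points over a line with totally invariant orbit closure -/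
def T_COL : Prop := ∀ (N r d : ℕ) (P b : Po (N + 1) Qb) (F : Tup (N + 1) Qb), 1 ≤ N →
  Hyp P r → r ≤ d → (∀ i, (F i).IsHomogeneous d) → Slf (Ideal.span {P}) F →
  (∃ m, b.IsHomogeneous m) → ¬ P ∣ b →
  ∃ (m : ℕ) (α : Fin N → Qb) (ϖ : Qb), 1 ≤ m ∧ ϖ ≠ 0 ∧
  ∀ (E : ℕ) (θ Δ : Po (N + 1) Qb), Bas P (it F m) E θ Δ → Cvi (Ideal.span {P}) (it F m) E →
  ∀ g : Po N Qb, g ≠ 0 →
  ∃ y : Fin N → ℤ, eval (fun i => α i + ϖ * (y i : Qb)) g ≠ 0 ∧
  ∀ c' : Po N Qb, c' ≠ 0 → ∃ b' : Fin N → ℤ, eval (cZ b') c' ≠ 0 ∧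
  ∀ (s : Finset Qb) (M₀ : ℕ), ∃ (t : ℤ) (x : Fin (N + 1) → Qb), (M₀ : ℤ) < |t| ∧
    (∀ i : Fin N, x i.succ = α i + ϖ * ((y i + t * b' i : ℤ) : Qb)) ∧ eval x P = 0 ∧
    (∀ n : ℕ, eval ((pmap F)^[n] x) b ≠ 0) ∧ eval x (up g) ≠ 0 ∧
    (van (it F m) x).IsPrime ∧ Tot P (it F m) E θ (van (it F m) x) ∧
    ∀ x' : Fin (N + 1) → Qb, eval x' P = 0 → (∀ i : Fin N, x' i.succ = x i.succ) →
      ∃ σ : Qb ≃+* Qb, (∀ a ∈ s, σ a = a) ∧ ∀ i, σ (x i) = x' i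

end Pool.Agent.H8.TX
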